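import Mathlib

set_option autoImplicit false

open Finset
open scoped BigOperators Classical

namespace Pool.Agent.Fox

noncomputable section

variable {V : Type*}

/-- the `c`-coloured neighbourhood of `x` inside `F` -/
def nb (χ : V → V → Bool) (c : Bool) (x : V) (F : Finset V) : Finset V :=
  F.filter (fun y => χ x y = c)

/-- bi-density at scale `th` -/
def BD (χ : V → V → Bool) (lam : ℕ) (c : Bool) (W : Finset V) (th : ℕ) : Prop :=
  ∀ Y ⊆ W, W.card ≤ Y.card * 2 ^ th →
    (W.filter (fun x => (nb χ c x Y).card * 2 ^ lam < Y.card)).card * 2 ^ th < W.card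

/-- near-completeness in colour `c` -/
def NC (χ : V → V → Bool) (J : ℕ) (c : Bool) (W : Finset V) : Prop :=
  ∀ x ∈ W, (nb χ (!c) x W).card * 2 ^ (J + 1) ≤ W.card

lemma double_count (χ : V → V → Bool) (hχ : ∀ x y, χ x y = χ y x) (c : Bool) (X Y : Finset V) :
    ∑ x ∈ X, (nb χ c x Y).card = ∑ y ∈ Y, (nb χ c y X).card := by
  unfold nb
  simp only [Finset.card_filter]
  rw [Finset.sum_comm]
  refine Finset.sum_congr rfl (fun y _ => Finset.sum_congr rfl (fun x _ => ?_))
  rw [hχ x y]

lemma dich_claim (χ : V → V → Bool) (hχ : ∀ x y, χ x y = χ y x) (lam : ℕ) (c : Bool) (th M0 : ℕ)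
    (hM0 : 1 ≤ M0) : ∀ t : ℕ, ∀ U : Finset V, 2 ^ ((th + 2) * t) * M0 ≤ U.card →
    (∃ W ⊆ U, M0 ≤ W.card ∧ BD χ lam c W th) ∨
    (∃ W ⊆ U, W.card = 2 ^ t * M0 ∧
      ((∑ x ∈ W, (nb χ c x W).card : ℕ) : ℝ) ≤ ((1/2 : ℝ) ^ t + 2 * (1/2 : ℝ) ^ lam) * (W.card : ℝ) ^ 2) := by
  intro t
  induction t with
  | zero =>
    intro U hU
    right
    have hU' : M0 ≤ U.card := by simpa using hU
    obtain ⟨W, hWU, hW⟩ := Finset.exists_subset_card_eq hU'
    refine ⟨W, hWU, by simp [hW], ?_⟩
    have h1 : (∑ x ∈ W, (nb χ c x W).card) ≤ W.card * W.card := by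
      calc (∑ x ∈ W, (nb χ c x W).card) ≤ ∑ x ∈ W, W.card :=
            Finset.sum_le_sum (fun x _ => Finset.card_filter_le _ _)
        _ = W.card * W.card := by simp
    have h2 : ((∑ x ∈ W, (nb χ c x W).card : ℕ) : ℝ) ≤ (W.card : ℝ) * W.card := by
      exact_mod_cast h1
    have h3 : (0:ℝ) ≤ 2 * (1/2 : ℝ) ^ lam := by positivity
    have h4 : (0:ℝ) ≤ (W.card : ℝ) ^ 2 := by positivity
    nlinarith [mul_nonneg h3 h4]
  | succ t ih =>
    intro U hU
    by_cases hBD : BD χ lam c U th
    · left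
      refine ⟨U, Finset.Subset.refl _, ?_, hBD⟩
      calc M0 = 1 * M0 := (one_mul _).symm
        _ ≤ 2 ^ ((th + 2) * (t + 1)) * M0 := Nat.mul_le_mul_right _ Nat.one_le_two_pow
        _ ≤ U.card := hU
    · unfold BD at hBD
      push Not at hBD
      obtain ⟨Y, hYU, hY1, hX1⟩ := hBD
      set X : Finset V := U.filter (fun x => (nb χ c x Y).card * 2 ^ lam < Y.card) with hX
      set K : ℕ := 2 ^ ((th + 2) * t) * M0 with hK
      have hKU : 4 * K * 2 ^ th ≤ U.card := by
        refine le_trans (le_of_eq ?_) hU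
        rw [hK]; ring
      have h2th : 0 < 2 ^ th := by positivity
      have hX2 : 4 * K ≤ X.card := Nat.le_of_mul_le_mul_right (le_trans hKU hX1) h2th
      have hY2 : 4 * K ≤ Y.card := Nat.le_of_mul_le_mul_right (le_trans hKU hY1) h2th
      have hXU : X ⊆ U := Finset.filter_subset _ _
      rcases ih X (by omega) with ⟨W, hW, hW1, hW2⟩ | ⟨X', hX'X, hX'c, hX'd⟩
      · exact Or.inl ⟨W, hW.trans hXU, hW1, hW2⟩
      set M : ℕ := 2 ^ t * M0 with hM
      have hMK : M ≤ K := by
        rw [hM, hK]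
        refine Nat.mul_le_mul_right _ (Nat.pow_le_pow_right (by norm_num) ?_)
        nlinarith
      have hMpos : 0 < M := by rw [hM]; positivity
      set Y1 : Finset V := (Y \ X').filter (fun y => (nb χ c y X').card * 2 ^ lam ≤ 2 * X'.card)
        with hY1'
      set Yb : Finset V := Y.filter (fun y => 2 * X'.card < (nb χ c y X').card * 2 ^ lam) with hYb
      have hYbc : 2 * Yb.card ≤ Y.card := by
        have e1 : ∑ y ∈ Yb, 2 * X'.card ≤ ∑ y ∈ Yb, (nb χ c y X').card * 2 ^ lam :=
          Finset.sum_le_sum (fun y hy => (Finset.mem_filter.mp hy).2.le)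
        have e2 : ∑ y ∈ Yb, (nb χ c y X').card * 2 ^ lam
            ≤ ∑ y ∈ Y, (nb χ c y X').card * 2 ^ lam :=
          Finset.sum_le_sum_of_subset (Finset.filter_subset _ _)
        have e3 : ∑ y ∈ Y, (nb χ c y X').card * 2 ^ lam
            = ∑ x ∈ X', (nb χ c x Y).card * 2 ^ lam := by
          rw [← Finset.sum_mul, ← Finset.sum_mul, double_count χ hχ c X' Y]
        have e4 : ∑ x ∈ X', (nb χ c x Y).card * 2 ^ lam ≤ ∑ x ∈ X', Y.card :=
          Finset.sum_le_sum (fun x hx => ((Finset.mem_filter.mp (hX'X hx)).2).le)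
        rw [Finset.sum_const, smul_eq_mul] at e1 e4
        have e5 : Yb.card * (2 * X'.card) ≤ X'.card * Y.card := by
          linarith
        have hX'pos : 0 < X'.card := by rw [hX'c]; exact hMpos
        have e6 : X'.card * (2 * Yb.card) ≤ X'.card * Y.card := by linarith
        exact Nat.le_of_mul_le_mul_left e6 hX'pos
      have hY1c : K ≤ Y1.card := by
        have e1 : (Y \ X') \ Yb ⊆ Y1 := by
          intro y hy
          simp only [Finset.mem_sdiff, hYb, Finset.mem_filter, not_and, not_lt] at hy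
          simp only [hY1', Finset.mem_filter, Finset.mem_sdiff]
          exact ⟨hy.1, hy.2 hy.1.1⟩
        have e2 : Y.card - X'.card - Yb.card ≤ ((Y \ X') \ Yb).card := by
          have := Finset.le_card_sdiff Yb (Y \ X')
          have := Finset.le_card_sdiff X' Y
          omega
        have e3 := Finset.card_le_card e1
        omega
      have hY1U : Y1 ⊆ U := fun y hy =>
        hYU (Finset.mem_sdiff.mp (Finset.mem_filter.mp hy).1).1
      rcases ih Y1 hY1c with ⟨W, hW, hW1, hW2⟩ | ⟨Y', hY'Y, hY'c, hY'd⟩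
      · exact Or.inl ⟨W, hW.trans hY1U, hW1, hW2⟩
      right
      have hdisj : Disjoint X' Y' := by
        rw [Finset.disjoint_left]
        intro z hz hz'
        exact (Finset.mem_sdiff.mp (Finset.mem_filter.mp (hY'Y hz')).1).2 hz
      refine ⟨X' ∪ Y', Finset.union_subset (hX'X.trans hXU) (hY'Y.trans hY1U), ?_, ?_⟩
      · rw [Finset.card_union_of_disjoint hdisj, hX'c, hY'c, hM]; ring
      · have hc2 : ((X' ∪ Y').card : ℝ) = 2 * M := by
          rw [Finset.card_union_of_disjoint hdisj, hX'c, hY'c]; push_cast; ring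
        have hnbu : ∀ x, (nb χ c x (X' ∪ Y')).card = (nb χ c x X').card + (nb χ c x Y').card := by
          intro x
          unfold nb
          rw [Finset.filter_union, Finset.card_union_of_disjoint]
          exact Finset.disjoint_filter_filter hdisj
        have e1 : ∑ x ∈ X' ∪ Y', (nb χ c x (X' ∪ Y')).card
            = ∑ x ∈ X', (nb χ c x X').card + ∑ x ∈ Y', (nb χ c x Y').card
              + 2 * ∑ y ∈ Y', (nb χ c y X').card := by
          rw [Finset.sum_union hdisj]
          simp only [hnbu, Finset.sum_add_distrib]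
          rw [double_count χ hχ c X' Y']
          ring
        have e2 : ((∑ y ∈ Y', (nb χ c y X').card : ℕ) : ℝ) ≤ 2 * (1/2 : ℝ) ^ lam * (M : ℝ) ^ 2 := by
          have f1 : ∀ y ∈ Y', ((nb χ c y X').card : ℝ) ≤ 2 * (1/2 : ℝ) ^ lam * M := by
            intro y hy
            have f2 := (Finset.mem_filter.mp (hY'Y hy)).2
            have f3 : ((nb χ c y X').card : ℝ) * 2 ^ lam ≤ 2 * (M : ℝ) := by
              rw [← hX'c]; exact_mod_cast f2
            have f4 : (0 : ℝ) < 2 ^ lam := by positivity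
            rw [one_div, inv_pow]
            rw [← le_div_iff₀ f4] at f3
            calc ((nb χ c y X').card : ℝ) ≤ 2 * (M : ℝ) / 2 ^ lam := f3
              _ = 2 * (2 ^ lam)⁻¹ * M := by ring
          push_cast
          calc ∑ y ∈ Y', ((nb χ c y X').card : ℝ) ≤ ∑ y ∈ Y', 2 * (1/2 : ℝ) ^ lam * M :=
                Finset.sum_le_sum f1
            _ = 2 * (1/2 : ℝ) ^ lam * (M : ℝ) ^ 2 := by
                rw [Finset.sum_const, hY'c, nsmul_eq_mul]; ring
        rw [e1, hc2]
        push_cast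
        push_cast at hX'd hY'd e2
        rw [hX'c] at hX'd
        rw [hY'c] at hY'd
        have e3 : (1/2 : ℝ) ^ (t + 1) = (1/2 : ℝ) ^ t / 2 := by rw [pow_succ]; ring
        rw [e3]
        nlinarith [hX'd, hY'd, e2]

/-- one-colour dichotomy -/
lemma dich1 (χ : V → V → Bool) (hχ : ∀ x y, χ x y = χ y x) (J : ℕ) (c : Bool) (th : ℕ)
    (U : Finset V) (hU : 2 ^ ((th + 2) * (J + 4)) ≤ U.card) :
    ∃ W ⊆ U, U.card ≤ W.card * 2 ^ ((th + 2) * (J + 4) + 1) ∧
      (BD χ (J + 5) c W th ∨ NC χ J (!c) W) := by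
  set E : ℕ := 2 ^ ((th + 2) * (J + 4)) with hE
  have hEpos : 0 < E := by positivity
  set M0 : ℕ := U.card / E with hM0
  have h1 : 1 ≤ M0 := by
    rw [hM0, Nat.one_le_div_iff hEpos]; exact hU
  have h2 : E * M0 ≤ U.card := Nat.mul_div_le _ _
  have h3 : U.card < E * (M0 + 1) := by
    have := Nat.lt_mul_div_succ U.card hEpos
    simpa [hM0] using this
  have h4 : U.card ≤ M0 * (E * 2) := by nlinarith
  have h5 : 2 ^ ((th + 2) * (J + 4) + 1) = E * 2 := by rw [pow_succ]
  rw [h5]
  rcases dich_claim χ hχ (J + 5) c th M0 h1 (J + 4) U h2 with ⟨W, hWU, hW1, hW2⟩ | ⟨W, hWU, hWc, hWd⟩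
  · refine ⟨W, hWU, ?_, Or.inl hW2⟩
    exact le_trans h4 (Nat.mul_le_mul_right _ hW1)
  · set W' : Finset V := W.filter (fun x => (nb χ c x W).card * 2 ^ (J + 2) ≤ W.card) with hW'
    set Wb : Finset V := W.filter (fun x => ¬ (nb χ c x W).card * 2 ^ (J + 2) ≤ W.card) with hWb
    have hWpos : 0 < W.card := by rw [hWc]; positivity
    have hd : (∑ x ∈ W, (nb χ c x W).card) * 2 ^ (J + 3) ≤ W.card * W.card := by
      have f1 : (1/2 : ℝ) ^ (J + 4) + 2 * (1/2 : ℝ) ^ (J + 5) = (1/2 : ℝ) ^ (J + 3) := by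
        rw [pow_succ, pow_succ (1/2 : ℝ) (J + 4), pow_succ (1/2 : ℝ) (J + 3)]; ring
      rw [f1] at hWd
      have f2 : (0 : ℝ) < 2 ^ (J + 3) := by positivity
      rw [one_div, inv_pow, inv_mul_eq_div, le_div_iff₀ f2] at hWd
      have f3 : (((∑ x ∈ W, (nb χ c x W).card) * 2 ^ (J + 3) : ℕ) : ℝ) ≤ ((W.card * W.card : ℕ) : ℝ) := by
        push_cast at hWd ⊢
        calc _ ≤ _ := hWd
          _ = _ := by ring
      exact_mod_cast f3
    have hWbc : 2 * Wb.card ≤ W.card := by
      have e1 : ∑ x ∈ Wb, W.card ≤ ∑ x ∈ Wb, (nb χ c x W).card * 2 ^ (J + 2) :=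
        Finset.sum_le_sum (fun y hy => (not_le.mp (Finset.mem_filter.mp hy).2).le)
      have e2 : ∑ x ∈ Wb, (nb χ c x W).card * 2 ^ (J + 2)
          ≤ ∑ x ∈ W, (nb χ c x W).card * 2 ^ (J + 2) :=
        Finset.sum_le_sum_of_subset (Finset.filter_subset _ _)
      rw [Finset.sum_const, smul_eq_mul] at e1
      rw [← Finset.sum_mul, ← Finset.sum_mul] at e2
      rw [← Finset.sum_mul] at e1
      have e3 : 2 ^ (J + 3) = 2 ^ (J + 2) * 2 := by rw [pow_succ]
      rw [e3] at hd
      have e4 : W.card * (2 * Wb.card) ≤ W.card * W.card := by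
        calc W.card * (2 * Wb.card) = 2 * (Wb.card * W.card) := by ring
          _ ≤ 2 * ((∑ x ∈ W, (nb χ c x W).card) * 2 ^ (J + 2)) := by
              exact Nat.mul_le_mul_left _ (le_trans e1 e2)
          _ = (∑ x ∈ W, (nb χ c x W).card) * (2 ^ (J + 2) * 2) := by ring
          _ ≤ _ := hd
      exact Nat.le_of_mul_le_mul_left e4 hWpos
    have hW'c : W.card ≤ 2 * W'.card := by
      have := Finset.card_filter_add_card_filter_not (s := W)
        (fun x => (nb χ c x W).card * 2 ^ (J + 2) ≤ W.card)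
      rw [← hW', ← hWb] at this
      omega
    refine ⟨W', (Finset.filter_subset _ _).trans hWU, ?_, Or.inr ?_⟩
    · have g1 : M0 ≤ W'.card := by
        have : 2 * M0 ≤ W.card := by
          rw [hWc]
          refine Nat.mul_le_mul_right _ ?_
          calc 2 = 2 ^ 1 := by norm_num
            _ ≤ 2 ^ (J + 4) := Nat.pow_le_pow_right (by norm_num) (by omega)
        omega
      exact le_trans h4 (Nat.mul_le_mul_right _ g1)
    · intro x hx
      rw [Bool.not_not]
      have g1 := (Finset.mem_filter.mp hx).2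
      have g2 : (nb χ c x W').card ≤ (nb χ c x W).card :=
        Finset.card_le_card (Finset.filter_subset_filter _ (Finset.filter_subset _ _))
      have g3 : 2 ^ (J + 2) = 2 ^ (J + 1) * 2 := by rw [pow_succ]
      rw [g3] at g1
      have g4 : (nb χ c x W').card * 2 ^ (J + 1) ≤ (nb χ c x W).card * 2 ^ (J + 1) :=
        Nat.mul_le_mul_right _ g2
      have g5 : (nb χ c x W).card * (2 ^ (J + 1) * 2) = 2 * ((nb χ c x W).card * 2 ^ (J + 1)) := by
        ring
      rw [g5] at g1
      omega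

/-- `kap J th` : logarithmic loss in the two-colour dichotomy -/
def kap1 (J th : ℕ) : ℕ := (th + 2) * (J + 4) + 1
def kap (J th : ℕ) : ℕ := kap1 J th + kap1 J (th + kap1 J th)

/-- two-colour dichotomy -/
lemma dich2 (χ : V → V → Bool) (hχ : ∀ x y, χ x y = χ y x) (J : ℕ) (th : ℕ)
    (U : Finset V) (hU : 2 ^ (kap J th) ≤ U.card) :
    ∃ W ⊆ U, U.card ≤ W.card * 2 ^ (kap J th) ∧
      ((∀ c, BD χ (J + 5) c W th) ∨ ∃ c, NC χ J c W) := by
  obtain ⟨W1, hW1U, hW1c, hW1⟩ := dich1 χ hχ J true (th + kap1 J th) U (by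
    refine le_trans (Nat.pow_le_pow_right (by norm_num) ?_) hU
    unfold kap
    have : kap1 J (th + kap1 J th) = (th + kap1 J th + 2) * (J + 4) + 1 := rfl
    omega)
  have e1 : (th + kap1 J th + 2) * (J + 4) + 1 = kap1 J (th + kap1 J th) := rfl
  rw [e1] at hW1c
  have e2 : 2 ^ (kap J th) = 2 ^ (kap1 J th) * 2 ^ (kap1 J (th + kap1 J th)) := by
    unfold kap; rw [pow_add]
  rcases hW1 with hBD1 | hNC
  · have h3 : 2 ^ (kap1 J th) ≤ W1.card := by
      have : 2 ^ (kap1 J th) * 2 ^ (kap1 J (th + kap1 J th))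
          ≤ W1.card * 2 ^ (kap1 J (th + kap1 J th)) := by
        rw [← e2]; exact le_trans hU hW1c
      exact Nat.le_of_mul_le_mul_right this (by positivity)
    obtain ⟨W2, hW2W, hW2c, hW2⟩ := dich1 χ hχ J false th W1 (by
      refine le_trans (Nat.pow_le_pow_right (by norm_num) ?_) h3
      unfold kap1; omega)
    have e3 : (th + 2) * (J + 4) + 1 = kap1 J th := rfl
    rw [e3] at hW2c
    refine ⟨W2, hW2W.trans hW1U, ?_, ?_⟩
    · rw [e2, ← mul_assoc]
      exact le_trans hW1c (Nat.mul_le_mul_right _ hW2c)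
    · rcases hW2 with hBD2 | hNC2
      · left
        intro c
        cases c with
        | false => exact hBD2
        | true =>
          intro Y hY hYc
          have h4 : W1.card ≤ Y.card * 2 ^ (th + kap1 J th) := by
            calc W1.card ≤ W2.card * 2 ^ (kap1 J th) := hW2c
              _ ≤ (Y.card * 2 ^ th) * 2 ^ (kap1 J th) := Nat.mul_le_mul_right _ hYc
              _ = _ := by rw [pow_add]; ring
          have h5 := hBD1 Y (hY.trans hW2W) h4
          have h6 : (W2.filter (fun x => (nb χ true x Y).card * 2 ^ (J + 5) < Y.card)).card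
              ≤ (W1.filter (fun x => (nb χ true x Y).card * 2 ^ (J + 5) < Y.card)).card :=
            Finset.card_le_card (Finset.filter_subset_filter _ hW2W)
          have h7 : (W2.filter (fun x => (nb χ true x Y).card * 2 ^ (J + 5) < Y.card)).card
              * 2 ^ th * 2 ^ (kap1 J th) < W2.card * 2 ^ (kap1 J th) := by
            calc _ = (W2.filter (fun x => (nb χ true x Y).card * 2 ^ (J + 5) < Y.card)).card
                  * 2 ^ (th + kap1 J th) := by rw [pow_add]; ring
              _ ≤ (W1.filter (fun x => (nb χ true x Y).card * 2 ^ (J + 5) < Y.card)).card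
                  * 2 ^ (th + kap1 J th) := Nat.mul_le_mul_right _ h6
              _ < W1.card := h5
              _ ≤ W2.card * 2 ^ (kap1 J th) := hW2c
          exact lt_of_mul_lt_mul_right h7 (Nat.zero_le _)
      · right
        exact ⟨true, hNC2⟩
  · refine ⟨W1, hW1U, ?_, Or.inr ⟨false, hNC⟩⟩
    rw [e2]
    calc U.card ≤ W1.card * 2 ^ (kap1 J (th + kap1 J th)) := hW1c
      _ ≤ W1.card * (2 ^ (kap1 J th) * 2 ^ (kap1 J (th + kap1 J th))) := by
          refine Nat.mul_le_mul_left _ ?_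
          calc _ = 1 * 2 ^ (kap1 J (th + kap1 J th)) := (one_mul _).symm
            _ ≤ _ := Nat.mul_le_mul_right _ Nat.one_le_two_pow

attribute [irreducible] kap kap1

end

end Pool.Agent.Fox
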