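import Mathlib
import Pool.Agent.Fox.Dich

set_option autoImplicit false

open Finset
open scoped BigOperators Classical

namespace Pool.Agent.Fox

noncomputable section

def qv (J : ℕ) : ℕ := 66 * (J + 5) ^ 4
def hh (J i : ℕ) : ℕ := 2 ^ i * qv J
def th (J i : ℕ) : ℕ := 4 * hh J i
def kk (J i : ℕ) : ℕ := 4 * hh J i
def aa (J : ℕ) : ℕ → ℕ
  | 0 => kap J (th J 0) + 3
  | (i + 1) => 2 * (aa J i + 1 + 2 * kk J i * (J + 5)) + kap J (th J (i + 1)) + 3
/-- exponent for the mass of `UU` -/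
def uu (J : ℕ) : ℕ → ℕ
  | 0 => 0
  | (i + 1) => 2 * (aa J i + 1 + 2 * kk J i * (J + 5))

lemma aa_eq (J i : ℕ) : aa J i = uu J i + kap J (th J i) + 3 := by
  cases i with
  | zero => simp [aa, uu]
  | succ i => rfl

lemma qv_pos (J : ℕ) : 0 < qv J := by unfold qv; positivity
lemma kk_pos (J i : ℕ) : 0 < kk J i := by
  unfold kk hh; have := qv_pos J; positivity
lemma th_ge (J i : ℕ) : 2 ≤ th J i := by
  have : 0 < hh J i := by unfold hh; have := qv_pos J; positivity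
  unfold th; omega

def Node (V : Type) (J : ℕ) : ℕ → Type
  | 0 => Unit
  | (i + 1) => Bool → (Node V J i × (Bool × Fin (kk J i) → V))

instance nodeFintype (V : Type) [Fintype V] (J : ℕ) : ∀ i, Fintype (Node V J i)
  | 0 => (inferInstance : Fintype Unit)
  | (i + 1) => by
      haveI := nodeFintype V J i
      exact (inferInstance : Fintype (Bool → (Node V J i × (Bool × Fin (kk J i) → V))))

variable {V : Type} [Fintype V]

/-- chosen bi-dense subset -/
def bdf (χ : V → V → Bool) (J i : ℕ) (S : Finset V) : Finset V :=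
  if h : ∃ W ⊆ S, S.card ≤ W.card * 2 ^ (kap J (th J i)) ∧
      Fintype.card V ≤ W.card * 2 ^ (aa J i) ∧ ∀ c, BD χ (J + 5) c W (th J i)
  then h.choose else ∅

/-- chosen near-complete subset -/
def ncf (χ : V → V → Bool) (J i : ℕ) (c : Bool) (S : Finset V) : Finset V :=
  if h : ∃ W ⊆ S, S.card ≤ W.card * 2 ^ (kap J (th J i)) ∧
      Fintype.card V ≤ W.card * 2 ^ (aa J i) ∧ NC χ J c W
  then h.choose else ∅

lemma bdf_sub (χ : V → V → Bool) (J i : ℕ) (S : Finset V) : bdf χ J i S ⊆ S := by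
  unfold bdf
  split_ifs with h
  · exact h.choose_spec.1
  · exact Finset.empty_subset _

lemma ncf_sub (χ : V → V → Bool) (J i : ℕ) (c : Bool) (S : Finset V) : ncf χ J i c S ⊆ S := by
  unfold ncf
  split_ifs with h
  · exact h.choose_spec.1
  · exact Finset.empty_subset _

lemma bdf_spec (χ : V → V → Bool) (J i : ℕ) (S : Finset V) (h : (bdf χ J i S).Nonempty) :
    Fintype.card V ≤ (bdf χ J i S).card * 2 ^ (aa J i) ∧
      ∀ c, BD χ (J + 5) c (bdf χ J i S) (th J i) := by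
  unfold bdf at h ⊢
  split_ifs with h'
  · exact h'.choose_spec.2.2
  · rw [dif_neg h'] at h; exact absurd h Finset.not_nonempty_empty

lemma ncf_spec (χ : V → V → Bool) (J i : ℕ) (c : Bool) (S : Finset V)
    (h : (ncf χ J i c S).Nonempty) :
    Fintype.card V ≤ (ncf χ J i c S).card * 2 ^ (aa J i) ∧ NC χ J c (ncf χ J i c S) := by
  unfold ncf at h ⊢
  split_ifs with h'
  · exact h'.choose_spec.2.2
  · rw [dif_neg h'] at h; exact absurd h Finset.not_nonempty_empty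

lemma big_choice (χ : V → V → Bool) (hχ : ∀ x y, χ x y = χ y x) (J i : ℕ)
    (hN : 2 ^ (aa J i) ≤ Fintype.card V) (S : Finset V)
    (hS : Fintype.card V ≤ S.card * 2 ^ (uu J i + 3)) :
    S.card ≤ ((bdf χ J i S).card + (ncf χ J i true S).card + (ncf χ J i false S).card)
      * 2 ^ (kap J (th J i)) := by
  have h1 : 2 ^ (kap J (th J i)) ≤ S.card := by
    have : 2 ^ (kap J (th J i)) * 2 ^ (uu J i + 3) ≤ S.card * 2 ^ (uu J i + 3) := by
      rw [← pow_add]
      refine le_trans (le_of_eq ?_) (le_trans hN hS)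
      congr 1
      rw [aa_eq]; ring
    exact Nat.le_of_mul_le_mul_right this (by positivity)
  obtain ⟨W, hWS, hWc, hW⟩ := dich2 χ hχ J (th J i) S h1
  have h2 : Fintype.card V ≤ W.card * 2 ^ (aa J i) := by
    calc Fintype.card V ≤ S.card * 2 ^ (uu J i + 3) := hS
      _ ≤ (W.card * 2 ^ (kap J (th J i))) * 2 ^ (uu J i + 3) := Nat.mul_le_mul_right _ hWc
      _ = W.card * 2 ^ (aa J i) := by
          rw [mul_assoc, ← pow_add]
          congr 2
          rw [aa_eq]; ring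
  rcases hW with hBD | ⟨c, hNC⟩
  · have h3 : ∃ W ⊆ S, S.card ≤ W.card * 2 ^ (kap J (th J i)) ∧
      Fintype.card V ≤ W.card * 2 ^ (aa J i) ∧ ∀ c, BD χ (J + 5) c W (th J i) :=
      ⟨W, hWS, hWc, h2, hBD⟩
    have h4 : S.card ≤ (bdf χ J i S).card * 2 ^ (kap J (th J i)) := by
      unfold bdf
      rw [dif_pos h3]
      exact h3.choose_spec.2.1
    refine le_trans h4 (Nat.mul_le_mul_right _ (by omega))
  · have h3 : ∃ W ⊆ S, S.card ≤ W.card * 2 ^ (kap J (th J i)) ∧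
      Fintype.card V ≤ W.card * 2 ^ (aa J i) ∧ NC χ J c W :=
      ⟨W, hWS, hWc, h2, hNC⟩
    have h4 : S.card ≤ (ncf χ J i c S).card * 2 ^ (kap J (th J i)) := by
      unfold ncf
      rw [dif_pos h3]
      exact h3.choose_spec.2.1
    refine le_trans h4 (Nat.mul_le_mul_right _ ?_)
    cases c <;> omega

/-- the sets `U_i(τ)` -/
def UU (χ : V → V → Bool) (J : ℕ) : ∀ i, Node V J i → Finset V
  | 0, _ => univ
  | (i + 1), τ => univ.filter (fun x => ∀ l : Bool, x ∈ bdf χ J i (UU χ J i (τ l).1) ∧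
      ∀ p : Bool × Fin (kk J i), χ x ((τ l).2 p) = p.1)

/-- the hosts `W_i(τ)` -/
def WW (χ : V → V → Bool) (J i : ℕ) (τ : Node V J i) : Finset V := bdf χ J i (UU χ J i τ)

/-- conditional reference weight -/
def qq (χ : V → V → Bool) (J i : ℕ) (τ : Node V J i) (T : Bool × Fin (kk J i) → V) : ℝ :=
  ∏ p : Bool × Fin (kk J i), if T p ∈ WW χ J i τ then ((WW χ J i τ).card : ℝ)⁻¹ else 0

/-- reference weights -/
def PI (χ : V → V → Bool) (J : ℕ) : ∀ i, Node V J i → ℝ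
  | 0, _ => 1
  | (i + 1), τ => ∏ l : Bool, (PI χ J i (τ l).1 * qq χ J i (τ l).1 (τ l).2)

lemma sum_prod_pi {ι W : Type*} [Fintype ι] [DecidableEq ι] [Fintype W] (f : ι → W → ℝ) :
    ∑ T : ι → W, ∏ p, f p (T p) = ∏ p, ∑ y, f p y := by
  rw [Finset.prod_univ_sum, Fintype.piFinset_univ]

attribute [irreducible] qv bdf ncf

variable (χ : V → V → Bool) (J : ℕ)

lemma qq_nonneg (i : ℕ) (τ : Node V J i) (T : Bool × Fin (kk J i) → V) : 0 ≤ qq χ J i τ T := by
  unfold qq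
  refine Finset.prod_nonneg (fun p _ => ?_)
  split_ifs <;> positivity

lemma sum_unif_le (W : Finset V) : ∑ y, (if y ∈ W then ((W.card : ℝ))⁻¹ else 0) ≤ 1 := by
  rw [Finset.sum_ite_mem, Finset.univ_inter, Finset.sum_const, nsmul_eq_mul]
  rcases Nat.eq_zero_or_pos W.card with h | h
  · simp [h]
  · rw [mul_inv_cancel₀]; exact_mod_cast h.ne'

lemma sum_unif_nonneg (W : Finset V) : 0 ≤ ∑ y, (if y ∈ W then ((W.card : ℝ))⁻¹ else 0) :=
  Finset.sum_nonneg (fun y _ => by split_ifs <;> positivity)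

lemma sum_qq_le (i : ℕ) (τ : Node V J i) : ∑ T, qq χ J i τ T ≤ 1 := by
  unfold qq
  rw [sum_prod_pi (fun (_ : Bool × Fin (kk J i)) (y : V) =>
    if y ∈ WW χ J i τ then ((WW χ J i τ).card : ℝ)⁻¹ else 0)]
  exact Finset.prod_le_one (fun _ _ => sum_unif_nonneg _) (fun _ _ => sum_unif_le _)

lemma PI_nonneg : ∀ i (τ : Node V J i), 0 ≤ PI χ J i τ
  | 0, _ => by unfold PI; norm_num
  | (i + 1), τ => by
      unfold PI
      exact Finset.prod_nonneg (fun l _ => mul_nonneg (PI_nonneg i _) (qq_nonneg χ J i _ _))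

lemma sum_PI_qq (i : ℕ) (f : Node V J i → ℝ) (g : Node V J i → (Bool × Fin (kk J i) → V) → ℝ) :
    ∑ z : Node V J i × (Bool × Fin (kk J i) → V), f z.1 * g z.1 z.2
      = ∑ τ, f τ * ∑ T, g τ T := by
  rw [Fintype.sum_prod_type]
  refine Finset.sum_congr rfl (fun τ _ => by rw [Finset.mul_sum])

lemma sum_PI_le : ∀ i, ∑ τ : Node V J i, PI χ J i τ ≤ 1
  | 0 => by
      have : ∑ τ : Node V J 0, PI χ J 0 τ = ∑ τ : Unit, (1 : ℝ) := rfl
      rw [this]; simp
  | (i + 1) => by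
      have h1 : ∑ τ : Node V J (i + 1), PI χ J (i + 1) τ
          = ∑ τ : Bool → (Node V J i × (Bool × Fin (kk J i) → V)),
              ∏ l : Bool, (PI χ J i (τ l).1 * qq χ J i (τ l).1 (τ l).2) := rfl
      rw [h1, sum_prod_pi (fun (_ : Bool) (z : Node V J i × (Bool × Fin (kk J i) → V)) =>
        PI χ J i z.1 * qq χ J i z.1 z.2)]
      refine Finset.prod_le_one (fun _ _ => Finset.sum_nonneg (fun z _ =>
        mul_nonneg (PI_nonneg χ J i _) (qq_nonneg χ J i _ _))) (fun _ _ => ?_)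
      rw [sum_PI_qq J i (fun τ => PI χ J i τ) (fun τ T => qq χ J i τ T)]
      calc ∑ τ, PI χ J i τ * ∑ T, qq χ J i τ T ≤ ∑ τ, PI χ J i τ * 1 :=
            Finset.sum_le_sum (fun τ _ =>
              mul_le_mul_of_nonneg_left (sum_qq_le χ J i τ) (PI_nonneg χ J i τ))
        _ = ∑ τ, PI χ J i τ := by simp
        _ ≤ 1 := sum_PI_le i

/-- the second-level weights used in the Cauchy–Schwarz step -/
def gg (i : ℕ) (x : V) : ℝ :=
  ∑ z : Node V J i × (Bool × Fin (kk J i) → V), PI χ J i z.1 * (qq χ J i z.1 z.2 *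
    (if x ∈ WW χ J i z.1 ∧ ∀ p, χ x (z.2 p) = p.1 then 1 else 0))

lemma mU_succ (i : ℕ) :
    ∑ τ : Node V J (i + 1), PI χ J (i + 1) τ * ((UU χ J (i + 1) τ).card : ℝ)
      = ∑ x : V, (gg χ J i x) ^ 2 := by
  have h1 : ∀ τ : Node V J (i + 1), PI χ J (i + 1) τ * ((UU χ J (i + 1) τ).card : ℝ)
      = ∑ x : V, ∏ l : Bool, (PI χ J i (τ l).1 * (qq χ J i (τ l).1 (τ l).2 *
        (if x ∈ WW χ J i (τ l).1 ∧ ∀ p, χ x ((τ l).2 p) = p.1 then (1 : ℝ) else 0))) := by
    intro τ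
    have h2 : ((UU χ J (i + 1) τ).card : ℝ)
        = ∑ x : V, ∏ l : Bool,
          (if x ∈ WW χ J i (τ l).1 ∧ ∀ p, χ x ((τ l).2 p) = p.1 then (1 : ℝ) else 0) := by
      rw [Finset.card_eq_sum_ones, UU, Finset.sum_filter]
      push_cast
      refine Finset.sum_congr rfl (fun x _ => ?_)
      rw [Finset.prod_ite_zero]
      simp [WW]
    rw [h2, Finset.mul_sum]
    refine Finset.sum_congr rfl (fun x _ => ?_)
    have h3 : PI χ J (i + 1) τ = ∏ l : Bool, (PI χ J i (τ l).1 * qq χ J i (τ l).1 (τ l).2) := rfl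
    rw [h3, ← Finset.prod_mul_distrib]
    refine Finset.prod_congr rfl (fun l _ => by ring)
  rw [Finset.sum_congr rfl (fun τ _ => h1 τ), Finset.sum_comm]
  refine Finset.sum_congr rfl (fun x _ => ?_)
  have h4 := sum_prod_pi (fun (_ : Bool) (z : Node V J i × (Bool × Fin (kk J i) → V)) =>
        PI χ J i z.1 * (qq χ J i z.1 z.2 *
        (if x ∈ WW χ J i z.1 ∧ ∀ p, χ x (z.2 p) = p.1 then (1 : ℝ) else 0)))
  have h5 : ∑ τ : Node V J (i + 1), ∏ l : Bool, (PI χ J i (τ l).1 * (qq χ J i (τ l).1 (τ l).2 *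
        (if x ∈ WW χ J i (τ l).1 ∧ ∀ p, χ x ((τ l).2 p) = p.1 then (1 : ℝ) else 0)))
      = ∑ T : Bool → Node V J i × (Bool × Fin (kk J i) → V), ∏ p : Bool,
        (PI χ J i (T p).1 * (qq χ J i (T p).1 (T p).2 *
        (if x ∈ WW χ J i (T p).1 ∧ ∀ p_1, χ x ((T p).2 p_1) = p_1.1 then (1 : ℝ) else 0))) := rfl
  rw [h5, h4]
  simp only [Finset.prod_const, Finset.card_univ, Fintype.card_bool]
  rfl

/-- value of the inner sum -/
lemma inner_T (i : ℕ) (τ : Node V J i) (x : V) :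
    ∑ T, qq χ J i τ T * (if x ∈ WW χ J i τ ∧ ∀ p, χ x (T p) = p.1 then (1 : ℝ) else 0)
      = (if x ∈ WW χ J i τ then (∏ c : Bool,
          (((nb χ c x (WW χ J i τ)).card : ℝ) * ((WW χ J i τ).card : ℝ)⁻¹) ^ (kk J i)) else 0) := by
  by_cases hx : x ∈ WW χ J i τ
  · simp only [hx, true_and, if_true]
    have h1 : ∀ T : Bool × Fin (kk J i) → V,
        qq χ J i τ T * (if ∀ p, χ x (T p) = p.1 then (1 : ℝ) else 0)
        = ∏ p : Bool × Fin (kk J i), ((if T p ∈ WW χ J i τ then ((WW χ J i τ).card : ℝ)⁻¹ else 0)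
          * (if χ x (T p) = p.1 then (1 : ℝ) else 0)) := by
      intro T
      rw [Finset.prod_mul_distrib, Finset.prod_ite_zero (p := fun p : Bool × Fin (kk J i) =>
        χ x (T p) = p.1)]
      simp only [Finset.prod_const_one, Finset.mem_univ, true_implies]
      rfl
    rw [Finset.sum_congr rfl (fun T _ => h1 T)]
    rw [sum_prod_pi (fun (p : Bool × Fin (kk J i)) (y : V) =>
      ((if y ∈ WW χ J i τ then ((WW χ J i τ).card : ℝ)⁻¹ else 0)
          * (if χ x y = p.1 then (1 : ℝ) else 0)))]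
    rw [Fintype.prod_prod_type]
    refine Finset.prod_congr rfl (fun c _ => ?_)
    have h2 : ∀ t : Fin (kk J i), ∑ y : V, ((if y ∈ WW χ J i τ then ((WW χ J i τ).card : ℝ)⁻¹ else 0)
          * (if χ x y = ((c, t) : Bool × Fin (kk J i)).1 then (1 : ℝ) else 0))
        = ((nb χ c x (WW χ J i τ)).card : ℝ) * ((WW χ J i τ).card : ℝ)⁻¹ := by
      intro t
      have h3 : ∀ y : V, ((if y ∈ WW χ J i τ then ((WW χ J i τ).card : ℝ)⁻¹ else 0)
          * (if χ x y = ((c, t) : Bool × Fin (kk J i)).1 then (1 : ℝ) else 0))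
        = if y ∈ nb χ c x (WW χ J i τ) then ((WW χ J i τ).card : ℝ)⁻¹ else 0 := by
        intro y
        unfold nb
        simp only [Finset.mem_filter]
        by_cases hy : y ∈ WW χ J i τ <;> by_cases hy2 : χ x y = c <;> simp [hy, hy2]
      rw [Finset.sum_congr rfl (fun y _ => h3 y), Finset.sum_ite_mem, Finset.univ_inter,
        Finset.sum_const, nsmul_eq_mul]
    rw [Finset.prod_congr rfl (fun t _ => h2 t), Finset.prod_const, Finset.card_univ,
      Fintype.card_fin]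
  · simp [hx]

lemma sum_gg_ge (i : ℕ) :
    (1/2 : ℝ) ^ (1 + 2 * kk J i * (J + 5)) * ∑ τ : Node V J i, PI χ J i τ * ((WW χ J i τ).card : ℝ)
      ≤ ∑ x : V, gg χ J i x := by
  have h1 : ∑ x : V, gg χ J i x = ∑ τ : Node V J i, PI χ J i τ *
      ∑ x ∈ WW χ J i τ, (∏ c : Bool,
          (((nb χ c x (WW χ J i τ)).card : ℝ) * ((WW χ J i τ).card : ℝ)⁻¹) ^ (kk J i)) := by
    have h2 : ∀ x : V, gg χ J i x = ∑ τ : Node V J i, PI χ J i τ *
        (if x ∈ WW χ J i τ then (∏ c : Bool,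
          (((nb χ c x (WW χ J i τ)).card : ℝ) * ((WW χ J i τ).card : ℝ)⁻¹) ^ (kk J i)) else 0) := by
      intro x
      unfold gg
      rw [sum_PI_qq J i (fun τ => PI χ J i τ) (fun τ T => qq χ J i τ T *
        (if x ∈ WW χ J i τ ∧ ∀ p, χ x (T p) = p.1 then (1 : ℝ) else 0))]
      refine Finset.sum_congr rfl (fun τ _ => ?_)
      rw [inner_T]
    rw [Finset.sum_congr rfl (fun x _ => h2 x), Finset.sum_comm]
    refine Finset.sum_congr rfl (fun τ _ => ?_)
    rw [← Finset.mul_sum, Finset.sum_ite_mem, Finset.univ_inter]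
  rw [h1, Finset.mul_sum]
  refine Finset.sum_le_sum (fun τ _ => ?_)
  rw [mul_left_comm]
  refine mul_le_mul_of_nonneg_left ?_ (PI_nonneg χ J i τ)
  rcases Finset.eq_empty_or_nonempty (WW χ J i τ) with hW | hW
  · simp [hW]
  set W := WW χ J i τ with hWdef
  obtain ⟨_, hBD⟩ := bdf_spec χ J i (UU χ J i τ) hW
  change ∀ c, BD χ (J + 5) c W (th J i) at hBD
  have hWc : 0 < W.card := hW.card_pos
  set bad : Bool → Finset V := fun c =>
    W.filter (fun x => (nb χ c x W).card * 2 ^ (J + 5) < W.card) with hbad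
  have hbc : ∀ c, 4 * (bad c).card ≤ W.card := by
    intro c
    have h3 := hBD c W (Finset.Subset.refl _) (Nat.le_mul_of_pos_right _ (by positivity))
    have h4 : 4 ≤ 2 ^ (th J i) := by
      calc 4 = 2 ^ 2 := by norm_num
        _ ≤ 2 ^ (th J i) := Nat.pow_le_pow_right (by norm_num) (th_ge J i)
    have h5 : (bad c).card * 4 ≤ (bad c).card * 2 ^ (th J i) := Nat.mul_le_mul_left _ h4
    have h6 : (bad c).card * 2 ^ (th J i) < W.card := h3
    omega
  set good : Finset V := W \ (bad true ∪ bad false) with hgood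
  have hgc : W.card ≤ 2 * good.card := by
    have h3 := Finset.le_card_sdiff (bad true ∪ bad false) W
    have h4 := Finset.card_union_le (bad true) (bad false)
    have h5 := hbc true
    have h6 := hbc false
    rw [← hgood] at h3
    omega
  have hterm : ∀ x ∈ good, ((1/2 : ℝ) ^ (J + 5)) ^ (kk J i) * ((1/2 : ℝ) ^ (J + 5)) ^ (kk J i)
      ≤ ∏ c : Bool, (((nb χ c x W).card : ℝ) * (W.card : ℝ)⁻¹) ^ (kk J i) := by
    intro x hx
    rw [hgood, Finset.mem_sdiff, Finset.mem_union, not_or] at hx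
    rw [Fintype.prod_bool]
    have h3 : ∀ c, x ∉ bad c → (1/2 : ℝ) ^ (J + 5) ≤ ((nb χ c x W).card : ℝ) * (W.card : ℝ)⁻¹ := by
      intro c hc
      have h4 : W.card ≤ (nb χ c x W).card * 2 ^ (J + 5) := by
        by_contra h5
        exact hc (Finset.mem_filter.mpr ⟨hx.1, not_le.mp h5⟩)
      have h5 : (W.card : ℝ) ≤ (nb χ c x W).card * 2 ^ (J + 5) := by exact_mod_cast h4
      have h6 : (0 : ℝ) < W.card := by exact_mod_cast hWc
      rw [one_div, inv_pow, ← div_eq_mul_inv, le_div_iff₀ h6, inv_mul_le_iff₀ (by positivity)]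
      linarith
    exact mul_le_mul (pow_le_pow_left₀ (by positivity) (h3 true hx.2.1) _)
      (pow_le_pow_left₀ (by positivity) (h3 false hx.2.2) _) (by positivity) (by positivity)
  calc (1/2 : ℝ) ^ (1 + 2 * kk J i * (J + 5)) * (W.card : ℝ)
      ≤ (good.card : ℝ) * (((1/2 : ℝ) ^ (J + 5)) ^ (kk J i) * ((1/2 : ℝ) ^ (J + 5)) ^ (kk J i)) := by
        have h3 : (W.card : ℝ) ≤ 2 * good.card := by exact_mod_cast hgc
        have h4 : ((1/2 : ℝ) ^ (J + 5)) ^ (kk J i) * ((1/2 : ℝ) ^ (J + 5)) ^ (kk J i)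
            = (1/2 : ℝ) ^ (2 * kk J i * (J + 5)) := by
          rw [← pow_mul, ← pow_add]; congr 1; ring
        rw [h4, pow_add, pow_one]
        have h5 : (0 : ℝ) < (1/2 : ℝ) ^ (2 * kk J i * (J + 5)) := by positivity
        nlinarith [mul_le_mul_of_nonneg_left h3 h5.le]
    _ = ∑ x ∈ good, (((1/2 : ℝ) ^ (J + 5)) ^ (kk J i) * ((1/2 : ℝ) ^ (J + 5)) ^ (kk J i)) := by
        rw [Finset.sum_const, nsmul_eq_mul]
    _ ≤ ∑ x ∈ good, ∏ c : Bool, (((nb χ c x W).card : ℝ) * (W.card : ℝ)⁻¹) ^ (kk J i) :=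
        Finset.sum_le_sum hterm
    _ ≤ ∑ x ∈ W, ∏ c : Bool, (((nb χ c x W).card : ℝ) * (W.card : ℝ)⁻¹) ^ (kk J i) := by
        refine Finset.sum_le_sum_of_subset_of_nonneg Finset.sdiff_subset (fun x _ _ => ?_)
        exact Finset.prod_nonneg (fun c _ => by positivity)

/-- mass recursion -/
lemma mass_succ (i : ℕ) (hVpos : 0 < Fintype.card V)
    (h : (1/2 : ℝ) ^ (aa J i) * Fintype.card V
      ≤ ∑ τ : Node V J i, PI χ J i τ * ((WW χ J i τ).card : ℝ)) :
    (1/2 : ℝ) ^ (uu J (i + 1)) * Fintype.card V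
      ≤ ∑ τ : Node V J (i + 1), PI χ J (i + 1) τ * ((UU χ J (i + 1) τ).card : ℝ) := by
  rw [mU_succ]
  have h1 := sum_gg_ge χ J i
  have h2 : (∑ x : V, gg χ J i x) ^ 2 ≤ (Fintype.card V : ℝ) * ∑ x : V, (gg χ J i x) ^ 2 := by
    have := sq_sum_le_card_mul_sum_sq (s := (univ : Finset V)) (f := fun x => gg χ J i x)
    simpa using this
  set N : ℝ := (Fintype.card V : ℝ) with hN
  have hNp : 0 < N := by rw [hN]; exact_mod_cast hVpos
  have h3 : (1/2 : ℝ) ^ (1 + 2 * kk J i * (J + 5)) * ((1/2 : ℝ) ^ (aa J i) * N)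
      ≤ ∑ x : V, gg χ J i x :=
    le_trans (mul_le_mul_of_nonneg_left h (by positivity)) h1
  have h4 : ((1/2 : ℝ) ^ (1 + 2 * kk J i * (J + 5)) * ((1/2 : ℝ) ^ (aa J i) * N)) ^ 2
      ≤ (∑ x : V, gg χ J i x) ^ 2 := pow_le_pow_left₀ (by positivity) h3 2
  have h5 : ((1/2 : ℝ) ^ (1 + 2 * kk J i * (J + 5)) * ((1/2 : ℝ) ^ (aa J i) * N)) ^ 2
      = N * ((1/2 : ℝ) ^ (uu J (i + 1)) * N) := by
    have h6 : (1/2 : ℝ) ^ (uu J (i + 1))
        = ((1/2 : ℝ) ^ (1 + 2 * kk J i * (J + 5)) * (1/2 : ℝ) ^ (aa J i)) ^ 2 := by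
      rw [← pow_add, ← pow_mul]
      congr 1
      change 2 * (aa J i + 1 + 2 * kk J i * (J + 5)) = _
      ring
    rw [h6]; ring
  rw [h5] at h4
  have h7 := le_trans h4 h2
  exact le_of_mul_le_mul_left h7 hNp

lemma mass_zero : (1/2 : ℝ) ^ (uu J 0) * Fintype.card V
      ≤ ∑ τ : Node V J 0, PI χ J 0 τ * ((UU χ J 0 τ).card : ℝ) := by
  have : ∑ τ : Node V J 0, PI χ J 0 τ * ((UU χ J 0 τ).card : ℝ)
      = ∑ τ : Unit, (1 : ℝ) * ((univ : Finset V).card : ℝ) := rfl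
  rw [this]
  simp [uu]

/-- one of the three types has a large mass -/
lemma mass_type (hχ : ∀ x y, χ x y = χ y x) (i : ℕ) (hN : 2 ^ (aa J i) ≤ Fintype.card V)
    (h : (1/2 : ℝ) ^ (uu J i) * Fintype.card V
      ≤ ∑ τ : Node V J i, PI χ J i τ * ((UU χ J i τ).card : ℝ)) :
    ((1/2 : ℝ) ^ (aa J i) * Fintype.card V
      ≤ ∑ τ : Node V J i, PI χ J i τ * ((WW χ J i τ).card : ℝ)) ∨
    ∃ c, (1/2 : ℝ) ^ (aa J i) * Fintype.card V
      ≤ ∑ τ : Node V J i, PI χ J i τ * ((ncf χ J i c (UU χ J i τ)).card : ℝ) := by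
  set N : ℝ := (Fintype.card V : ℝ) with hNdef
  have hNp : 0 < N := by
    rw [hNdef]; exact_mod_cast lt_of_lt_of_le (by positivity) hN
  have h1 : ∀ τ : Node V J i, ((UU χ J i τ).card : ℝ) ≤
      (((WW χ J i τ).card : ℝ) + ((ncf χ J i true (UU χ J i τ)).card : ℝ)
        + ((ncf χ J i false (UU χ J i τ)).card : ℝ)) * 2 ^ (kap J (th J i))
      + (1/2 : ℝ) ^ (uu J i + 3) * N := by
    intro τ
    by_cases hbig : Fintype.card V ≤ (UU χ J i τ).card * 2 ^ (uu J i + 3)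
    · have h2 := big_choice χ hχ J i hN (UU χ J i τ) hbig
      have h3 : ((UU χ J i τ).card : ℝ) ≤
        (((WW χ J i τ).card : ℝ) + ((ncf χ J i true (UU χ J i τ)).card : ℝ)
        + ((ncf χ J i false (UU χ J i τ)).card : ℝ)) * 2 ^ (kap J (th J i)) := by
        unfold WW
        exact_mod_cast h2
      have h4 : 0 ≤ (1/2 : ℝ) ^ (uu J i + 3) * N := by positivity
      linarith
    · push Not at hbig
      have h2 : ((UU χ J i τ).card : ℝ) * 2 ^ (uu J i + 3) < N := by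
        rw [hNdef]; exact_mod_cast hbig
      have h3 : ((UU χ J i τ).card : ℝ) ≤ (1/2 : ℝ) ^ (uu J i + 3) * N := by
        rw [one_div, inv_pow, inv_mul_eq_div, le_div_iff₀ (by positivity)]
        exact h2.le
      have h4 : 0 ≤ (((WW χ J i τ).card : ℝ) + ((ncf χ J i true (UU χ J i τ)).card : ℝ)
        + ((ncf χ J i false (UU χ J i τ)).card : ℝ)) * 2 ^ (kap J (th J i)) := by positivity
      linarith
  set A := ∑ τ : Node V J i, PI χ J i τ * ((WW χ J i τ).card : ℝ) with hA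
  set B := ∑ τ : Node V J i, PI χ J i τ * ((ncf χ J i true (UU χ J i τ)).card : ℝ) with hB
  set C := ∑ τ : Node V J i, PI χ J i τ * ((ncf χ J i false (UU χ J i τ)).card : ℝ) with hC
  have h2 : ∑ τ : Node V J i, PI χ J i τ * ((UU χ J i τ).card : ℝ)
      ≤ (A + B + C) * 2 ^ (kap J (th J i)) + (1/2 : ℝ) ^ (uu J i + 3) * N := by
    calc ∑ τ : Node V J i, PI χ J i τ * ((UU χ J i τ).card : ℝ)
        ≤ ∑ τ : Node V J i, PI χ J i τ * ((((WW χ J i τ).card : ℝ)
          + ((ncf χ J i true (UU χ J i τ)).card : ℝ)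
        + ((ncf χ J i false (UU χ J i τ)).card : ℝ)) * 2 ^ (kap J (th J i))
      + (1/2 : ℝ) ^ (uu J i + 3) * N) :=
          Finset.sum_le_sum (fun τ _ => mul_le_mul_of_nonneg_left (h1 τ) (PI_nonneg χ J i τ))
      _ = (A + B + C) * 2 ^ (kap J (th J i))
          + (∑ τ : Node V J i, PI χ J i τ) * ((1/2 : ℝ) ^ (uu J i + 3) * N) := by
          rw [hA, hB, hC, ← Finset.sum_add_distrib, ← Finset.sum_add_distrib, Finset.sum_mul,
            Finset.sum_mul, ← Finset.sum_add_distrib]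
          refine Finset.sum_congr rfl (fun τ _ => by ring)
      _ ≤ (A + B + C) * 2 ^ (kap J (th J i)) + 1 * ((1/2 : ℝ) ^ (uu J i + 3) * N) := by
          have := sum_PI_le χ J i
          have h3 : 0 ≤ (1/2 : ℝ) ^ (uu J i + 3) * N := by positivity
          nlinarith [mul_le_mul_of_nonneg_right this h3]
      _ = _ := by ring
  by_contra hcon
  push Not at hcon
  obtain ⟨hc1, hc2⟩ := hcon
  have hc3 := hc2 true
  have hc4 := hc2 false
  have e1 : (1/2 : ℝ) ^ (aa J i) * 2 ^ (kap J (th J i)) = (1/2 : ℝ) ^ (uu J i + 3) := by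
    rw [aa_eq]
    have : uu J i + kap J (th J i) + 3 = (uu J i + 3) + kap J (th J i) := by ring
    rw [this, pow_add, mul_assoc, ← mul_pow]
    norm_num
  have e2 : (A + B + C) * 2 ^ (kap J (th J i))
      ≤ 3 * ((1/2 : ℝ) ^ (uu J i + 3) * N) := by
    have h3 : A + B + C ≤ 3 * ((1/2 : ℝ) ^ (aa J i) * N) := by linarith
    calc (A + B + C) * 2 ^ (kap J (th J i))
        ≤ (3 * ((1/2 : ℝ) ^ (aa J i) * N)) * 2 ^ (kap J (th J i)) :=
          mul_le_mul_of_nonneg_right h3 (by positivity)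
      _ = 3 * (((1/2 : ℝ) ^ (aa J i) * 2 ^ (kap J (th J i))) * N) := by ring
      _ = _ := by rw [e1]
  have e3 : (1/2 : ℝ) ^ (uu J i + 3) = (1/2 : ℝ) ^ (uu J i) / 8 := by
    rw [pow_add]; norm_num; ring
  rw [e3] at e2 h2
  have e4 : 0 < (1/2 : ℝ) ^ (uu J i) * N := by positivity
  linarith

/-- existence of the top host system -/
theorem exists_top (hχ : ∀ x y, χ x y = χ y x) (hN : ∀ i ≤ J, 2 ^ (aa J i) ≤ Fintype.card V) :
    ∃ (i : ℕ) (_ : i ≤ J) (c : Bool) (Wt : Node V J i → Finset V),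
      (∀ τ, Wt τ ⊆ UU χ J i τ) ∧
      (∀ τ, (Wt τ).Nonempty → Fintype.card V ≤ (Wt τ).card * 2 ^ (aa J i) ∧
        (NC χ J c (Wt τ) ∨ (i = J ∧ BD χ (J + 5) c (Wt τ) (th J J)))) ∧
      (1/2 : ℝ) ^ (aa J i) * Fintype.card V
        ≤ ∑ τ : Node V J i, PI χ J i τ * ((Wt τ).card : ℝ) := by
  have hVpos : 0 < Fintype.card V := lt_of_lt_of_le (by positivity) (hN 0 (Nat.zero_le _))
  by_cases hall : ∀ i ≤ J, (1/2 : ℝ) ^ (aa J i) * Fintype.card V
      ≤ ∑ τ : Node V J i, PI χ J i τ * ((WW χ J i τ).card : ℝ)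
  · refine ⟨J, le_rfl, true, WW χ J J, fun τ => bdf_sub χ J J _, ?_, hall J le_rfl⟩
    intro τ hτ
    obtain ⟨h1, h2⟩ := bdf_spec χ J J _ hτ
    exact ⟨h1, Or.inr ⟨rfl, h2 true⟩⟩
  · push Not at hall
    have hex : ∃ i, i ≤ J ∧ ∑ τ : Node V J i, PI χ J i τ * ((WW χ J i τ).card : ℝ)
        < (1/2 : ℝ) ^ (aa J i) * Fintype.card V := by
      obtain ⟨i, hi, h⟩ := hall; exact ⟨i, hi, h⟩
    set i0 := Nat.find hex with hi0
    have hi0s := Nat.find_spec hex
    rw [← hi0] at hi0s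
    have hmin : ∀ j < i0, (1/2 : ℝ) ^ (aa J j) * Fintype.card V
        ≤ ∑ τ : Node V J j, PI χ J j τ * ((WW χ J j τ).card : ℝ) := by
      intro j hj
      have := Nat.find_min hex hj
      push Not at this
      exact this (by omega)
    have hU : (1/2 : ℝ) ^ (uu J i0) * Fintype.card V
        ≤ ∑ τ : Node V J i0, PI χ J i0 τ * ((UU χ J i0 τ).card : ℝ) := by
      rcases Nat.eq_zero_or_pos i0 with h0 | h0
      · rw [h0]; exact mass_zero χ J
      · obtain ⟨j, hj⟩ : ∃ j, i0 = j + 1 := ⟨i0 - 1, by omega⟩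
        rw [hj]
        exact mass_succ χ J j hVpos (hmin j (by omega))
    rcases mass_type χ J hχ i0 (hN i0 hi0s.1) hU with h | ⟨c, hc⟩
    · exact absurd h (not_le.mpr hi0s.2)
    · refine ⟨i0, hi0s.1, c, fun τ => ncf χ J i0 c (UU χ J i0 τ), fun τ => ncf_sub _ _ _ _ _, ?_, hc⟩
      intro τ hτ
      obtain ⟨h1, h2⟩ := ncf_spec χ J i0 c _ hτ
      exact ⟨h1, Or.inl h2⟩

end

end Pool.Agent.Fox
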