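import Mathlib

set_option autoImplicit false

open Finset
open scoped BigOperators Classical

namespace Pool.Agent.Fox

noncomputable section

/-- probability of a value of a random variable -/
def pr {Ω β : Type*} [Fintype Ω] (w : Ω → ℝ) (x : Ω → β) (b : β) : ℝ :=
  ∑ ω, if x ω = b then w ω else 0

/-- conditional relative entropy of `a` given `x` with respect to the reference weights `r` -/
def DD {Ω α β : Type*} [Fintype Ω] (w : Ω → ℝ) (a : Ω → α) (x : Ω → β) (r : α → ℝ) : ℝ :=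
  ∑ ω, w ω * (Real.log (pr w (fun ω => (a ω, x ω)) (a ω, x ω)) - Real.log (pr w x (x ω))
    - Real.log (r (a ω)))

section basic

variable {Ω : Type*} [Fintype Ω] {w : Ω → ℝ}

lemma pr_nonneg {β : Type*} (hw : ∀ ω, 0 < w ω) (x : Ω → β) (b : β) : 0 ≤ pr w x b := by
  unfold pr
  refine Finset.sum_nonneg (fun ω _ => ?_)
  split_ifs
  · exact (hw ω).le
  · exact le_rfl

lemma le_pr {β : Type*} (hw : ∀ ω, 0 < w ω) (x : Ω → β) (ω : Ω) : w ω ≤ pr w x (x ω) := by
  unfold pr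
  have h : (if x ω = x ω then w ω else 0) ≤ ∑ ω', if x ω' = x ω then w ω' else 0 :=
    Finset.single_le_sum (f := fun ω' => if x ω' = x ω then w ω' else 0) (fun ω' _ => by
      by_cases h : x ω' = x ω
      · simp only [h, if_true]; exact (hw ω').le
      · simp only [h, if_false]; exact le_rfl) (Finset.mem_univ ω)
  simpa using h

lemma pr_pos {β : Type*} (hw : ∀ ω, 0 < w ω) (x : Ω → β) (ω : Ω) : 0 < pr w x (x ω) :=
  lt_of_lt_of_le (hw ω) (le_pr hw x ω)

lemma gibbs (hw : ∀ ω, 0 < w ω) (hs : ∑ ω, w ω = 1) (T : Ω → ℝ) (hT : ∀ ω, 0 < T ω)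
    (h : ∑ ω, w ω * T ω ≤ 1) : ∑ ω, w ω * Real.log (T ω) ≤ 0 := by
  have h1 : ∑ ω, w ω * Real.log (T ω) ≤ ∑ ω, w ω * (T ω - 1) := by
    refine Finset.sum_le_sum (fun ω _ => ?_)
    exact mul_le_mul_of_nonneg_left (Real.log_le_sub_one_of_pos (hT ω)) (hw ω).le
  have h2 : ∑ ω, w ω * (T ω - 1) = ∑ ω, w ω * T ω - ∑ ω, w ω := by
    rw [← Finset.sum_sub_distrib]
    refine Finset.sum_congr rfl (fun ω _ => by ring)
  linarith

/-- summing a function of `Y` against `w / P(Y)` is the sum over the range of `Y`. -/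
lemma group_le {γ : Type*} (hw : ∀ ω, 0 < w ω) (Y : Ω → γ) (F : γ → ℝ) (hF : ∀ y, 0 ≤ F y)
    (S : Finset γ) (hS : ∀ ω, Y ω ∈ S) :
    ∑ ω, w ω * (F (Y ω) / pr w Y (Y ω)) ≤ ∑ y ∈ S, F y := by
  have h1 : ∑ ω, w ω * (F (Y ω) / pr w Y (Y ω))
      = ∑ y ∈ S, ∑ ω ∈ (univ.filter (fun ω => Y ω = y)), w ω * (F (Y ω) / pr w Y (Y ω)) := by
    rw [Finset.sum_fiberwise_of_maps_to (fun ω _ => hS ω)]
  rw [h1]
  refine Finset.sum_le_sum (fun y _ => ?_)
  have h2 : ∑ ω ∈ (univ.filter (fun ω => Y ω = y)), w ω * (F (Y ω) / pr w Y (Y ω))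
      = (∑ ω ∈ (univ.filter (fun ω => Y ω = y)), w ω) * (F y / pr w Y y) := by
    rw [Finset.sum_mul]
    refine Finset.sum_congr rfl (fun ω hω => ?_)
    rw [(Finset.mem_filter.mp hω).2]
  rw [h2]
  have h3 : ∑ ω ∈ (univ.filter (fun ω => Y ω = y)), w ω = pr w Y y := by
    unfold pr
    rw [Finset.sum_filter]
  rw [h3]
  rcases eq_or_lt_of_le (pr_nonneg hw Y y) with h4 | h4
  · rw [← h4]; simp [hF y]
  · rw [mul_div_cancel₀ _ h4.ne']

/-- total probability over a finset -/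
lemma sum_pr_le {β : Type*} (hw : ∀ ω, 0 < w ω) (hs : ∑ ω, w ω = 1) (x : Ω → β) (S : Finset β) :
    ∑ b ∈ S, pr w x b ≤ 1 := by
  unfold pr
  rw [Finset.sum_comm, ← hs]
  refine Finset.sum_le_sum (fun ω _ => ?_)
  rw [Finset.sum_ite_eq]
  split_ifs
  · exact le_rfl
  · exact (hw ω).le

lemma sum_pr_pair_le {α β : Type*} (hw : ∀ ω, 0 < w ω) (a : Ω → α) (x : Ω → β) (b : β)
    (S : Finset α) : ∑ α0 ∈ S, pr w (fun ω => (a ω, x ω)) (α0, b) ≤ pr w x b := by
  unfold pr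
  rw [Finset.sum_comm]
  refine Finset.sum_le_sum (fun ω _ => ?_)
  by_cases h : x ω = b
  · simp only [Prod.mk.injEq, h, and_true, if_true]
    rw [Finset.sum_ite_eq]
    split_ifs
    · exact le_rfl
    · exact (hw ω).le
  · simp [Prod.mk.injEq, h]

end basic

section lemmas

variable {Ω : Type*} [Fintype Ω] {w : Ω → ℝ}

/-- (L1) variational lower bound for `DD`. -/
theorem DD_ge {α β : Type*} [Fintype α] (hw : ∀ ω, 0 < w ω) (hs : ∑ ω, w ω = 1)
    (a : Ω → α) (x : Ω → β) (r : α → ℝ) (hr0 : ∀ α0, 0 ≤ r α0) (hr : ∀ ω, 0 < r (a ω))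
    (g : α → β → ℝ) (hg0 : ∀ α0 b, 0 ≤ g α0 b) (hgp : ∀ ω, 0 < g (a ω) (x ω))
    (hg : ∀ b, ∑ α0, r α0 * g α0 b ≤ 1) :
    ∑ ω, w ω * Real.log (g (a ω) (x ω)) ≤ DD w a x r := by
  set Y : Ω → α × β := fun ω => (a ω, x ω) with hY
  set F : α × β → ℝ := fun p => g p.1 p.2 * pr w x p.2 * r p.1 with hF
  have hFn : ∀ p, 0 ≤ F p := fun p =>
    mul_nonneg (mul_nonneg (hg0 _ _) (pr_nonneg hw x _)) (hr0 _)
  set T : Ω → ℝ := fun ω => F (Y ω) / pr w Y (Y ω) with hT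
  have hTp : ∀ ω, 0 < T ω := fun ω => by
    simp only [hT, hF, hY]
    exact div_pos (mul_pos (mul_pos (hgp ω) (pr_pos hw x ω)) (hr ω)) (pr_pos hw Y ω)
  have h1 : ∑ ω, w ω * T ω ≤ 1 := by
    have h2 := group_le hw Y F hFn (univ ×ˢ (univ.image x)) (fun ω => by
      simp [hY])
    refine le_trans h2 ?_
    rw [Finset.sum_product_right]
    refine le_trans (Finset.sum_le_sum (fun b _ => ?_)) (sum_pr_le hw hs x (univ.image x))
    simp only [hF]
    have h3 : ∑ x_1, g x_1 b * pr w x b * r x_1 = pr w x b * ∑ α0, r α0 * g α0 b := by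
      rw [Finset.mul_sum]
      refine Finset.sum_congr rfl (fun _ _ => by ring)
    rw [h3]
    calc pr w x b * ∑ α0, r α0 * g α0 b ≤ pr w x b * 1 :=
          mul_le_mul_of_nonneg_left (hg b) (pr_nonneg hw x b)
      _ = pr w x b := mul_one _
  have h4 := gibbs hw hs T hTp h1
  have h5 : ∑ ω, w ω * Real.log (T ω)
      = ∑ ω, w ω * Real.log (g (a ω) (x ω)) - DD w a x r := by
    unfold DD
    rw [← Finset.sum_sub_distrib]
    refine Finset.sum_congr rfl (fun ω _ => ?_)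
    simp only [hT, hF, hY]
    rw [Real.log_div (mul_pos (mul_pos (hgp ω) (pr_pos hw x ω)) (hr ω)).ne' (pr_pos hw Y ω).ne',
      Real.log_mul (mul_pos (hgp ω) (pr_pos hw x ω)).ne' (hr ω).ne',
      Real.log_mul (hgp ω).ne' (pr_pos hw x ω).ne']
    ring
  linarith

/-- (L3) superadditivity. -/
theorem DD_split {α α1 α2 β : Type*} [Fintype α] [Fintype α1] [Fintype α2]
    (hw : ∀ ω, 0 < w ω) (hs : ∑ ω, w ω = 1)
    (a : Ω → α) (x : Ω → β) (r : α → ℝ)
    (e : α ≃ α1 × α2) (r1 : α1 → ℝ) (r2 : α2 → ℝ)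
    (hr12 : ∀ α0, r α0 = r1 (e α0).1 * r2 (e α0).2)
    (h1 : ∀ ω, 0 < r1 (e (a ω)).1) (h2 : ∀ ω, 0 < r2 (e (a ω)).2) :
    DD w (fun ω => (e (a ω)).1) x r1 + DD w (fun ω => (e (a ω)).2) x r2 ≤ DD w a x r := by
  set Y : Ω → α × β := fun ω => (a ω, x ω) with hY
  set Y1 : Ω → α1 × β := fun ω => ((e (a ω)).1, x ω) with hY1
  set Y2 : Ω → α2 × β := fun ω => ((e (a ω)).2, x ω) with hY2
  set F : α × β → ℝ := fun p =>
    pr w Y1 ((e p.1).1, p.2) * pr w Y2 ((e p.1).2, p.2) / pr w x p.2 with hF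
  have hFn : ∀ p, 0 ≤ F p := fun p =>
    div_nonneg (mul_nonneg (pr_nonneg hw _ _) (pr_nonneg hw _ _)) (pr_nonneg hw x _)
  set T : Ω → ℝ := fun ω => F (Y ω) / pr w Y (Y ω) with hT
  have p1 : ∀ ω, 0 < pr w Y1 ((e (a ω)).1, x ω) := fun ω => pr_pos hw Y1 ω
  have p2 : ∀ ω, 0 < pr w Y2 ((e (a ω)).2, x ω) := fun ω => pr_pos hw Y2 ω
  have hTp : ∀ ω, 0 < T ω := fun ω => by
    simp only [hT, hF, hY]
    exact div_pos (div_pos (mul_pos (p1 ω) (p2 ω)) (pr_pos hw x ω)) (pr_pos hw Y ω)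
  have hsum : ∑ ω, w ω * T ω ≤ 1 := by
    have h2' := group_le hw Y F hFn (univ ×ˢ (univ.image x)) (fun ω => by
      simp [hY])
    refine le_trans h2' ?_
    rw [Finset.sum_product_right]
    refine le_trans (Finset.sum_le_sum (fun b _ => ?_)) (sum_pr_le hw hs x (univ.image x))
    simp only [hF]
    have h3 : ∑ α0 : α, pr w Y1 ((e α0).1, b) * pr w Y2 ((e α0).2, b) / pr w x b
        = (∑ α1', pr w Y1 (α1', b)) * (∑ α2', pr w Y2 (α2', b)) / pr w x b := by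
      rw [← Finset.sum_div]
      congr 1
      rw [Finset.sum_mul_sum, ← Finset.sum_product']
      exact Fintype.sum_equiv e _ _ (fun _ => rfl)
    rw [h3]
    have h4 : ∑ α1', pr w Y1 (α1', b) ≤ pr w x b :=
      sum_pr_pair_le hw (fun ω => (e (a ω)).1) x b univ
    have h5 : ∑ α2', pr w Y2 (α2', b) ≤ pr w x b :=
      sum_pr_pair_le hw (fun ω => (e (a ω)).2) x b univ
    rcases eq_or_lt_of_le (pr_nonneg hw x b) with h6 | h6
    · rw [← h6]; simp
    · rw [div_le_iff₀ h6]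
      exact mul_le_mul h4 h5 (Finset.sum_nonneg (fun _ _ => pr_nonneg hw _ _)) h6.le
  have h4 := gibbs hw hs T hTp hsum
  have h5 : ∑ ω, w ω * Real.log (T ω)
      = DD w (fun ω => (e (a ω)).1) x r1 + DD w (fun ω => (e (a ω)).2) x r2 - DD w a x r := by
    unfold DD
    rw [← Finset.sum_add_distrib, ← Finset.sum_sub_distrib]
    refine Finset.sum_congr rfl (fun ω _ => ?_)
    simp only [hT, hF, hY]
    rw [Real.log_div (div_pos (mul_pos (p1 ω) (p2 ω)) (pr_pos hw x ω)).ne' (pr_pos hw Y ω).ne',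
      Real.log_div (mul_pos (p1 ω) (p2 ω)).ne' (pr_pos hw x ω).ne',
      Real.log_mul (p1 ω).ne' (p2 ω).ne', hr12, Real.log_mul (h1 ω).ne' (h2 ω).ne']
    ring
  linarith

/-- (L4) dropping a coordinate with (sub)probability conditional reference. -/
theorem DD_drop {α γ β : Type*} [Fintype α] [Fintype γ]
    (hw : ∀ ω, 0 < w ω) (hs : ∑ ω, w ω = 1)
    (a : Ω → α × γ) (x : Ω → β) (r : α → ℝ) (qq : α → γ → ℝ) (hq0 : ∀ α0 t, 0 ≤ qq α0 t)
    (hr : ∀ ω, 0 < r (a ω).1) (hq : ∀ ω, 0 < qq (a ω).1 (a ω).2)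
    (hqs : ∀ α0, ∑ t, qq α0 t ≤ 1) :
    DD w (fun ω => (a ω).1) x r ≤ DD w a x (fun p => r p.1 * qq p.1 p.2) := by
  set Y : Ω → (α × γ) × β := fun ω => (a ω, x ω) with hY
  set Y1 : Ω → α × β := fun ω => ((a ω).1, x ω) with hY1
  set F : (α × γ) × β → ℝ := fun p => pr w Y1 (p.1.1, p.2) * qq p.1.1 p.1.2 with hF
  have hFn : ∀ p, 0 ≤ F p := fun p => mul_nonneg (pr_nonneg hw _ _) (hq0 _ _)
  set T : Ω → ℝ := fun ω => F (Y ω) / pr w Y (Y ω) with hT
  have p1 : ∀ ω, 0 < pr w Y1 ((a ω).1, x ω) := fun ω => pr_pos hw Y1 ω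
  have hTp : ∀ ω, 0 < T ω := fun ω => by
    simp only [hT, hF, hY]
    exact div_pos (mul_pos (p1 ω) (hq ω)) (pr_pos hw Y ω)
  have hsum : ∑ ω, w ω * T ω ≤ 1 := by
    have h2' := group_le hw Y F hFn (univ ×ˢ (univ.image x)) (fun ω => by
      simp [hY])
    refine le_trans h2' ?_
    rw [Finset.sum_product_right]
    refine le_trans (Finset.sum_le_sum (fun b _ => ?_)) (sum_pr_le hw hs x (univ.image x))
    simp only [hF]
    rw [← Finset.univ_product_univ, Finset.sum_product]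
    calc ∑ α0 : α, ∑ t : γ, pr w Y1 (α0, b) * qq α0 t
        = ∑ α0 : α, pr w Y1 (α0, b) * ∑ t : γ, qq α0 t := by
          refine Finset.sum_congr rfl (fun _ _ => by rw [Finset.mul_sum])
      _ ≤ ∑ α0 : α, pr w Y1 (α0, b) * 1 :=
          Finset.sum_le_sum (fun α0 _ =>
            mul_le_mul_of_nonneg_left (hqs α0) (pr_nonneg hw _ _))
      _ = ∑ α0 : α, pr w Y1 (α0, b) := by simp
      _ ≤ pr w x b := sum_pr_pair_le hw (fun ω => (a ω).1) x b univ
  have h4 := gibbs hw hs T hTp hsum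
  have h5 : ∑ ω, w ω * Real.log (T ω)
      = DD w (fun ω => (a ω).1) x r - DD w a x (fun p => r p.1 * qq p.1 p.2) := by
    unfold DD
    rw [← Finset.sum_sub_distrib]
    refine Finset.sum_congr rfl (fun ω _ => ?_)
    simp only [hT, hF, hY]
    rw [Real.log_div (mul_pos (p1 ω) (hq ω)).ne' (pr_pos hw Y ω).ne',
      Real.log_mul (p1 ω).ne' (hq ω).ne', Real.log_mul (hr ω).ne' (hq ω).ne']
    ring
  linarith

/-- (L2) one random step. -/
theorem DD_step {α β O E : Type*} [Fintype α] [Fintype E]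
    (hw : ∀ ω, 0 < w ω) (hs : ∑ ω, w ω = 1)
    (opts : Ω → Finset O) (hopts : ∀ ω, (opts ω).Nonempty)
    (a : Ω → α) (x : Ω → β) (r : α → ℝ)
    (act : Ω → Prop) (Δ : Ω → O → E) (d0 : E) (upd : β → E → β)
    (hinj : ∀ ω, act ω → Set.InjOn (Δ ω) (opts ω))
    (hconst : ∀ ω, ¬ act ω → ∀ o, Δ ω o = d0)
    (ν : E → ℝ) (hν : ∀ d, 0 < ν d) (hνs : ∑ d, ν d ≤ 1) (ν1 : ℝ)
    (hν1 : ∀ ω, act ω → ∀ o ∈ opts ω, ν (Δ ω o) = ν1)
    (w' : (Σ ω : Ω, {o // o ∈ opts ω}) → ℝ)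
    (hw' : ∀ p, w' p = w p.1 / (opts p.1).card) :
    DD w' (fun p => a p.1) (fun p => upd (x p.1) (Δ p.1 p.2.1)) r
      ≤ DD w a x r + ∑ ω, w ω * (if act ω then - Real.log ((opts ω).card) - Real.log ν1
          else - Real.log (ν d0)) := by
  have hcard : ∀ ω, (0 : ℝ) < ((opts ω).card : ℝ) := fun ω => by
    exact_mod_cast (hopts ω).card_pos
  have hw'p : ∀ p, 0 < w' p := fun p => by rw [hw']; exact div_pos (hw _) (hcard _)
  have hw's : ∑ p, w' p = 1 := by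
    rw [Fintype.sum_sigma, ← hs]
    refine Finset.sum_congr rfl (fun ω _ => ?_)
    simp only [hw']
    rw [Finset.sum_const, Finset.card_univ, Fintype.card_coe, nsmul_eq_mul,
      mul_div_cancel₀ _ (hcard ω).ne']
  set x' : (Σ ω : Ω, {o // o ∈ opts ω}) → β := fun p => upd (x p.1) (Δ p.1 p.2.1) with hx'
  set Y : Ω → α × β := fun ω => (a ω, x ω) with hY
  set Y' : (Σ ω : Ω, {o // o ∈ opts ω}) → α × β := fun p => (a p.1, x' p) with hY'
  set G : α × β → E → ℝ := fun q d =>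
    pr w' Y' (q.1, upd q.2 d) * pr w x q.2 * ν d / pr w' x' (upd q.2 d) with hG
  have hGn : ∀ q d, 0 ≤ G q d := fun q d =>
    div_nonneg (mul_nonneg (mul_nonneg (pr_nonneg hw'p _ _) (pr_nonneg hw _ _)) (hν d).le)
      (pr_nonneg hw'p _ _)
  set pp : Ω → ℝ := fun ω => if act ω then 1 / ((opts ω).card : ℝ) else 1 with hpp
  have hppp : ∀ ω, 0 < pp ω := fun ω => by
    simp only [hpp]; split_ifs
    · exact div_pos one_pos (hcard ω)
    · exact one_pos
  set T : (Σ ω : Ω, {o // o ∈ opts ω}) → ℝ := fun p =>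
    G (Y p.1) (Δ p.1 p.2.1) / (pr w Y (Y p.1) * pp p.1) with hT
  have hGp : ∀ p : (Σ ω : Ω, {o // o ∈ opts ω}), 0 < G (Y p.1) (Δ p.1 p.2.1) := fun p => by
    simp only [hG, hY]
    have h1 : 0 < pr w' Y' (a p.1, upd (x p.1) (Δ p.1 p.2.1)) := pr_pos hw'p Y' p
    have h2 : 0 < pr w' x' (upd (x p.1) (Δ p.1 p.2.1)) := pr_pos hw'p x' p
    exact div_pos (mul_pos (mul_pos h1 (pr_pos hw x p.1)) (hν _)) h2
  have hTp : ∀ p, 0 < T p := fun p => by
    simp only [hT]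
    exact div_pos (hGp p) (mul_pos (pr_pos hw Y p.1) (hppp p.1))
  -- inner sums
  have inner : ∀ ω, ∑ o : {o // o ∈ opts ω}, w' ⟨ω, o⟩ * T ⟨ω, o⟩
      ≤ w ω * ((∑ d, G (Y ω) d) / pr w Y (Y ω)) := by
    intro ω
    have hPY := pr_pos hw Y ω
    by_cases ha : act ω
    · have e1 : ∀ o : {o // o ∈ opts ω}, w' ⟨ω, o⟩ * T ⟨ω, o⟩
          = (w ω / pr w Y (Y ω)) * G (Y ω) (Δ ω o.1) := by
        intro o
        simp only [hT, hpp, ha, if_true, hw']
        have := (hcard ω).ne'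
        field_simp
      rw [Finset.sum_congr rfl (fun o _ => e1 o), ← Finset.mul_sum]
      have e2 : ∑ o : {o // o ∈ opts ω}, G (Y ω) (Δ ω o.1) = ∑ o ∈ opts ω, G (Y ω) (Δ ω o) :=
        Finset.sum_coe_sort (opts ω) (fun o => G (Y ω) (Δ ω o))
      rw [e2]
      have e3 : ∑ o ∈ opts ω, G (Y ω) (Δ ω o) = ∑ d ∈ (opts ω).image (Δ ω), G (Y ω) d :=
        (Finset.sum_image (fun o ho o' ho' h => hinj ω ha ho ho' h)).symm
      rw [e3]
      have e4 : ∑ d ∈ (opts ω).image (Δ ω), G (Y ω) d ≤ ∑ d, G (Y ω) d :=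
        Finset.sum_le_sum_of_subset_of_nonneg (Finset.subset_univ _) (fun d _ _ => hGn _ _)
      calc w ω / pr w Y (Y ω) * ∑ d ∈ (opts ω).image (Δ ω), G (Y ω) d
          ≤ w ω / pr w Y (Y ω) * ∑ d, G (Y ω) d :=
            mul_le_mul_of_nonneg_left e4 (div_nonneg (hw ω).le hPY.le)
        _ = w ω * ((∑ d, G (Y ω) d) / pr w Y (Y ω)) := by ring
    · have e1 : ∀ o : {o // o ∈ opts ω}, w' ⟨ω, o⟩ * T ⟨ω, o⟩
          = (w ω / pr w Y (Y ω)) * G (Y ω) d0 / (opts ω).card := by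
        intro o
        simp only [hT, hpp, ha, if_false, hw', hconst ω ha]
        have := (hcard ω).ne'
        field_simp
      rw [Finset.sum_congr rfl (fun o _ => e1 o), Finset.sum_const, Finset.card_univ,
        Fintype.card_coe, nsmul_eq_mul, mul_div_cancel₀ _ (hcard ω).ne']
      have e4 : G (Y ω) d0 ≤ ∑ d, G (Y ω) d :=
        Finset.single_le_sum (f := fun d => G (Y ω) d) (fun d _ => hGn _ _) (Finset.mem_univ d0)
      calc w ω / pr w Y (Y ω) * G (Y ω) d0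
          ≤ w ω / pr w Y (Y ω) * ∑ d, G (Y ω) d :=
            mul_le_mul_of_nonneg_left e4 (div_nonneg (hw ω).le hPY.le)
        _ = w ω * ((∑ d, G (Y ω) d) / pr w Y (Y ω)) := by ring
  have hsum : ∑ p, w' p * T p ≤ 1 := by
    rw [Fintype.sum_sigma]
    refine le_trans (Finset.sum_le_sum (fun ω _ => inner ω)) ?_
    have h2' := group_le hw Y (fun q => ∑ d, G q d)
      (fun q => Finset.sum_nonneg (fun d _ => hGn q d)) (univ ×ˢ (univ.image x)) (fun ω => by
      simp [hY])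
    refine le_trans h2' ?_
    rw [Finset.sum_product_right]
    have h6 : ∀ b ∈ univ.image x, ∑ α0 : α, ∑ d, G (α0, b) d ≤ pr w x b := by
      intro b _
      rw [Finset.sum_comm]
      have h7 : ∀ d : E, ∑ α0 : α, G (α0, b) d ≤ pr w x b * ν d := by
        intro d
        simp only [hG]
        rw [← Finset.sum_div]
        have h8 : ∑ α0 : α, pr w' Y' (α0, upd b d) * pr w x b * ν d
            = (∑ α0 : α, pr w' Y' (α0, upd b d)) * (pr w x b * ν d) := by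
          rw [Finset.sum_mul]
          refine Finset.sum_congr rfl (fun _ _ => by ring)
        rw [h8]
        have h9 : ∑ α0 : α, pr w' Y' (α0, upd b d) ≤ pr w' x' (upd b d) :=
          sum_pr_pair_le hw'p (fun p => a p.1) x' (upd b d) univ
        have h10 : 0 ≤ pr w x b * ν d := mul_nonneg (pr_nonneg hw _ _) (hν d).le
        rcases eq_or_lt_of_le (pr_nonneg hw'p x' (upd b d)) with h11 | h11
        · rw [← h11]; simpa using h10
        · rw [div_le_iff₀ h11, mul_comm]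
          exact mul_le_mul_of_nonneg_left h9 h10
      calc ∑ d, ∑ α0 : α, G (α0, b) d ≤ ∑ d, pr w x b * ν d :=
            Finset.sum_le_sum (fun d _ => h7 d)
        _ = pr w x b * ∑ d, ν d := by rw [Finset.mul_sum]
        _ ≤ pr w x b * 1 := mul_le_mul_of_nonneg_left hνs (pr_nonneg hw _ _)
        _ = pr w x b := mul_one _
    exact le_trans (Finset.sum_le_sum h6) (sum_pr_le hw hs x (univ.image x))
  have h4 := gibbs hw'p hw's T hTp hsum
  -- now rewrite everything as sums over the sigma type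
  have lift : ∀ f : Ω → ℝ, ∑ p : (Σ ω : Ω, {o // o ∈ opts ω}), w' p * f p.1 = ∑ ω, w ω * f ω := by
    intro f
    rw [Fintype.sum_sigma]
    refine Finset.sum_congr rfl (fun ω _ => ?_)
    simp only [hw']
    rw [Finset.sum_const, Finset.card_univ, Fintype.card_coe, nsmul_eq_mul]
    have := (hcard ω).ne'
    field_simp
  have h5 : ∑ p, w' p * Real.log (T p)
      = DD w' (fun p => a p.1) x' r - DD w a x r
        - ∑ p, w' p * (Real.log (pp p.1) - Real.log (ν (Δ p.1 p.2.1))) := by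
    have hDD : DD w a x r = ∑ p : (Σ ω : Ω, {o // o ∈ opts ω}), w' p *
        (Real.log (pr w (fun ω => (a ω, x ω)) (a p.1, x p.1)) - Real.log (pr w x (x p.1))
          - Real.log (r (a p.1))) := by
      rw [lift (fun ω => Real.log (pr w (fun ω => (a ω, x ω)) (a ω, x ω)) - Real.log (pr w x (x ω))
          - Real.log (r (a ω)))]
      rfl
    rw [hDD]
    unfold DD
    rw [← Finset.sum_sub_distrib, ← Finset.sum_sub_distrib]
    refine Finset.sum_congr rfl (fun p _ => ?_)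
    have h1 : 0 < pr w' Y' (a p.1, upd (x p.1) (Δ p.1 p.2.1)) := pr_pos hw'p Y' p
    have h2 : 0 < pr w' x' (upd (x p.1) (Δ p.1 p.2.1)) := pr_pos hw'p x' p
    have h3 := pr_pos hw x p.1
    have e : T p = pr w' Y' (a p.1, upd (x p.1) (Δ p.1 p.2.1)) * pr w x (x p.1)
        * ν (Δ p.1 p.2.1) / pr w' x' (upd (x p.1) (Δ p.1 p.2.1))
          / (pr w Y (Y p.1) * pp p.1) := rfl
    rw [e, Real.log_div (div_pos (mul_pos (mul_pos h1 h3) (hν _)) h2).ne'
      (mul_pos (pr_pos hw Y p.1) (hppp p.1)).ne',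
      Real.log_div (mul_pos (mul_pos h1 h3) (hν _)).ne' h2.ne',
      Real.log_mul (mul_pos h1 h3).ne' (hν _).ne', Real.log_mul h1.ne' h3.ne',
      Real.log_mul (pr_pos hw Y p.1).ne' (hppp p.1).ne']
    have e2 : pr w Y (Y p.1) = pr w (fun ω => (a ω, x ω)) (a p.1, x p.1) := rfl
    have e3 : pr w' (fun ω => ((fun p : (Σ ω : Ω, {o // o ∈ opts ω}) => a p.1) ω, x' ω))
        ((fun p : (Σ ω : Ω, {o // o ∈ opts ω}) => a p.1) p, x' p)
        = pr w' Y' (a p.1, upd (x p.1) (Δ p.1 p.2.1)) := rfl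
    have e4 : pr w' x' (x' p) = pr w' x' (upd (x p.1) (Δ p.1 p.2.1)) := rfl
    rw [e2, e3, e4]
    ring
  have h6 : ∑ p, w' p * (Real.log (pp p.1) - Real.log (ν (Δ p.1 p.2.1)))
      = ∑ ω, w ω * (if act ω then - Real.log ((opts ω).card) - Real.log ν1
          else - Real.log (ν d0)) := by
    rw [← lift]
    refine Finset.sum_congr rfl (fun p _ => ?_)
    by_cases ha : act p.1
    · simp only [ha, if_true, hpp, hν1 p.1 ha p.2.1 p.2.2]
      rw [one_div, Real.log_inv]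
    · simp only [ha, if_false, hpp, hconst p.1 ha, Real.log_one]
      ring
  rw [h6] at h5
  linarith

end lemmas

end

end Pool.Agent.Fox
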