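import Mathlib
import Pool.Agent.Fox.Info

set_option autoImplicit false
set_option linter.unusedSectionVars false
set_option linter.style.haveILetI false

open Finset
open scoped BigOperators Classical

namespace Pool.Agent.Fox

noncomputable section

/-- a point of the process: root label, partial embedding, stopped neighbourhood records, cost -/
structure Pt (A V R : Type) where
  r : R
  φ : A → Option V
  X : A → A → Option V
  cost : ℝ

variable {A V R : Type} [Fintype A] [Fintype V]

def compat (H : SimpleGraph A) (χ : V → V → Bool) (c : Bool) (φ : A → Option V) (v : A) (z : V) :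
    Prop := ∀ u y, H.Adj v u → φ u = some y → χ y z = c

def listIn (H : SimpleGraph A) (χ : V → V → Bool) (c : Bool) (F : Finset V) (φ : A → Option V)
    (v : A) : Finset V := F.filter (fun z => compat H χ c φ v z)

/-- placing `u` at `z` (chosen from `S`) -/
def place (H : SimpleGraph A) (σ : Pt A V R) (u : A) (S : Finset V) (z : V) : Pt A V R where
  r := σ.r
  φ := Function.update σ.φ u (some z)
  X := fun v => if H.Adj v u ∧ σ.φ v = none then Function.update (σ.X v) u (some z) else σ.X v
  cost := σ.cost + (Real.log (Fintype.card V) - Real.log S.card)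

/-- basic pointwise invariants -/
structure JB (H : SimpleGraph A) (χ : V → V → Bool) (c : Bool) (σ : Pt A V R) : Prop where
  xin : ∀ v u y, σ.X v u = some y → σ.φ u = some y ∧ H.Adj v u
  xφ : ∀ v, σ.φ v = none → ∀ u, H.Adj v u → σ.X v u = σ.φ u
  hom : ∀ u v x y, H.Adj u v → σ.φ u = some x → σ.φ v = some y → χ x y = c

lemma JB.place {H : SimpleGraph A} {χ : V → V → Bool} (hχ : ∀ x y, χ x y = χ y x) {c : Bool}
    {σ : Pt A V R} (h : JB H χ c σ) {u : A} (hu : σ.φ u = none) (S : Finset V) {z : V}
    (hz : compat H χ c σ.φ u z) : JB H χ c (place H σ u S z) := by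
  constructor
  · intro v w y hy
    simp only [Fox.place] at hy ⊢
    split_ifs at hy with hc
    · by_cases hwu : w = u
      · subst hwu
        rw [Function.update_self] at hy ⊢
        exact ⟨hy, hc.1⟩
      · rw [Function.update_of_ne hwu] at hy ⊢
        exact h.xin v w y hy
    · have h1 := h.xin v w y hy
      have hwu : w ≠ u := by
        rintro rfl
        rw [hu] at h1; exact absurd h1.1 (by simp)
      rw [Function.update_of_ne hwu]
      exact h1
  · intro v hv w hvw
    simp only [Fox.place] at hv ⊢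
    have hvu : v ≠ u := by
      rintro rfl
      rw [Function.update_self] at hv; exact absurd hv (by simp)
    rw [Function.update_of_ne hvu] at hv
    by_cases hadj : H.Adj v u
    · rw [if_pos ⟨hadj, hv⟩]
      by_cases hwu : w = u
      · subst hwu; rw [Function.update_self, Function.update_self]
      · rw [Function.update_of_ne hwu, Function.update_of_ne hwu]
        exact h.xφ v hv w hvw
    · rw [if_neg (fun h' => hadj h'.1)]
      have hwu : w ≠ u := by rintro rfl; exact hadj hvw
      rw [Function.update_of_ne hwu]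
      exact h.xφ v hv w hvw
  · intro v w x y hvw hx hy
    simp only [Fox.place] at hx hy
    by_cases hvu : v = u
    · subst hvu
      rw [Function.update_self] at hx
      have hwv : w ≠ v := by rintro rfl; exact H.loopless.irrefl _ hvw
      rw [Function.update_of_ne hwv] at hy
      have hxz : x = z := by simpa using hx.symm
      subst hxz
      rw [hχ]
      exact hz w y hvw hy
    · rw [Function.update_of_ne hvu] at hx
      by_cases hwu : w = u
      · subst hwu
        rw [Function.update_self] at hy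
        have hyz : y = z := by simpa using hy.symm
        subst hyz
        exact hz v x hvw.symm hx
      · rw [Function.update_of_ne hwu] at hy
        exact h.hom v w x y hvw hx hy

lemma compat_X {H : SimpleGraph A} {χ : V → V → Bool} {c : Bool} {σ : Pt A V R}
    (h : JB H χ c σ) {v : A} (hv : σ.φ v = none) (z : V) :
    compat H χ c (σ.X v) v z ↔ compat H χ c σ.φ v z := by
  unfold compat
  constructor
  · intro h1 u y hadj hy
    exact h1 u y hadj (by rw [h.xφ v hv u hadj]; exact hy)
  · intro h1 u y hadj hy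
    exact h1 u y hadj (h.xin v u y hy).1

lemma listIn_X {H : SimpleGraph A} {χ : V → V → Bool} {c : Bool} {σ : Pt A V R}
    (h : JB H χ c σ) (F : Finset V) {v : A} (hv : σ.φ v = none) :
    listIn H χ c F (σ.X v) v = listIn H χ c F σ.φ v := by
  unfold listIn
  refine Finset.filter_congr (fun z _ => compat_X h hv z)

/-- a finite probability space of points -/
structure Sys (A V R : Type) where
  Ω : Type
  inst : Fintype Ω
  w : Ω → ℝ
  st : Ω → Pt A V R

attribute [instance] Sys.inst

/-- placed vertices -/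
def plc (φ : A → Option V) : Finset A := univ.filter (fun v => φ v ≠ none)

/-- invariants of a system -/
structure WF (J : Pt A V R → Prop) (w0 : R → ℝ) (S : Sys A V R) : Prop where
  pos : ∀ ω, 0 < S.w ω
  sum_one : ∑ ω, S.w ω = 1
  pt : ∀ ω, J (S.st ω)
  hw : ∀ ω, S.w ω = w0 (S.st ω).r * Real.exp (S.st ω).cost
    / (Fintype.card V : ℝ) ^ (plc (S.st ω).φ).card
  sep : ∀ ω ω', ω ≠ ω' → (S.st ω).r = (S.st ω').r →
    ∃ u x x', (S.st ω).φ u = some x ∧ (S.st ω').φ u = some x' ∧ x ≠ x'

def Ex (S : Sys A V R) (F : Pt A V R → ℝ) : ℝ := ∑ ω, S.w ω * F (S.st ω)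

abbrev Pick (A V R : Type) := Pt A V R → Option (A × Finset V)

def optsOf (pick : Pick A V R) (v0 : V) (σ : Pt A V R) : Finset V :=
  match pick σ with
  | none => {v0}
  | some us => us.2

def nextPt (H : SimpleGraph A) (pick : Pick A V R) (σ : Pt A V R) (o : V) : Pt A V R :=
  match pick σ with
  | none => σ
  | some us => place H σ us.1 us.2 o

def stepS (H : SimpleGraph A) (pick : Pick A V R) (v0 : V) (S : Sys A V R) : Sys A V R where
  Ω := Σ ω : S.Ω, {o // o ∈ optsOf pick v0 (S.st ω)}
  inst := inferInstance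
  w := fun p => S.w p.1 / (optsOf pick v0 (S.st p.1)).card
  st := fun p => nextPt H pick (S.st p.1) p.2.1

lemma nextPt_none {H : SimpleGraph A} {pick : Pick A V R} {σ : Pt A V R} (h : pick σ = none)
    (o : V) : nextPt H pick σ o = σ := by
  unfold nextPt; rw [h]

lemma nextPt_some {H : SimpleGraph A} {pick : Pick A V R} {σ : Pt A V R} {us : A × Finset V}
    (h : pick σ = some us) (o : V) : nextPt H pick σ o = place H σ us.1 us.2 o := by
  unfold nextPt; rw [h]

/-- validity of a choice rule with respect to an invariant -/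
def Valid (H : SimpleGraph A) (J : Pt A V R → Prop) (pick : Pick A V R) : Prop :=
  ∀ σ, J σ → ∀ us, pick σ = some us →
    σ.φ us.1 = none ∧ us.2.Nonempty ∧ ∀ z ∈ us.2, J (place H σ us.1 us.2 z)

lemma optsOf_nonempty {H : SimpleGraph A} {J : Pt A V R → Prop} {pick : Pick A V R}
    (hv : Valid H J pick) (v0 : V) {σ : Pt A V R} (hσ : J σ) : (optsOf pick v0 σ).Nonempty := by
  unfold optsOf
  cases h : pick σ with
  | none => exact Finset.singleton_nonempty _
  | some us => exact (hv σ hσ us h).2.1

lemma nextPt_J {H : SimpleGraph A} {J : Pt A V R → Prop} {pick : Pick A V R}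
    (hv : Valid H J pick) (v0 : V) {σ : Pt A V R} (hσ : J σ) {o : V}
    (ho : o ∈ optsOf pick v0 σ) : J (nextPt H pick σ o) := by
  unfold nextPt
  unfold optsOf at ho
  cases h : pick σ with
  | none => simpa [h] using hσ
  | some us =>
    rw [h] at ho
    exact (hv σ hσ us h).2.2 o ho

lemma plc_update {φ : A → Option V} {u : A} (hu : φ u = none) (z : V) :
    (plc (Function.update φ u (some z))).card = (plc φ).card + 1 := by
  have h1 : plc (Function.update φ u (some z)) = insert u (plc φ) := by
    ext v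
    unfold plc
    simp only [Finset.mem_filter, Finset.mem_univ, true_and, Finset.mem_insert]
    by_cases hvu : v = u
    · subst hvu; simp
    · rw [Function.update_of_ne hvu]; simp [hvu]
  rw [h1, Finset.card_insert_of_notMem]
  unfold plc
  simp [hu]

lemma WF.step {H : SimpleGraph A} {J : Pt A V R → Prop} {w0 : R → ℝ} {pick : Pick A V R}
    (hv : Valid H J pick) (v0 : V) {S : Sys A V R} (hS : WF J w0 S) :
    WF J w0 (stepS H pick v0 S) := by
  have hNp : (0 : ℝ) < Fintype.card V := by
    exact_mod_cast Fintype.card_pos_iff.mpr ⟨v0⟩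
  have hopt : ∀ ω, (0 : ℝ) < (optsOf pick v0 (S.st ω)).card := fun ω => by
    exact_mod_cast (optsOf_nonempty hv v0 (hS.pt ω)).card_pos
  constructor
  · intro p
    exact div_pos (hS.pos p.1) (hopt p.1)
  · change ∑ p : (Σ ω : S.Ω, {o // o ∈ optsOf pick v0 (S.st ω)}),
      S.w p.1 / (optsOf pick v0 (S.st p.1)).card = 1
    rw [Fintype.sum_sigma, ← hS.sum_one]
    refine Finset.sum_congr rfl (fun ω _ => ?_)
    change ∑ _y : {o // o ∈ optsOf pick v0 (S.st ω)},
      S.w ω / ((optsOf pick v0 (S.st ω)).card : ℝ) = S.w ω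
    rw [Finset.sum_const, Finset.card_univ, Fintype.card_coe, nsmul_eq_mul,
      mul_div_cancel₀ _ (hopt ω).ne']
  · intro p
    exact nextPt_J hv v0 (hS.pt p.1) p.2.2
  · rintro ⟨ω, o, ho⟩
    change S.w ω / (optsOf pick v0 (S.st ω)).card = w0 (nextPt H pick (S.st ω) o).r
      * Real.exp (nextPt H pick (S.st ω) o).cost
      / (Fintype.card V : ℝ) ^ (plc (nextPt H pick (S.st ω) o).φ).card
    rw [hS.hw ω]
    unfold nextPt optsOf
    cases h : pick (S.st ω) with
    | none => simp
    | some us =>
      obtain ⟨h1, h2, h3⟩ := hv _ (hS.pt ω) us h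
      simp only [Fox.place]
      rw [plc_update h1, Real.exp_add, Real.exp_sub, Real.exp_log hNp,
        Real.exp_log (by exact_mod_cast h2.card_pos), pow_succ]
      have h4 : (us.2.card : ℝ) ≠ 0 := by exact_mod_cast h2.card_pos.ne'
      field_simp
  · rintro ⟨ω, o, ho⟩ ⟨ω', o', ho'⟩ hne hr
    change (nextPt H pick (S.st ω) o).r = (nextPt H pick (S.st ω') o').r at hr
    have hr' : ∀ σ : Pt A V R, ∀ o, (nextPt H pick σ o).r = σ.r := by
      intro σ o
      unfold nextPt
      cases pick σ <;> rfl
    have hpers : ∀ (σ : Pt A V R), J σ → ∀ o u x, σ.φ u = some x →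
        (nextPt H pick σ o).φ u = some x := by
      intro σ hσ o u x hx
      unfold nextPt
      cases h : pick σ with
      | none => exact hx
      | some us =>
        simp only [Fox.place]
        have hne : u ≠ us.1 := by
          rintro rfl
          rw [(hv σ hσ us h).1] at hx; exact absurd hx (by simp)
        rw [Function.update_of_ne hne]; exact hx
    by_cases hω : ω = ω'
    · subst hω
      have hoo : o ≠ o' := by
        intro h; subst h; exact hne rfl
      change ∃ u x x', (nextPt H pick (S.st ω) o).φ u = some x ∧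
        (nextPt H pick (S.st ω) o').φ u = some x' ∧ x ≠ x'
      unfold optsOf at ho ho'
      unfold nextPt
      cases h : pick (S.st ω) with
      | none =>
        rw [h] at ho ho'
        simp only [Finset.mem_singleton] at ho ho'
        exact absurd (ho.trans ho'.symm) hoo
      | some us =>
        refine ⟨us.1, o, o', ?_, ?_, hoo⟩ <;> simp [Fox.place]
    · rw [hr', hr'] at hr
      obtain ⟨u, x, x', h1, h2, h3⟩ := hS.sep ω ω' hω hr
      exact ⟨u, x, x', hpers _ (hS.pt ω) o u x h1, hpers _ (hS.pt ω') o' u x' h2, h3⟩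

lemma Ex_step (H : SimpleGraph A) (pick : Pick A V R) (v0 : V) (S : Sys A V R)
    (F : Pt A V R → ℝ) :
    Ex (stepS H pick v0 S) F = ∑ ω, S.w ω * ((∑ o ∈ optsOf pick v0 (S.st ω),
      F (nextPt H pick (S.st ω) o)) / (optsOf pick v0 (S.st ω)).card) := by
  unfold Ex
  change ∑ p : (Σ ω : S.Ω, {o // o ∈ optsOf pick v0 (S.st ω)}),
      S.w p.1 / (optsOf pick v0 (S.st p.1)).card * F (nextPt H pick (S.st p.1) p.2.1) = _
  rw [Fintype.sum_sigma]
  refine Finset.sum_congr rfl (fun ω _ => ?_)
  have h1 := Finset.sum_coe_sort (optsOf pick v0 (S.st ω))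
    (fun o => S.w ω / (optsOf pick v0 (S.st ω)).card * F (nextPt H pick (S.st ω) o))
  rw [h1, ← Finset.mul_sum]
  ring

/-- a functional that does not increase under placements does not increase in expectation -/
lemma Ex_mono {H : SimpleGraph A} {J : Pt A V R → Prop} {w0 : R → ℝ} {pick : Pick A V R}
    (hv : Valid H J pick) (v0 : V) {S : Sys A V R} (hS : WF J w0 S) (F : Pt A V R → ℝ)
    (hF : ∀ σ, J σ → ∀ us, pick σ = some us → ∀ z ∈ us.2, F (place H σ us.1 us.2 z) ≤ F σ) :
    Ex (stepS H pick v0 S) F ≤ Ex S F := by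
  rw [Ex_step]
  unfold Ex
  refine Finset.sum_le_sum (fun ω _ => mul_le_mul_of_nonneg_left ?_ (hS.pos ω).le)
  have hopt : (0 : ℝ) < (optsOf pick v0 (S.st ω)).card := by
    exact_mod_cast (optsOf_nonempty hv v0 (hS.pt ω)).card_pos
  rw [div_le_iff₀ hopt]
  have h1 : ∀ o ∈ optsOf pick v0 (S.st ω), F (nextPt H pick (S.st ω) o) ≤ F (S.st ω) := by
    intro o ho
    unfold nextPt
    unfold optsOf at ho
    cases h : pick (S.st ω) with
    | none => exact le_rfl
    | some us =>
      rw [h] at ho
      exact hF _ (hS.pt ω) us h o ho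
  calc ∑ o ∈ optsOf pick v0 (S.st ω), F (nextPt H pick (S.st ω) o)
      ≤ ∑ o ∈ optsOf pick v0 (S.st ω), F (S.st ω) := Finset.sum_le_sum h1
    _ = F (S.st ω) * (optsOf pick v0 (S.st ω)).card := by
        rw [Finset.sum_const, nsmul_eq_mul]; ring

/-- number of recorded entries for `v` -/
def nX (v : A) (σ : Pt A V R) : ℝ := ((plc (σ.X v)).card : ℝ)

/-- the relative entropy potential -/
def DDv {α : Type} (S : Sys A V R) (f : R → α) (ref : α → ℝ) (v : A) : ℝ :=
  DD S.w (fun ω => f (S.st ω).r) (fun ω => (S.st ω).X v) ref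

/-- effect of a step on the potential -/
lemma DDv_step {H : SimpleGraph A} {χ : V → V → Bool} {c : Bool} {J : Pt A V R → Prop}
    {w0 : R → ℝ} {pick : Pick A V R}
    (hv : Valid H J pick) (hJB : ∀ σ, J σ → JB H χ c σ) (v0 : V) {S : Sys A V R}
    (hS : WF J w0 S) {α : Type} [Fintype α] (f : R → α) (ref : α → ℝ) (v : A)
    (ε0 : ℝ) (hε0 : 0 < ε0) (hε1 : ε0 < 1) (b : ℝ)
    (hb : ∀ σ, J σ → ∀ us, pick σ = some us →
      Real.log (Fintype.card V) - Real.log us.2.card
        + Real.log (Fintype.card A / ε0) ≤ b) :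
    DDv (stepS H pick v0 S) f ref v - b * Ex (stepS H pick v0 S) (nX v)
      ≤ DDv S f ref v - b * Ex S (nX v) - Real.log (1 - ε0) := by
  haveI : Nonempty A := ⟨v⟩
  have hNp : (0 : ℝ) < Fintype.card V := by
    exact_mod_cast Fintype.card_pos_iff.mpr ⟨v0⟩
  have hAp : (0 : ℝ) < Fintype.card A := by
    exact_mod_cast Fintype.card_pos
  obtain ⟨act, hact⟩ : ∃ act : S.Ω → Prop, ∀ ω, act ω ↔ ∃ us, pick (S.st ω) = some us ∧
    H.Adj v us.1 ∧ (S.st ω).φ v = none := ⟨_, fun _ => Iff.rfl⟩
  set ν : Option (A × V) → ℝ := fun d => match d with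
    | none => 1 - ε0
    | some _ => ε0 / (Fintype.card A * Fintype.card V) with hνdef
  set Δ : S.Ω → V → Option (A × V) := fun ω o => match pick (S.st ω) with
    | none => none
    | some us => if H.Adj v us.1 ∧ (S.st ω).φ v = none then some (us.1, o) else none with hΔdef
  set upd : (A → Option V) → Option (A × V) → (A → Option V) := fun x d => match d with
    | none => x
    | some p => Function.update x p.1 (some p.2) with hupd
  have hν : ∀ d, 0 < ν d := by
    intro d
    cases d with
    | none => simp only [hνdef]; linarith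
    | some p => simp only [hνdef]; positivity
  have hνs : ∑ d, ν d ≤ 1 := by
    rw [Fintype.sum_option]
    simp only [hνdef]
    rw [Finset.sum_const, Finset.card_univ, Fintype.card_prod, nsmul_eq_mul]
    push_cast
    have : (Fintype.card A : ℝ) * Fintype.card V * (ε0 / (Fintype.card A * Fintype.card V)) = ε0 := by
      field_simp
    rw [this]; linarith
  have key := DD_step hS.pos hS.sum_one (fun ω => optsOf pick v0 (S.st ω))
    (fun ω => optsOf_nonempty hv v0 (hS.pt ω)) (fun ω => f (S.st ω).r)
    (fun ω => (S.st ω).X v) ref act Δ none upd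
    (by
      intro ω ha o _ o' _ h
      obtain ⟨us, h1, h2, h3⟩ := (hact ω).mp ha
      simp only [hΔdef, h1, h2, h3, and_self, if_true, Option.some.injEq, Prod.mk.injEq,
        true_and] at h
      exact h)
    (by
      intro ω ha o
      simp only [hΔdef]
      cases h1 : pick (S.st ω) with
      | none => rfl
      | some us =>
        simp only
        rw [if_neg]
        intro h2
        exact ha ((hact ω).mpr ⟨us, h1, h2.1, h2.2⟩))
    ν hν hνs (ε0 / (Fintype.card A * Fintype.card V))
    (by
      intro ω ha o _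
      obtain ⟨us, h1, h2, h3⟩ := (hact ω).mp ha
      simp only [hΔdef, h1, h2, h3, and_self, if_true, hνdef])
    (stepS H pick v0 S).w (fun p => rfl)
  have e1 : DDv (stepS H pick v0 S) f ref v
      = DD (stepS H pick v0 S).w
        (fun p : (Σ ω : S.Ω, {o // o ∈ optsOf pick v0 (S.st ω)}) => f (S.st p.1).r)
        (fun p => upd ((S.st p.1).X v) (Δ p.1 p.2.1)) ref := by
    have g1 : (fun p : (Σ ω : S.Ω, {o // o ∈ optsOf pick v0 (S.st ω)}) =>
        f ((stepS H pick v0 S).st p).r) = fun p => f (S.st p.1).r := by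
      funext p
      change f (nextPt H pick (S.st p.1) p.2.1).r = _
      unfold nextPt
      cases pick (S.st p.1) <;> rfl
    have g2 : (fun p : (Σ ω : S.Ω, {o // o ∈ optsOf pick v0 (S.st ω)}) =>
        ((stepS H pick v0 S).st p).X v) = fun p => upd ((S.st p.1).X v) (Δ p.1 p.2.1) := by
      funext p
      change (nextPt H pick (S.st p.1) p.2.1).X v = _
      simp only [hΔdef, hupd]
      unfold nextPt
      cases h1 : pick (S.st p.1) with
      | none => rfl
      | some us =>
        simp only [Fox.place]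
        split_ifs <;> rfl
    unfold DDv
    exact congrArg₂ (fun a x => DD (stepS H pick v0 S).w a x ref) g1 g2
  rw [e1]
  refine le_trans (sub_le_sub_right key _) ?_
  -- expectation of the number of entries
  have e2 : Ex (stepS H pick v0 S) (nX v) = Ex S (nX v) + ∑ ω, S.w ω * (if act ω then 1 else 0) := by
    rw [Ex_step]
    unfold Ex
    rw [← Finset.sum_add_distrib]
    refine Finset.sum_congr rfl (fun ω _ => ?_)
    rw [← mul_add]
    congr 1
    have hopt : (0 : ℝ) < (optsOf pick v0 (S.st ω)).card := by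
      exact_mod_cast (optsOf_nonempty hv v0 (hS.pt ω)).card_pos
    rw [div_eq_iff hopt.ne']
    have h1 : ∀ o ∈ optsOf pick v0 (S.st ω), nX v (nextPt H pick (S.st ω) o)
        = nX v (S.st ω) + (if act ω then 1 else 0) := by
      intro o ho
      obtain ⟨p, h⟩ : ∃ p, pick (S.st ω) = p := ⟨_, rfl⟩
      cases p with
      | none =>
        have : ¬ act ω := by
          rw [hact]
          rintro ⟨us, h2, _⟩; rw [h] at h2; exact absurd h2 (by simp)
        rw [nextPt_none h, if_neg this]; ring
      | some us =>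
        rw [nextPt_some h]
        simp only [nX, Fox.place]
        by_cases h2 : H.Adj v us.1 ∧ (S.st ω).φ v = none
        · have ha : act ω := (hact ω).mpr ⟨us, h, h2.1, h2.2⟩
          rw [if_pos h2, if_pos ha]
          have h3 : (S.st ω).X v us.1 = none := by
            by_contra h4
            obtain ⟨y, hy⟩ := Option.ne_none_iff_exists'.mp h4
            have h5 := ((hJB _ (hS.pt ω)).xin v us.1 y hy).1
            rw [(hv _ (hS.pt ω) us h).1] at h5
            exact absurd h5 (by simp)
          rw [plc_update h3]; push_cast; ring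
        · have ha : ¬ act ω := by
            rw [hact]
            rintro ⟨us', h3, h4⟩
            rw [h] at h3
            have : us = us' := by simpa using h3
            subst this
            exact h2 h4
          rw [if_neg h2, if_neg ha]; ring
    rw [Finset.sum_congr rfl h1, Finset.sum_const, nsmul_eq_mul]; ring
  rw [e2]
  have e3 : ∑ ω, S.w ω * (if act ω then - Real.log ((optsOf pick v0 (S.st ω)).card)
        - Real.log (ε0 / (Fintype.card A * Fintype.card V)) else - Real.log (ν none))
      ≤ b * (∑ ω, S.w ω * (if act ω then 1 else 0)) - Real.log (1 - ε0) := by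
    have e4 : b * (∑ ω, S.w ω * (if act ω then 1 else 0)) - Real.log (1 - ε0)
        = ∑ ω, S.w ω * (b * (if act ω then 1 else 0) - Real.log (1 - ε0)) := by
      have : Real.log (1 - ε0) = ∑ ω, S.w ω * Real.log (1 - ε0) := by
        rw [← Finset.sum_mul, hS.sum_one, one_mul]
      conv_lhs => rw [this]
      rw [Finset.mul_sum, ← Finset.sum_sub_distrib]
      refine Finset.sum_congr rfl (fun ω _ => by ring)
    rw [e4]
    refine Finset.sum_le_sum (fun ω _ => mul_le_mul_of_nonneg_left ?_ (hS.pos ω).le)
    have hlog : Real.log (1 - ε0) ≤ 0 := Real.log_nonpos (by linarith) (by linarith)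
    by_cases ha : act ω
    · rw [if_pos ha, if_pos ha]
      obtain ⟨us, h1, h2, h3⟩ := (hact ω).mp ha
      have h4 := hb _ (hS.pt ω) us h1
      have h5 : optsOf pick v0 (S.st ω) = us.2 := by unfold optsOf; rw [h1]
      rw [h5]
      have h6 : Real.log (ε0 / (Fintype.card A * Fintype.card V))
          = - Real.log (Fintype.card A / ε0) - Real.log (Fintype.card V) := by
        rw [Real.log_div hε0.ne' (by positivity), Real.log_mul hAp.ne' hNp.ne',
          Real.log_div hAp.ne' hε0.ne']
        ring
      rw [h6]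
      linarith
    · rw [if_neg ha, if_neg ha]
      simp only [hνdef]
      linarith
  have e5 : DDv S f ref v = DD S.w (fun ω => f (S.st ω).r) (fun ω => (S.st ω).X v) ref := rfl
  rw [← e5]
  have e6 : b * (Ex S (nX v) + ∑ ω, S.w ω * (if act ω then 1 else 0))
      = b * Ex S (nX v) + b * ∑ ω, S.w ω * (if act ω then 1 else 0) := by ring
  rw [e6]
  linarith

/-- iteration -/
def iterS (H : SimpleGraph A) (pick : Pick A V R) (v0 : V) : ℕ → Sys A V R → Sys A V R
  | 0, S => S
  | (n + 1), S => stepS H pick v0 (iterS H pick v0 n S)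

lemma WF.iter {H : SimpleGraph A} {J : Pt A V R → Prop} {w0 : R → ℝ} {pick : Pick A V R}
    (hv : Valid H J pick) (v0 : V) {S : Sys A V R} (hS : WF J w0 S) :
    ∀ n, WF J w0 (iterS H pick v0 n S)
  | 0 => hS
  | (n + 1) => (WF.iter hv v0 hS n).step hv v0

lemma Ex_mono_iter {H : SimpleGraph A} {J : Pt A V R → Prop} {w0 : R → ℝ} {pick : Pick A V R}
    (hv : Valid H J pick) (v0 : V) {S : Sys A V R} (hS : WF J w0 S) (F : Pt A V R → ℝ)
    (hF : ∀ σ, J σ → ∀ us, pick σ = some us → ∀ z ∈ us.2, F (place H σ us.1 us.2 z) ≤ F σ) :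
    ∀ n, Ex (iterS H pick v0 n S) F ≤ Ex S F
  | 0 => le_rfl
  | (n + 1) => le_trans (Ex_mono hv v0 (WF.iter hv v0 hS n) F hF) (Ex_mono_iter hv v0 hS F hF n)

lemma DDv_iter {H : SimpleGraph A} {χ : V → V → Bool} {c : Bool} {J : Pt A V R → Prop}
    {w0 : R → ℝ} {pick : Pick A V R}
    (hv : Valid H J pick) (hJB : ∀ σ, J σ → JB H χ c σ) (v0 : V) {S : Sys A V R}
    (hS : WF J w0 S) {α : Type} [Fintype α] (f : R → α) (ref : α → ℝ) (v : A)
    (ε0 : ℝ) (hε0 : 0 < ε0) (hε1 : ε0 < 1) (b : ℝ)
    (hb : ∀ σ, J σ → ∀ us, pick σ = some us →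
      Real.log (Fintype.card V) - Real.log us.2.card
        + Real.log (Fintype.card A / ε0) ≤ b) :
    ∀ n : ℕ, DDv (iterS H pick v0 n S) f ref v - b * Ex (iterS H pick v0 n S) (nX v)
      ≤ DDv S f ref v - b * Ex S (nX v) - n * Real.log (1 - ε0)
  | 0 => by simp [iterS]
  | (n + 1) => by
      have h1 := DDv_step hv hJB v0 (WF.iter hv v0 hS n) f ref v ε0 hε0 hε1 b hb
      have h2 := DDv_iter hv hJB v0 hS f ref v ε0 hε0 hε1 b hb n
      have h3 : iterS H pick v0 (n + 1) S = stepS H pick v0 (iterS H pick v0 n S) := rfl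
      rw [h3]
      push_cast
      linarith

/-- after `card A` steps the rule has nothing left to do -/
lemma iter_done {H : SimpleGraph A} {J : Pt A V R → Prop} {w0 : R → ℝ} {pick : Pick A V R}
    (hv : Valid H J pick) (v0 : V) {S : Sys A V R} (hS : WF J w0 S) :
    ∀ n, ∀ ω, n ≤ (plc ((iterS H pick v0 n S).st ω).φ).card ∨
      pick ((iterS H pick v0 n S).st ω) = none
  | 0 => fun ω => Or.inl (Nat.zero_le _)
  | (n + 1) => by
      rintro ⟨ω, o, ho⟩
      change n + 1 ≤ (plc (nextPt H pick ((iterS H pick v0 n S).st ω) o).φ).card ∨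
        pick (nextPt H pick ((iterS H pick v0 n S).st ω) o) = none
      unfold nextPt
      cases h : pick ((iterS H pick v0 n S).st ω) with
      | none => right; exact h
      | some us =>
        left
        rcases iter_done hv v0 hS n ω with h1 | h1
        · simp only [Fox.place]
          rw [plc_update (hv _ ((WF.iter hv v0 hS n).pt ω) us h).1]
          omega
        · rw [h] at h1; exact absurd h1 (by simp)

lemma iter_none {H : SimpleGraph A} {J : Pt A V R → Prop} {w0 : R → ℝ} {pick : Pick A V R}
    (hv : Valid H J pick) (v0 : V) {S : Sys A V R} (hS : WF J w0 S) (ω) :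
    pick ((iterS H pick v0 (Fintype.card A) S).st ω) = none := by
  rcases iter_done hv v0 hS (Fintype.card A) ω with h | h
  · by_contra hne
    obtain ⟨us, hus⟩ := Option.ne_none_iff_exists'.mp hne
    have h1 := (hv _ ((WF.iter hv v0 hS _).pt ω) us hus).1
    have h2 : plc ((iterS H pick v0 (Fintype.card A) S).st ω).φ = univ := by
      rw [← Finset.card_eq_iff_eq_univ]
      exact le_antisymm (Finset.card_le_univ _) h
    have h3 : us.1 ∈ plc ((iterS H pick v0 (Fintype.card A) S).st ω).φ := by
      rw [h2]; exact Finset.mem_univ _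
    unfold plc at h3
    exact (Finset.mem_filter.mp h3).2 h1
  · exact h

/-- final counting -/
theorem final_count {H : SimpleGraph A} {χ : V → V → Bool} {c : Bool} {J : Pt A V R → Prop}
    {w0 : R → ℝ} (hw0 : ∀ r, 0 ≤ w0 r) [Fintype R] (hw0s : ∑ r, w0 r ≤ 1)
    (hJB : ∀ σ, J σ → JB H χ c σ) (v0 : V) {S : Sys A V R} (hS : WF J w0 S)
    (hall : ∀ ω v, (S.st ω).φ v ≠ none) :
    Real.exp (- Ex S (fun σ => σ.cost)) * (Fintype.card V : ℝ) ^ (Fintype.card A)
      ≤ ((univ.filter (fun g : A → V => ∀ u v, H.Adj u v → χ (g u) (g v) = c)).card : ℝ) := by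
  set N : ℝ := (Fintype.card V : ℝ) with hN
  have hNp : (0 : ℝ) < N := by
    rw [hN]; exact_mod_cast Fintype.card_pos_iff.mpr ⟨v0⟩
  set C : ℝ := Ex S (fun σ => σ.cost) with hC
  set homs : Finset (A → V) := univ.filter (fun g : A → V => ∀ u v, H.Adj u v → χ (g u) (g v) = c)
    with hhoms
  have hplc : ∀ ω, (plc (S.st ω).φ).card = Fintype.card A := by
    intro ω
    rw [Finset.card_eq_iff_eq_univ]
    ext v; unfold plc; simp [hall ω v]
  -- Jensen
  have h1 : Real.exp (-C) ≤ ∑ ω, S.w ω * Real.exp (-(S.st ω).cost) := by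
    have h2 : ∀ ω, S.w ω * (Real.exp (-C) * (1 - ((S.st ω).cost - C)))
        ≤ S.w ω * Real.exp (-(S.st ω).cost) := by
      intro ω
      refine mul_le_mul_of_nonneg_left ?_ (hS.pos ω).le
      have h3 : Real.exp (-(S.st ω).cost) = Real.exp (-C) * Real.exp (C - (S.st ω).cost) := by
        rw [← Real.exp_add]; congr 1; ring
      rw [h3]
      refine mul_le_mul_of_nonneg_left ?_ (Real.exp_pos _).le
      have := Real.add_one_le_exp (C - (S.st ω).cost)
      linarith
    have h4 : ∑ ω, S.w ω * (Real.exp (-C) * (1 - ((S.st ω).cost - C))) = Real.exp (-C) := by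
      have h5 : ∀ ω, S.w ω * (Real.exp (-C) * (1 - ((S.st ω).cost - C)))
          = Real.exp (-C) * (S.w ω * (1 + C)) - Real.exp (-C) * (S.w ω * (S.st ω).cost) := by
        intro ω; ring
      rw [Finset.sum_congr rfl (fun ω _ => h5 ω), Finset.sum_sub_distrib, ← Finset.mul_sum,
        ← Finset.mul_sum, ← Finset.sum_mul, hS.sum_one]
      have h6 : ∑ ω, S.w ω * (S.st ω).cost = C := rfl
      rw [h6]; ring
    calc Real.exp (-C) = ∑ ω, S.w ω * (Real.exp (-C) * (1 - ((S.st ω).cost - C))) := h4.symm
      _ ≤ _ := Finset.sum_le_sum (fun ω _ => h2 ω)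
  have h2 : ∀ ω, S.w ω * Real.exp (-(S.st ω).cost) = w0 (S.st ω).r / N ^ (Fintype.card A) := by
    intro ω
    rw [hS.hw ω, hplc ω, ← hN, Real.exp_neg]
    have := (Real.exp_pos (S.st ω).cost).ne'
    field_simp
  rw [Finset.sum_congr rfl (fun ω _ => h2 ω), ← Finset.sum_div, le_div_iff₀ (by positivity)] at h1
  refine le_trans h1 ?_
  -- group by root
  have h3 : ∑ ω, w0 (S.st ω).r = ∑ r, ∑ ω ∈ univ.filter (fun ω => (S.st ω).r = r), w0 (S.st ω).r :=
    (Finset.sum_fiberwise_of_maps_to (fun ω _ => Finset.mem_univ _) _).symm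
  have h4 : ∀ r, ∑ ω ∈ univ.filter (fun ω => (S.st ω).r = r), w0 (S.st ω).r
      ≤ w0 r * (homs.card : ℝ) := by
    intro r
    have h5 : ∑ ω ∈ univ.filter (fun ω => (S.st ω).r = r), w0 (S.st ω).r
        = ((univ.filter (fun ω => (S.st ω).r = r)).card : ℝ) * w0 r := by
      rw [← nsmul_eq_mul, ← Finset.sum_const]
      refine Finset.sum_congr rfl (fun ω hω => ?_)
      rw [(Finset.mem_filter.mp hω).2]
    rw [h5, mul_comm]
    refine mul_le_mul_of_nonneg_left ?_ (hw0 r)
    have h6 : (univ.filter (fun ω => (S.st ω).r = r)).card ≤ homs.card := by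
      refine Finset.card_le_card_of_injOn (fun ω v => ((S.st ω).φ v).getD v0) ?_ ?_
      · intro ω _
        simp only [hhoms, Finset.coe_filter, Set.mem_ofPred_eq, Finset.mem_univ, true_and]
        intro u v huv
        obtain ⟨x, hx⟩ := Option.ne_none_iff_exists'.mp (hall ω u)
        obtain ⟨y, hy⟩ := Option.ne_none_iff_exists'.mp (hall ω v)
        rw [hx, hy]
        exact (hJB _ (hS.pt ω)).hom u v x y huv hx hy
      · intro ω hω ω' hω' heq
        by_contra hne
        simp only [Finset.coe_filter, Set.mem_ofPred_eq, Finset.mem_univ, true_and] at hω hω'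
        obtain ⟨u, x, x', h7, h8, h9⟩ := hS.sep ω ω' hne (hω.trans hω'.symm)
        have h10 := congrFun heq u
        simp only [h7, h8, Option.getD_some] at h10
        exact h9 h10
    exact_mod_cast h6
  rw [h3]
  calc ∑ r, ∑ ω ∈ univ.filter (fun ω => (S.st ω).r = r), w0 (S.st ω).r
      ≤ ∑ r, w0 r * (homs.card : ℝ) := Finset.sum_le_sum (fun r _ => h4 r)
    _ = (∑ r, w0 r) * homs.card := by rw [Finset.sum_mul]
    _ ≤ 1 * homs.card := mul_le_mul_of_nonneg_right hw0s (by positivity)
    _ = homs.card := one_mul _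

end

end Pool.Agent.Fox
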