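import Mathlib
import Pool.Agent.Fox.Hosts
import Pool.Agent.Fox.Proc

set_option autoImplicit false
set_option linter.unusedSectionVars false

open Finset
open scoped BigOperators Classical

namespace Pool.Agent.Fox

noncomputable section

variable {V A R : Type} [Fintype A] [Fintype V]

def pn (H : SimpleGraph A) (φ : A → Option V) (v : A) : ℕ :=
  (univ.filter (fun u => H.Adj v u ∧ φ u ≠ none)).card

def degH (H : SimpleGraph A) (v : A) : ℕ := (univ.filter (fun u => H.Adj v u)).card

def Ord (H : SimpleGraph A) (J : ℕ) (φ : A → Option V) : Prop :=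
  (∃ v, φ v = none ∧ 2 ^ J < degH H v) → ∀ u, φ u ≠ none → 2 ^ J < degH H u

structure SI (H : SimpleGraph A) (χ : V → V → Bool) (c : Bool) (J j : ℕ) (F : Finset V)
    (φ : A → Option V) : Prop where
  ne : F.Nonempty
  big : Fintype.card V ≤ F.card * 2 ^ (aa J j)
  posIn : ∀ u y, φ u = some y → y ∈ F
  ord : Ord H J φ
  li : ∀ v, φ v = none → F.card ≤ (listIn H χ c F φ v).card * 2 ^ (2 * hh J j + (J + 5) * pn H φ v)
  typ : NC χ J c F ∨ (BD χ (J + 5) c F (th J j) ∧ (j = J ∨ ∀ v, φ v = none → degH H v < 2 ^ (j + 1)))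

lemma qv_ge (J : ℕ) : 2 * (J + 5) ≤ qv J ∧ 2 * J + 1 ≤ qv J := by
  have h1 : J + 5 ≤ (J + 5) ^ 4 := Nat.le_self_pow (by norm_num) _
  have h2 : qv J = 66 * (J + 5) ^ 4 := by unfold qv; rfl
  omega

lemma hh_ge (J j : ℕ) : qv J ≤ hh J j := by
  unfold hh
  exact Nat.le_mul_of_pos_left _ (by positivity)

lemma pn_le_deg (H : SimpleGraph A) (φ : A → Option V) (v : A) : pn H φ v ≤ degH H v := by
  unfold pn degH
  refine Finset.card_le_card (fun u hu => ?_)
  simp only [Finset.mem_filter, Finset.mem_univ, true_and] at hu ⊢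
  exact hu.1

lemma pn_le (H : SimpleGraph A) (J : ℕ) (hdeg : ∑ v, degH H v ≤ 4 ^ J) (φ : A → Option V)
    (hord : Ord H J φ) (v : A) (hv : φ v = none) : pn H φ v ≤ 2 ^ J := by
  by_cases h : degH H v ≤ 2 ^ J
  · exact le_trans (pn_le_deg H φ v) h
  · push Not at h
    have h1 := hord ⟨v, hv, h⟩
    set B : Finset A := univ.filter (fun u => 2 ^ J < degH H u) with hB
    have h2 : pn H φ v ≤ B.card := by
      unfold pn
      refine Finset.card_le_card (fun u hu => ?_)
      simp only [hB, Finset.mem_filter, Finset.mem_univ, true_and] at hu ⊢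
      exact h1 u hu.2
    have h3 : B.card * 2 ^ J ≤ 2 ^ J * 2 ^ J := by
      calc B.card * 2 ^ J = ∑ u ∈ B, 2 ^ J := by rw [Finset.sum_const, smul_eq_mul]
        _ ≤ ∑ u ∈ B, degH H u := Finset.sum_le_sum (fun u hu => (Finset.mem_filter.mp hu).2.le)
        _ ≤ ∑ u, degH H u := Finset.sum_le_sum_of_subset (Finset.subset_univ _)
        _ ≤ 4 ^ J := hdeg
        _ = 2 ^ J * 2 ^ J := by rw [← mul_pow]; norm_num
    exact le_trans h2 (Nat.le_of_mul_le_mul_right h3 (by positivity))

lemma pn_update_adj (H : SimpleGraph A) (φ : A → Option V) {u v : A} (hu : φ u = none) (z : V)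
    (hadj : H.Adj v u) : pn H (Function.update φ u (some z)) v = pn H φ v + 1 := by
  unfold pn
  have h1 : univ.filter (fun w => H.Adj v w ∧ Function.update φ u (some z) w ≠ none)
      = insert u (univ.filter (fun w => H.Adj v w ∧ φ w ≠ none)) := by
    ext w
    simp only [Finset.mem_filter, Finset.mem_univ, true_and, Finset.mem_insert]
    by_cases hwu : w = u
    · subst hwu; simp [hadj]
    · rw [Function.update_of_ne hwu]; simp [hwu]
  rw [h1, Finset.card_insert_of_notMem]
  simp [hu]

lemma pn_update_not (H : SimpleGraph A) (φ : A → Option V) {u v : A} (z : V)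
    (hadj : ¬ H.Adj v u) : pn H (Function.update φ u (some z)) v = pn H φ v := by
  unfold pn
  congr 1
  ext w
  simp only [Finset.mem_filter, Finset.mem_univ, true_and]
  by_cases hwu : w = u
  · subst hwu; simp [hadj]
  · rw [Function.update_of_ne hwu]

lemma listIn_update_adj (H : SimpleGraph A) (χ : V → V → Bool) (c : Bool) (F : Finset V)
    (φ : A → Option V) {u v : A} (hu : φ u = none) (z : V) (hadj : H.Adj v u) :
    listIn H χ c F (Function.update φ u (some z)) v = nb χ c z (listIn H χ c F φ v) := by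
  unfold listIn nb compat
  ext x
  simp only [Finset.mem_filter]
  constructor
  · rintro ⟨h1, h2⟩
    refine ⟨⟨h1, fun w y hw hy => ?_⟩, h2 u z hadj (Function.update_self _ _ _)⟩
    refine h2 w y hw ?_
    have hwu : w ≠ u := by rintro rfl; rw [hu] at hy; exact absurd hy (by simp)
    rw [Function.update_of_ne hwu]; exact hy
  · rintro ⟨⟨h1, h2⟩, h3⟩
    refine ⟨h1, fun w y hw hy => ?_⟩
    by_cases hwu : w = u
    · subst hwu
      rw [Function.update_self] at hy
      have : z = y := by simpa using hy
      rw [← this]; exact h3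
    · rw [Function.update_of_ne hwu] at hy
      exact h2 w y hw hy

lemma listIn_update_not (H : SimpleGraph A) (χ : V → V → Bool) (c : Bool) (F : Finset V)
    (φ : A → Option V) {u v : A} (z : V) (hadj : ¬ H.Adj v u) :
    listIn H χ c F (Function.update φ u (some z)) v = listIn H χ c F φ v := by
  unfold listIn
  refine Finset.filter_congr (fun x _ => ?_)
  unfold compat
  constructor
  · intro h w y hw hy
    refine h w y hw ?_
    have hwu : w ≠ u := by rintro rfl; exact hadj hw
    rw [Function.update_of_ne hwu]; exact hy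
  · intro h w y hw hy
    have hwu : w ≠ u := by rintro rfl; exact hadj hw
    rw [Function.update_of_ne hwu] at hy
    exact h w y hw hy

lemma nc_list (H : SimpleGraph A) (χ : V → V → Bool) (c : Bool) (J : ℕ) (F : Finset V)
    (φ : A → Option V) (hF : F.Nonempty) (hNC : NC χ J c F)
    (hpos : ∀ u y, φ u = some y → y ∈ F) (v : A) (hpn : pn H φ v ≤ 2 ^ J) :
    F.card ≤ 2 * (listIn H χ c F φ v).card := by
  obtain ⟨x0, hx0⟩ := hF
  set P : Finset A := univ.filter (fun u => H.Adj v u ∧ φ u ≠ none) with hP
  have h1 : F \ listIn H χ c F φ v ⊆ P.biUnion (fun u => nb χ (!c) ((φ u).getD x0) F) := by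
    intro z hz
    simp only [listIn, compat, Finset.mem_sdiff, Finset.mem_filter, not_and, not_forall] at hz
    obtain ⟨hzF, h2⟩ := hz
    obtain ⟨u, y, hadj, hy, hne⟩ := h2 hzF
    simp only [Finset.mem_biUnion, hP, Finset.mem_filter, Finset.mem_univ, true_and, nb]
    refine ⟨u, ⟨hadj, by rw [hy]; simp⟩, hzF, ?_⟩
    rw [hy, Option.getD_some]
    cases h3 : χ y z <;> cases c <;> simp_all
  have h2 : (F \ listIn H χ c F φ v).card * 2 ^ (J + 1) ≤ 2 ^ J * F.card := by
    calc (F \ listIn H χ c F φ v).card * 2 ^ (J + 1)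
        ≤ (∑ u ∈ P, (nb χ (!c) ((φ u).getD x0) F).card) * 2 ^ (J + 1) :=
          Nat.mul_le_mul_right _ (le_trans (Finset.card_le_card h1) Finset.card_biUnion_le)
      _ = ∑ u ∈ P, (nb χ (!c) ((φ u).getD x0) F).card * 2 ^ (J + 1) := by rw [Finset.sum_mul]
      _ ≤ ∑ u ∈ P, F.card := by
          refine Finset.sum_le_sum (fun u hu => ?_)
          simp only [hP, Finset.mem_filter, Finset.mem_univ, true_and] at hu
          obtain ⟨y, hy⟩ := Option.ne_none_iff_exists'.mp hu.2
          rw [hy, Option.getD_some]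
          exact hNC y (hpos u y hy)
      _ = P.card * F.card := by rw [Finset.sum_const, smul_eq_mul]
      _ ≤ 2 ^ J * F.card := Nat.mul_le_mul_right _ hpn
  have h3 : (F \ listIn H χ c F φ v).card * 2 ≤ F.card := by
    have h4 : 2 ^ J * ((F \ listIn H χ c F φ v).card * 2) ≤ 2 ^ J * F.card := by
      calc _ = (F \ listIn H χ c F φ v).card * 2 ^ (J + 1) := by rw [pow_succ]; ring
        _ ≤ _ := h2
    exact Nat.le_of_mul_le_mul_left h4 (by positivity)
  have h5 : (F \ listIn H χ c F φ v).card + (listIn H χ c F φ v).card = F.card := by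
    apply Finset.card_sdiff_add_card_eq_card
    exact Finset.filter_subset _ _
  omega

/-- the placement lemma -/
theorem place_exists (H : SimpleGraph A) (χ : V → V → Bool) (c : Bool) (J j : ℕ) (hj : j ≤ J)
    (hdeg : ∑ v, degH H v ≤ 4 ^ J) (hA : Fintype.card A ≤ 4 ^ J) (F : Finset V)
    (φ : A → Option V) (hSI : SI H χ c J j F φ) (v : A) (hv : φ v = none)
    (hvo : (∃ v', φ v' = none ∧ 2 ^ J < degH H v') → 2 ^ J < degH H v) :
    ∃ S ⊆ F, S.Nonempty ∧ F.card ≤ S.card * 2 ^ (th J j) ∧
      ∀ z ∈ S, compat H χ c φ v z ∧ SI H χ c J j F (Function.update φ v (some z)) := by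
  have hord' : ∀ z, Ord H J (Function.update φ v (some z)) := by
    intro z
    rintro ⟨w, hw1, hw2⟩ u hu
    have hwv : w ≠ v := by
      rintro rfl; rw [Function.update_self] at hw1; exact absurd hw1 (by simp)
    rw [Function.update_of_ne hwv] at hw1
    by_cases huv : u = v
    · subst huv; exact hvo ⟨w, hw1, hw2⟩
    · rw [Function.update_of_ne huv] at hu
      exact hSI.ord ⟨w, hw1, hw2⟩ u hu
  have hpos' : ∀ z ∈ F, ∀ u y, Function.update φ v (some z) u = some y → y ∈ F := by
    intro z hz u y hy
    by_cases huv : u = v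
    · subst huv; rw [Function.update_self] at hy
      have : z = y := by simpa using hy
      rw [← this]; exact hz
    · rw [Function.update_of_ne huv] at hy
      exact hSI.posIn u y hy
  have hFpos : 0 < F.card := hSI.ne.card_pos
  have hh1 : 1 ≤ hh J j := le_trans (by have := (qv_ge J).2; omega) (hh_ge J j)
  rcases hSI.typ with hNC | ⟨hBD, hdj⟩
  · -- near-complete case
    have hl := nc_list H χ c J F φ hSI.ne hNC hSI.posIn v (pn_le H J hdeg φ hSI.ord v hv)
    refine ⟨listIn H χ c F φ v, Finset.filter_subset _ _, ?_, ?_, ?_⟩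
    · rw [← Finset.card_pos]; omega
    · calc F.card ≤ (listIn H χ c F φ v).card * 2 ^ 1 := by omega
        _ ≤ (listIn H χ c F φ v).card * 2 ^ (th J j) :=
          Nat.mul_le_mul_left _ (Nat.pow_le_pow_right (by norm_num) (by
            have := th_ge J j; omega))
    · intro z hz
      have hzF : z ∈ F := (Finset.mem_filter.mp hz).1
      refine ⟨(Finset.mem_filter.mp hz).2, ?_⟩
      refine ⟨hSI.ne, hSI.big, hpos' z hzF, hord' z, ?_, Or.inl hNC⟩
      intro w hw
      have h1 := nc_list H χ c J F _ hSI.ne hNC (hpos' z hzF) w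
        (pn_le H J hdeg _ (hord' z) w hw)
      calc F.card ≤ (listIn H χ c F (Function.update φ v (some z)) w).card * 2 ^ 1 := by omega
        _ ≤ _ := Nat.mul_le_mul_left _ (Nat.pow_le_pow_right (by norm_num) (by omega))
  · -- bi-dense case
    set L : A → Finset V := fun u => listIn H χ c F φ u with hL
    have hpnj : ∀ u, φ u = none → pn H φ u ≤ 2 ^ (j + 1) := by
      intro u hu
      rcases hdj with h | h
      · subst h
        refine le_trans (pn_le H j hdeg φ hSI.ord u hu) (Nat.pow_le_pow_right (by norm_num) (by omega))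
      · exact le_trans (pn_le_deg H φ u) (h u hu).le
    have hexp : ∀ u, φ u = none → 2 * hh J j + (J + 5) * pn H φ u ≤ 3 * hh J j := by
      intro u hu
      have h1 : (J + 5) * pn H φ u ≤ (J + 5) * 2 ^ (j + 1) := Nat.mul_le_mul_left _ (hpnj u hu)
      have h2 : (J + 5) * 2 ^ (j + 1) ≤ hh J j := by
        unfold hh
        calc (J + 5) * 2 ^ (j + 1) = 2 ^ j * (2 * (J + 5)) := by rw [pow_succ]; ring
          _ ≤ 2 ^ j * qv J := Nat.mul_le_mul_left _ (qv_ge J).1
      omega
    have hL3 : ∀ u, φ u = none → F.card ≤ (L u).card * 2 ^ (3 * hh J j) := by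
      intro u hu
      refine le_trans (hSI.li u hu) (Nat.mul_le_mul_left _ (Nat.pow_le_pow_right (by norm_num)
        (hexp u hu)))
    have hLth : ∀ u, φ u = none → F.card ≤ (L u).card * 2 ^ (th J j) := by
      intro u hu
      refine le_trans (hL3 u hu) (Nat.mul_le_mul_left _ (Nat.pow_le_pow_right (by norm_num) ?_))
      unfold th; omega
    set bad : A → Finset V := fun u =>
      F.filter (fun x => (nb χ c x (L u)).card * 2 ^ (J + 5) < (L u).card) with hbad
    have hbadc : ∀ u, φ u = none → (bad u).card * 2 ^ (th J j) ≤ F.card := by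
      intro u hu
      exact (hBD (L u) (Finset.filter_subset _ _) (hLth u hu)).le
    set S : Finset V := (L v).filter (fun z => ∀ u, φ u = none → H.Adj v u →
      (L u).card ≤ (nb χ c z (L u)).card * 2 ^ (J + 5)) with hS
    set U' : Finset A := univ.filter (fun u => φ u = none ∧ H.Adj v u) with hU'
    have h1 : L v \ S ⊆ U'.biUnion bad := by
      intro z hz
      simp only [hS, Finset.mem_sdiff, Finset.mem_filter, not_and, not_forall, not_le] at hz
      obtain ⟨hz1, hz2⟩ := hz
      obtain ⟨u, hu1, hu2, hu3⟩ := hz2 hz1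
      simp only [Finset.mem_biUnion, hU', Finset.mem_filter, Finset.mem_univ, true_and, hbad]
      exact ⟨u, ⟨hu1, hu2⟩, (Finset.mem_filter.mp hz1).1, hu3⟩
    have h2 : (L v \ S).card * 2 ^ (th J j) ≤ 4 ^ J * F.card := by
      calc (L v \ S).card * 2 ^ (th J j)
          ≤ (∑ u ∈ U', (bad u).card) * 2 ^ (th J j) :=
            Nat.mul_le_mul_right _ (le_trans (Finset.card_le_card h1) Finset.card_biUnion_le)
        _ = ∑ u ∈ U', (bad u).card * 2 ^ (th J j) := by rw [Finset.sum_mul]
        _ ≤ ∑ u ∈ U', F.card :=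
            Finset.sum_le_sum (fun u hu => hbadc u (Finset.mem_filter.mp hu).2.1)
        _ = U'.card * F.card := by rw [Finset.sum_const, smul_eq_mul]
        _ ≤ 4 ^ J * F.card := Nat.mul_le_mul_right _ (le_trans (Finset.card_le_univ _) hA)
    have h3 : (L v \ S).card + S.card = (L v).card :=
      Finset.card_sdiff_add_card_eq_card (Finset.filter_subset _ _)
    have h4 : F.card * (4 ^ J + 1) ≤ (L v).card * 2 ^ (th J j) := by
      have e1 : 4 ^ J + 1 ≤ 2 ^ (hh J j) := by
        calc 4 ^ J + 1 ≤ 2 * 4 ^ J := by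
              have : 1 ≤ 4 ^ J := Nat.one_le_pow _ _ (by norm_num)
              omega
          _ = 2 ^ (2 * J + 1) := by rw [pow_succ, pow_mul]; norm_num; ring
          _ ≤ 2 ^ (hh J j) := Nat.pow_le_pow_right (by norm_num)
              (le_trans (qv_ge J).2 (hh_ge J j))
      calc F.card * (4 ^ J + 1) ≤ ((L v).card * 2 ^ (3 * hh J j)) * 2 ^ (hh J j) :=
            Nat.mul_le_mul (hL3 v hv) e1
        _ = (L v).card * 2 ^ (th J j) := by
            rw [mul_assoc, ← pow_add]; congr 2; unfold th; ring
    have h5 : F.card ≤ S.card * 2 ^ (th J j) := by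
      have h6 : (L v).card * 2 ^ (th J j) = (L v \ S).card * 2 ^ (th J j)
          + S.card * 2 ^ (th J j) := by rw [← h3]; ring
      have h7 : F.card * (4 ^ J + 1) = 4 ^ J * F.card + F.card := by ring
      omega
    refine ⟨S, (Finset.filter_subset _ _).trans (Finset.filter_subset _ _), ?_, h5, ?_⟩
    · rw [← Finset.card_pos]
      rcases Nat.eq_zero_or_pos S.card with h6 | h6
      · rw [h6] at h5; omega
      · exact h6
    · intro z hz
      have hz1 := (Finset.mem_filter.mp hz).1
      have hz2 := (Finset.mem_filter.mp hz).2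
      have hzF : z ∈ F := (Finset.mem_filter.mp hz1).1
      refine ⟨(Finset.mem_filter.mp hz1).2, ?_⟩
      refine ⟨hSI.ne, hSI.big, hpos' z hzF, hord' z, ?_, Or.inr ⟨hBD, ?_⟩⟩
      · intro w hw
        have hwv : w ≠ v := by
          rintro rfl; rw [Function.update_self] at hw; exact absurd hw (by simp)
        rw [Function.update_of_ne hwv] at hw
        by_cases hadj : H.Adj w v
        · rw [pn_update_adj H φ hv z hadj, listIn_update_adj H χ c F φ hv z hadj]
          have h6 := hz2 w hw hadj.symm
          calc F.card ≤ (L w).card * 2 ^ (2 * hh J j + (J + 5) * pn H φ w) := hSI.li w hw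
            _ ≤ ((nb χ c z (L w)).card * 2 ^ (J + 5)) * 2 ^ (2 * hh J j + (J + 5) * pn H φ w) :=
              Nat.mul_le_mul_right _ h6
            _ = (nb χ c z (L w)).card * 2 ^ (2 * hh J j + (J + 5) * (pn H φ w + 1)) := by
              rw [mul_assoc, ← pow_add]; congr 2; ring
        · rw [pn_update_not H φ z hadj, listIn_update_not H χ c F φ z hadj]
          exact hSI.li w hw
      · rcases hdj with h | h
        · exact Or.inl h
        · right
          intro w hw
          have hwv : w ≠ v := by
            rintro rfl; rw [Function.update_self] at hw; exact absurd hw (by simp)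
          rw [Function.update_of_ne hwv] at hw
          exact h w hw

end

end Pool.Agent.Fox
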