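import Mathlib
import Pool.Agent.Fox.Place

set_option autoImplicit false
set_option linter.unusedSectionVars false

open Finset
open scoped BigOperators Classical

namespace Pool.Agent.Fox

noncomputable section

variable {V A R : Type} [Fintype A] [Fintype V]

section Exlemmas

lemma Ex_add (S : Sys A V R) (F G : Pt A V R → ℝ) :
    Ex S (fun σ => F σ + G σ) = Ex S F + Ex S G := by
  unfold Ex
  rw [← Finset.sum_add_distrib]
  refine Finset.sum_congr rfl (fun _ _ => by ring)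

lemma Ex_sub (S : Sys A V R) (F G : Pt A V R → ℝ) :
    Ex S (fun σ => F σ - G σ) = Ex S F - Ex S G := by
  unfold Ex
  rw [← Finset.sum_sub_distrib]
  refine Finset.sum_congr rfl (fun _ _ => by ring)

lemma Ex_mul (S : Sys A V R) (a : ℝ) (F : Pt A V R → ℝ) :
    Ex S (fun σ => a * F σ) = a * Ex S F := by
  unfold Ex
  rw [Finset.mul_sum]
  refine Finset.sum_congr rfl (fun _ _ => by ring)

lemma Ex_sum (S : Sys A V R) {ι : Type*} (s : Finset ι) (F : ι → Pt A V R → ℝ) :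
    Ex S (fun σ => ∑ i ∈ s, F i σ) = ∑ i ∈ s, Ex S (F i) := by
  unfold Ex
  rw [Finset.sum_comm]
  refine Finset.sum_congr rfl (fun _ _ => by rw [Finset.mul_sum])

lemma Ex_le {J : Pt A V R → Prop} {w0 : R → ℝ} {S : Sys A V R} (hS : WF J w0 S)
    {F G : Pt A V R → ℝ} (h : ∀ σ, J σ → F σ ≤ G σ) : Ex S F ≤ Ex S G := by
  unfold Ex
  refine Finset.sum_le_sum (fun ω _ => mul_le_mul_of_nonneg_left (h _ (hS.pt ω)) (hS.pos ω).le)

lemma Ex_const {J : Pt A V R → Prop} {w0 : R → ℝ} {S : Sys A V R} (hS : WF J w0 S) (a : ℝ) :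
    Ex S (fun _ => a) = a := by
  unfold Ex
  rw [← Finset.sum_mul, hS.sum_one, one_mul]

lemma Ex_nonneg {J : Pt A V R → Prop} {w0 : R → ℝ} {S : Sys A V R} (hS : WF J w0 S)
    {F : Pt A V R → ℝ} (h : ∀ σ, J σ → 0 ≤ F σ) : 0 ≤ Ex S F := by
  rw [← Ex_const hS 0]
  exact Ex_le hS h

end Exlemmas

/-- eligible vertices in a stage -/
def elig (H : SimpleGraph A) (χ : V → V → Bool) (c : Bool) (j : ℕ) (G : Finset V) (t2 : ℕ)
    (φ : A → Option V) (v : A) : Prop :=
  φ v = none ∧ (2 ^ j ≤ degH H v ∨ (listIn H χ c G φ v).card * 2 ^ t2 < G.card)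

/-- pointwise invariant during a stage -/
def JJ (H : SimpleGraph A) (χ : V → V → Bool) (c : Bool) (J j : ℕ) (cur : R → Finset V)
    (K : R → Prop) (σ : Pt A V R) : Prop :=
  JB H χ c σ ∧ SI H χ c J j (cur σ.r) σ.φ ∧ K σ.r

def pickS (H : SimpleGraph A) (χ : V → V → Bool) (c : Bool) (J j : ℕ) (cur nxt : R → Finset V)
    (t2 : ℕ) : Pick A V R := fun σ =>
  if h : ∃ us : A × Finset V, elig H χ c j (nxt σ.r) t2 σ.φ us.1 ∧ us.2.Nonempty ∧
      (cur σ.r).card ≤ us.2.card * 2 ^ (th J j) ∧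
      ∀ z ∈ us.2, compat H χ c σ.φ us.1 z ∧
        SI H χ c J j (cur σ.r) (Function.update σ.φ us.1 (some z))
  then some h.choose else none

lemma pickS_spec {H : SimpleGraph A} {χ : V → V → Bool} {c : Bool} {J j : ℕ}
    {cur nxt : R → Finset V} {t2 : ℕ} {σ : Pt A V R} {us : A × Finset V}
    (h : pickS H χ c J j cur nxt t2 σ = some us) :
    elig H χ c j (nxt σ.r) t2 σ.φ us.1 ∧ us.2.Nonempty ∧
      (cur σ.r).card ≤ us.2.card * 2 ^ (th J j) ∧
      ∀ z ∈ us.2, compat H χ c σ.φ us.1 z ∧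
        SI H χ c J j (cur σ.r) (Function.update σ.φ us.1 (some z)) := by
  unfold pickS at h
  split_ifs at h with h'
  have h1 : h'.choose = us := by simpa using h
  rw [← h1]
  exact h'.choose_spec

lemma pickS_valid {H : SimpleGraph A} {χ : V → V → Bool} (hχ : ∀ x y, χ x y = χ y x) {c : Bool}
    {J j : ℕ} {cur nxt : R → Finset V} {t2 : ℕ} {K : R → Prop} :
    Valid H (JJ H χ c J j cur K) (pickS H χ c J j cur nxt t2) := by
  intro σ hσ us h
  obtain ⟨h1, h2, h3, h4⟩ := pickS_spec h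
  refine ⟨h1.1, h2, fun z hz => ⟨hσ.1.place hχ h1.1 us.2 (h4 z hz).1, ?_, hσ.2.2⟩⟩
  exact (h4 z hz).2

lemma pickS_none {H : SimpleGraph A} {χ : V → V → Bool} {c : Bool}
    {J j : ℕ} (hj : j ≤ J) (hdeg : ∑ v, degH H v ≤ 4 ^ J) (hA : Fintype.card A ≤ 4 ^ J)
    {cur nxt : R → Finset V} {t2 : ℕ} {K : R → Prop} {σ : Pt A V R}
    (hσ : JJ H χ c J j cur K σ) (h : pickS H χ c J j cur nxt t2 σ = none) (v : A) :
    ¬ elig H χ c j (nxt σ.r) t2 σ.φ v := by
  intro hv
  have hex : ∃ v', elig H χ c j (nxt σ.r) t2 σ.φ v' ∧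
      ((∃ v'', σ.φ v'' = none ∧ 2 ^ J < degH H v'') → 2 ^ J < degH H v') := by
    by_cases h1 : ∃ v'', σ.φ v'' = none ∧ 2 ^ J < degH H v''
    · obtain ⟨w, hw1, hw2⟩ := h1
      refine ⟨w, ⟨hw1, Or.inl ?_⟩, fun _ => hw2⟩
      exact le_trans (Nat.pow_le_pow_right (by norm_num) hj) hw2.le
    · exact ⟨v, hv, fun h2 => absurd h2 h1⟩
  obtain ⟨v', hv', hvo⟩ := hex
  obtain ⟨S, _, hS1, hS2, hS3⟩ := place_exists H χ c J j hj hdeg hA (cur σ.r) σ.φ hσ.2.1 v'
    hv'.1 hvo
  unfold pickS at h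
  rw [dif_pos ⟨(v', S), hv', hS1, hS2, hS3⟩] at h
  exact absurd h (by simp)

/-- badness of the next-level list -/
def badN (H : SimpleGraph A) (χ : V → V → Bool) (c : Bool) (nxt : R → Finset V) (t2 : ℕ)
    (σ : Pt A V R) (v : A) : Prop :=
  (listIn H χ c (nxt σ.r) (σ.X v) v).card * 2 ^ t2 < (nxt σ.r).card

def ecF (H : SimpleGraph A) (j : ℕ) (σ : Pt A V R) : ℝ :=
  (((plc σ.φ).filter (fun u => degH H u < 2 ^ j)).card : ℝ)
def hcF (H : SimpleGraph A) (j : ℕ) (σ : Pt A V R) : ℝ :=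
  (((plc σ.φ).filter (fun u => ¬ degH H u < 2 ^ j)).card : ℝ)
def bpF (H : SimpleGraph A) (χ : V → V → Bool) (c : Bool) (nxt : R → Finset V) (t2 : ℕ)
    (σ : Pt A V R) : ℝ := (((plc σ.φ).filter (fun u => badN H χ c nxt t2 σ u)).card : ℝ)
def bdF (H : SimpleGraph A) (χ : V → V → Bool) (c : Bool) (nxt : R → Finset V) (t2 : ℕ)
    (σ : Pt A V R) : ℝ := ((univ.filter (fun u => badN H χ c nxt t2 σ u)).card : ℝ)
def wt (H : SimpleGraph A) (j : ℕ) (u : A) : ℝ :=
  if degH H u < 2 ^ j then (2 : ℝ) ^ j else (degH H u : ℝ)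
def wtF (H : SimpleGraph A) (j : ℕ) (σ : Pt A V R) : ℝ := ∑ u ∈ plc σ.φ, wt H j u

lemma plc_insert {φ : A → Option V} {u : A} (z : V) :
    plc (Function.update φ u (some z)) = insert u (plc φ) := by
  ext v
  unfold plc
  simp only [Finset.mem_filter, Finset.mem_univ, true_and, Finset.mem_insert]
  by_cases hvu : v = u
  · subst hvu; simp
  · rw [Function.update_of_ne hvu]; simp [hvu]

lemma notMem_plc {φ : A → Option V} {u : A} (hu : φ u = none) : u ∉ plc φ := by
  unfold plc; simp [hu]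

lemma deg_le_wt (H : SimpleGraph A) (j : ℕ) (u : A) : (degH H u : ℝ) ≤ wt H j u := by
  unfold wt
  split_ifs with h
  · have : ((degH H u : ℕ) : ℝ) ≤ ((2 ^ j : ℕ) : ℝ) := by exact_mod_cast h.le
    simpa using this
  · exact le_rfl

lemma F1_place {H : SimpleGraph A} {χ : V → V → Bool} {c : Bool} {j : ℕ}
    {nxt : R → Finset V} {t2 : ℕ} {σ : Pt A V R} (hσ : JB H χ c σ) {u : A} (S : Finset V) (z : V)
    (hel : elig H χ c j (nxt σ.r) t2 σ.φ u) :
    ecF H j (place H σ u S z) - bpF H χ c nxt t2 (place H σ u S z)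
      ≤ ecF H j σ - bpF H χ c nxt t2 σ := by
  have hu := hel.1
  have hbad : ∀ v, v ∈ insert u (plc σ.φ) →
      (badN H χ c nxt t2 (place H σ u S z) v ↔ badN H χ c nxt t2 σ v) := by
    intro v hv
    have hX : (place H σ u S z).X v = σ.X v := by
      simp only [Fox.place]
      rw [if_neg]
      rintro ⟨h1, h2⟩
      rcases Finset.mem_insert.mp hv with h3 | h3
      · subst h3; exact H.loopless.irrefl _ h1
      · exact (Finset.mem_filter.mp h3).2 h2
    unfold badN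
    rw [hX]
    rfl
  have hplc : plc (place H σ u S z).φ = insert u (plc σ.φ) := plc_insert z
  have h1 : bpF H χ c nxt t2 (place H σ u S z)
      = (((insert u (plc σ.φ)).filter (fun v => badN H χ c nxt t2 σ v)).card : ℝ) := by
    unfold bpF
    rw [hplc, Finset.filter_congr hbad]
  have h2 : ecF H j (place H σ u S z)
      = (((insert u (plc σ.φ)).filter (fun v => degH H v < 2 ^ j)).card : ℝ) := by
    unfold ecF
    rw [hplc]
  rw [h1, h2, Finset.filter_insert, Finset.filter_insert]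
  have hn1 : u ∉ (plc σ.φ).filter (fun v => badN H χ c nxt t2 σ v) := fun h =>
    notMem_plc hu (Finset.mem_filter.mp h).1
  have hn2 : u ∉ (plc σ.φ).filter (fun v => degH H v < 2 ^ j) := fun h =>
    notMem_plc hu (Finset.mem_filter.mp h).1
  unfold ecF bpF
  by_cases hd : degH H u < 2 ^ j
  · have hb : badN H χ c nxt t2 σ u := by
      unfold badN
      rw [listIn_X hσ _ hu]
      rcases hel.2 with h3 | h3
      · exact absurd h3 (not_le.mpr hd)
      · exact h3
    rw [if_pos hd, if_pos hb, Finset.card_insert_of_notMem hn1, Finset.card_insert_of_notMem hn2]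
    push_cast; linarith
  · rw [if_neg hd]
    split_ifs
    · rw [Finset.card_insert_of_notMem hn1]; push_cast; linarith
    · exact le_rfl

lemma F2_place {H : SimpleGraph A} {χ : V → V → Bool} {c : Bool} {j : ℕ}
    {σ : Pt A V R} (hσ : JB H χ c σ) {u : A} (S : Finset V) (z : V) (hu : σ.φ u = none) :
    (∑ v, nX v (place H σ u S z)) - wtF H j (place H σ u S z)
      ≤ (∑ v, nX v σ) - wtF H j σ := by
  have h1 : wtF H j (place H σ u S z) = wt H j u + wtF H j σ := by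
    unfold wtF
    have hplc : plc (place H σ u S z).φ = insert u (plc σ.φ) := plc_insert z
    rw [hplc, Finset.sum_insert (notMem_plc hu)]
  have h2 : ∀ v, nX v (place H σ u S z) ≤ nX v σ + (if H.Adj u v then 1 else 0) := by
    intro v
    simp only [nX, Fox.place]
    by_cases h3 : H.Adj v u ∧ σ.φ v = none
    · rw [if_pos h3, if_pos h3.1.symm]
      have h4 : σ.X v u = none := by
        by_contra h4
        obtain ⟨y, hy⟩ := Option.ne_none_iff_exists'.mp h4
        have h5 := (hσ.xin v u y hy).1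
        rw [hu] at h5; exact absurd h5 (by simp)
      rw [plc_update h4]; push_cast; exact le_rfl
    · rw [if_neg h3]
      split_ifs <;> linarith
  have h3 : ∑ v, nX v (place H σ u S z) ≤ ∑ v, nX v σ + (degH H u : ℝ) := by
    calc ∑ v, nX v (place H σ u S z) ≤ ∑ v, (nX v σ + (if H.Adj u v then 1 else 0)) :=
          Finset.sum_le_sum (fun v _ => h2 v)
      _ = ∑ v, nX v σ + (degH H u : ℝ) := by
          rw [Finset.sum_add_distrib]
          congr 1
          unfold degH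
          rw [Finset.card_filter]
          push_cast
          rfl
  have h4 := deg_le_wt H j u
  linarith

lemma hc_le (H : SimpleGraph A) (J j : ℕ) (hdeg : ∑ v, degH H v ≤ 4 ^ J) (σ : Pt A V R) :
    hcF H j σ ≤ (4 : ℝ) ^ J / 2 ^ j := by
  unfold hcF
  rw [le_div_iff₀ (by positivity)]
  have h1 : ((plc σ.φ).filter (fun u => ¬ degH H u < 2 ^ j)).card * 2 ^ j ≤ 4 ^ J := by
    calc _ = ∑ u ∈ (plc σ.φ).filter (fun u => ¬ degH H u < 2 ^ j), 2 ^ j := by
          rw [Finset.sum_const, smul_eq_mul]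
      _ ≤ ∑ u ∈ (plc σ.φ).filter (fun u => ¬ degH H u < 2 ^ j), degH H u :=
          Finset.sum_le_sum (fun u hu => not_lt.mp (Finset.mem_filter.mp hu).2)
      _ ≤ ∑ u, degH H u := Finset.sum_le_sum_of_subset (Finset.subset_univ _)
      _ ≤ 4 ^ J := hdeg
  exact_mod_cast h1

lemma wtF_le (H : SimpleGraph A) (J j : ℕ) (hdeg : ∑ v, degH H v ≤ 4 ^ J) (σ : Pt A V R) :
    wtF H j σ ≤ (4 : ℝ) ^ J + 2 ^ j * ecF H j σ ∧ 2 ^ j * ecF H j σ ≤ wtF H j σ := by
  have h1 : wtF H j σ = 2 ^ j * ecF H j σ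
      + ∑ u ∈ (plc σ.φ).filter (fun u => ¬ degH H u < 2 ^ j), (degH H u : ℝ) := by
    unfold wtF ecF
    rw [← Finset.sum_filter_add_sum_filter_not (plc σ.φ) (fun u => degH H u < 2 ^ j)]
    congr 1
    · rw [mul_comm, ← nsmul_eq_mul, ← Finset.sum_const]
      refine Finset.sum_congr rfl (fun u hu => ?_)
      unfold wt
      rw [if_pos (Finset.mem_filter.mp hu).2]
    · refine Finset.sum_congr rfl (fun u hu => ?_)
      unfold wt
      rw [if_neg (Finset.mem_filter.mp hu).2]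
  have h2 : ∑ u ∈ (plc σ.φ).filter (fun u => ¬ degH H u < 2 ^ j), (degH H u : ℝ) ≤ (4 : ℝ) ^ J := by
    have : ∑ u ∈ (plc σ.φ).filter (fun u => ¬ degH H u < 2 ^ j), degH H u ≤ 4 ^ J :=
      le_trans (Finset.sum_le_sum_of_subset (Finset.subset_univ _)) hdeg
    exact_mod_cast this
  have h3 : 0 ≤ ∑ u ∈ (plc σ.φ).filter (fun u => ¬ degH H u < 2 ^ j), (degH H u : ℝ) :=
    Finset.sum_nonneg (fun _ _ => by positivity)
  constructor <;> linarith

lemma plc_split (H : SimpleGraph A) (j : ℕ) (σ : Pt A V R) :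
    ((plc σ.φ).card : ℝ) = ecF H j σ + hcF H j σ := by
  unfold ecF hcF
  have := Finset.card_filter_add_card_filter_not (s := plc σ.φ) (fun u => degH H u < 2 ^ j)
  exact_mod_cast this.symm

/-- the log-cost bound for a pick -/
lemma pick_cost {H : SimpleGraph A} {χ : V → V → Bool} {c : Bool} {J j : ℕ}
    {cur nxt : R → Finset V} {t2 : ℕ} {K : R → Prop} (v0 : V) {σ : Pt A V R}
    (hσ : JJ H χ c J j cur K σ) {us : A × Finset V}
    (h : pickS H χ c J j cur nxt t2 σ = some us) :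
    Real.log (Fintype.card V) - Real.log us.2.card ≤ ((aa J j + th J j : ℕ) : ℝ) * Real.log 2 := by
  obtain ⟨_, h2, h3, _⟩ := pickS_spec h
  have h4 := hσ.2.1.big
  have h5 : Fintype.card V ≤ us.2.card * 2 ^ (aa J j + th J j) := by
    calc Fintype.card V ≤ (cur σ.r).card * 2 ^ (aa J j) := h4
      _ ≤ (us.2.card * 2 ^ (th J j)) * 2 ^ (aa J j) := Nat.mul_le_mul_right _ h3
      _ = us.2.card * 2 ^ (aa J j + th J j) := by rw [pow_add]; ring
  have hV : (0 : ℝ) < Fintype.card V := by exact_mod_cast Fintype.card_pos_iff.mpr ⟨v0⟩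
  have hU : (0 : ℝ) < us.2.card := by exact_mod_cast h2.card_pos
  have h6 : (Fintype.card V : ℝ) ≤ us.2.card * 2 ^ (aa J j + th J j) := by exact_mod_cast h5
  have h7 := Real.log_le_log hV h6
  rw [Real.log_mul hU.ne' (by positivity), Real.log_pow] at h7
  linarith

/-- numeric consequences of running a stage -/
theorem stage_run {H : SimpleGraph A} {χ : V → V → Bool} (hχ : ∀ x y, χ x y = χ y x) {c : Bool}
    {J j : ℕ} (hj : j ≤ J) (hdeg : ∑ v, degH H v ≤ 4 ^ J) (hA : Fintype.card A ≤ 4 ^ J)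
    (cur nxt : R → Finset V) (t2 : ℕ) (K : R → Prop) (w0 : R → ℝ) (v0 : V)
    (S : Sys A V R) (hS : WF (JJ H χ c J j cur K) w0 S) :
    ∃ S' : Sys A V R, WF (JJ H χ c J j cur K) w0 S' ∧
      (∀ ω v, ¬ elig H χ c j (nxt (S'.st ω).r) t2 (S'.st ω).φ v) ∧
      ∃ P : ℝ,
        (Ex S' (fun σ => σ.cost) ≤ Ex S (fun σ => σ.cost)
          + (((aa J j + th J j : ℕ) : ℝ) * Real.log 2) * ((4 : ℝ) ^ J / 2 ^ j + P)) ∧
        (P ≤ Ex S' (bdF H χ c nxt t2)) ∧
        (∀ {α : Type} [Fintype α] (f : R → α) (ref : α → ℝ) (ε0 : ℝ), 0 < ε0 → ε0 < 1 → ∀ b : ℝ,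
          0 ≤ b → ((aa J j + th J j : ℕ) : ℝ) * Real.log 2 + Real.log (Fintype.card A / ε0) ≤ b →
          ∑ v, DDv S' f ref v ≤ ∑ v, DDv S f ref v
            - Fintype.card A * (Fintype.card A * Real.log (1 - ε0)) + b * ((4 : ℝ) ^ J + 2 ^ j * P)) := by
  set pick := pickS H χ c J j cur nxt t2 with hpick
  have hv : Valid H (JJ H χ c J j cur K) pick := pickS_valid hχ
  set S' := iterS H pick v0 (Fintype.card A) S with hS'
  have hW : WF (JJ H χ c J j cur K) w0 S' := WF.iter hv v0 hS _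
  set b' : ℝ := ((aa J j + th J j : ℕ) : ℝ) * Real.log 2 with hb'
  have hb'0 : 0 ≤ b' := by
    rw [hb']; have := Real.log_pos (by norm_num : (1:ℝ) < 2); positivity
  refine ⟨S', hW, ?_, Ex S' (ecF H j) - Ex S (ecF H j), ?_, ?_, ?_⟩
  · intro ω v
    exact pickS_none hj hdeg hA (hW.pt ω) (iter_none hv v0 hS ω) v
  · have h1 := Ex_mono_iter hv v0 hS (fun σ => σ.cost - b' * ((plc σ.φ).card : ℝ)) (by
      intro σ hσ us hus z hz
      have h2 := pick_cost v0 hσ hus
      simp only [Fox.place]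
      rw [plc_update (pickS_spec hus).1.1]
      push_cast
      push_cast at h2 hb'
      rw [← hb'] at h2
      linarith) (Fintype.card A)
    rw [Ex_sub, Ex_sub, Ex_mul, Ex_mul] at h1
    have h3 : ∀ T : Sys A V R, Ex T (fun σ => ((plc σ.φ).card : ℝ)) = Ex T (ecF H j) + Ex T (hcF H j) := by
      intro T
      rw [← Ex_add]
      unfold Ex
      refine Finset.sum_congr rfl (fun ω _ => ?_)
      change T.w ω * ((plc (T.st ω).φ).card : ℝ) = T.w ω * (ecF H j (T.st ω) + hcF H j (T.st ω))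
      rw [plc_split H j]
    rw [h3, h3] at h1
    have h4 : Ex S' (hcF H j) ≤ (4 : ℝ) ^ J / 2 ^ j := by
      rw [← Ex_const hW ((4 : ℝ) ^ J / 2 ^ j)]
      exact Ex_le hW (fun σ _ => hc_le H J j hdeg σ)
    have h5 : 0 ≤ Ex S (hcF H j) := Ex_nonneg hS (fun σ _ => by unfold hcF; positivity)
    rw [← hS'] at h1
    nlinarith [mul_le_mul_of_nonneg_left h4 hb'0, mul_nonneg hb'0 h5]
  · have h1 := Ex_mono_iter hv v0 hS (fun σ => ecF H j σ - bpF H χ c nxt t2 σ) (by
      intro σ hσ us hus z hz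
      exact F1_place hσ.1 us.2 z (pickS_spec hus).1) (Fintype.card A)
    rw [Ex_sub, Ex_sub, ← hS'] at h1
    have h2 : Ex S' (bpF H χ c nxt t2) ≤ Ex S' (bdF H χ c nxt t2) := Ex_le hW (fun σ _ => by
      unfold bpF bdF
      have : ((plc σ.φ).filter (fun u => badN H χ c nxt t2 σ u)).card
          ≤ (univ.filter (fun u => badN H χ c nxt t2 σ u)).card :=
        Finset.card_le_card (Finset.filter_subset_filter _ (Finset.subset_univ _))
      exact_mod_cast this)
    have h3 : 0 ≤ Ex S (bpF H χ c nxt t2) := Ex_nonneg hS (fun σ _ => by unfold bpF; positivity)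
    linarith
  · intro α _ f ref ε0 hε0 hε1 b hb0 hb
    have h1 : ∀ v, DDv S' f ref v - b * Ex S' (nX v)
        ≤ DDv S f ref v - b * Ex S (nX v) - (Fintype.card A : ℝ) * Real.log (1 - ε0) := by
      intro v
      have := DDv_iter hv (fun σ hσ => hσ.1) v0 hS f ref v ε0 hε0 hε1 b (by
        intro σ hσ us hus
        have h2 := pick_cost v0 hσ hus
        linarith) (Fintype.card A)
      exact this
    have h2 := Finset.sum_le_sum (fun v (_ : v ∈ (univ : Finset A)) => h1 v)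
    rw [Finset.sum_sub_distrib, Finset.sum_sub_distrib, Finset.sum_sub_distrib,
      ← Finset.mul_sum, ← Finset.mul_sum, ← Ex_sum, ← Ex_sum, Finset.sum_const,
      Finset.card_univ, nsmul_eq_mul] at h2
    have h3 := Ex_mono_iter hv v0 hS (fun σ => (∑ v, nX v σ) - wtF H j σ) (by
      intro σ hσ us hus z hz
      exact F2_place hσ.1 us.2 z (pickS_spec hus).1.1) (Fintype.card A)
    rw [Ex_sub, Ex_sub, ← hS'] at h3
    have h4 : Ex S' (wtF H j) ≤ (4 : ℝ) ^ J + 2 ^ j * Ex S' (ecF H j) := by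
      rw [← Ex_mul, ← Ex_const hW ((4 : ℝ) ^ J), ← Ex_add]
      exact Ex_le hW (fun σ _ => (wtF_le H J j hdeg σ).1)
    have h5 : 2 ^ j * Ex S (ecF H j) ≤ Ex S (wtF H j) := by
      rw [← Ex_mul]
      exact Ex_le hS (fun σ _ => (wtF_le H J j hdeg σ).2)
    have h6 : Ex S' (fun σ => ∑ v, nX v σ) - Ex S (fun σ => ∑ v, nX v σ)
        ≤ (4 : ℝ) ^ J + 2 ^ j * (Ex S' (ecF H j) - Ex S (ecF H j)) := by linarith
    have h7 := mul_le_mul_of_nonneg_left h6 hb0
    linarith

end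

end Pool.Agent.Fox
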