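import Mathlib
import Pool.Agent.Fox.Stage

set_option autoImplicit false
set_option linter.unusedSectionVars false

open Finset
open scoped BigOperators Classical

namespace Pool.Agent.Fox

noncomputable section

variable {V A R : Type} [Fintype A] [Fintype V]

/-- root property at a level -/
def KK (χ : V → V → Bool) (J j : ℕ) (nd : R → Node V J j) (cur : R → Finset V) (r : R) : Prop :=
  0 < PI χ J j (nd r) ∧ cur r ⊆ UU χ J j (nd r)

/-- the reference weights for pairs (node, sample) -/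
def refP (χ : V → V → Bool) (J j : ℕ) (z : Node V J j × (Bool × Fin (kk J j) → V)) : ℝ :=
  PI χ J j z.1 * qq χ J j z.1 z.2

lemma refP_nonneg (χ : V → V → Bool) (J j : ℕ) (z : Node V J j × (Bool × Fin (kk J j) → V)) :
    0 ≤ refP χ J j z := mul_nonneg (PI_nonneg χ J j _) (qq_nonneg χ J j _ _)

lemma PI_succ (χ : V → V → Bool) (J j : ℕ) (τ : Node V J (j + 1)) :
    PI χ J (j + 1) τ = refP χ J j (τ false) * refP χ J j (τ true) := by
  have : PI χ J (j + 1) τ = ∏ l : Bool, refP χ J j (τ l) := rfl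
  rw [this, Fintype.prod_bool, mul_comm]

lemma refP_pos (χ : V → V → Bool) (J j : ℕ) (τ : Node V J (j + 1)) (h : 0 < PI χ J (j + 1) τ)
    (l : Bool) : 0 < refP χ J j (τ l) := by
  rw [PI_succ] at h
  have h1 := refP_nonneg χ J j (τ false)
  have h2 := refP_nonneg χ J j (τ true)
  have h3 : refP χ J j (τ false) ≠ 0 := by rintro h4; rw [h4, zero_mul] at h; exact lt_irrefl _ h
  have h4 : refP χ J j (τ true) ≠ 0 := by rintro h4; rw [h4, mul_zero] at h; exact lt_irrefl _ h
  cases l with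
  | false => exact lt_of_le_of_ne h1 (Ne.symm h3)
  | true => exact lt_of_le_of_ne h2 (Ne.symm h4)

lemma refP_pos' (χ : V → V → Bool) (J j : ℕ) (z : Node V J j × (Bool × Fin (kk J j) → V))
    (h : 0 < refP χ J j z) : 0 < PI χ J j z.1 ∧ 0 < qq χ J j z.1 z.2 ∧
      ∀ p, z.2 p ∈ WW χ J j z.1 := by
  unfold refP at h
  have h1 := PI_nonneg χ J j z.1
  have h2 := qq_nonneg χ J j z.1 z.2
  have h3 : PI χ J j z.1 ≠ 0 := by rintro h4; rw [h4, zero_mul] at h; exact lt_irrefl _ h
  have h4 : qq χ J j z.1 z.2 ≠ 0 := by rintro h4; rw [h4, mul_zero] at h; exact lt_irrefl _ h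
  refine ⟨lt_of_le_of_ne h1 (Ne.symm h3), lt_of_le_of_ne h2 (Ne.symm h4), ?_⟩
  intro p
  by_contra hp
  apply h4
  unfold qq
  exact Finset.prod_eq_zero (Finset.mem_univ p) (if_neg hp)

/-- test function for the variational bound -/
def gt (H : SimpleGraph A) (χ : V → V → Bool) (c : Bool) (J j : ℕ) (v : A)
    (z : Node V J j × (Bool × Fin (kk J j) → V)) (x : A → Option V) : ℝ :=
  ∏ p : Bool × Fin (kk J j), (if p.1 = c then
    (if z.2 p ∈ listIn H χ c (WW χ J j z.1) x v then
      ((WW χ J j z.1).card : ℝ) / ((listIn H χ c (WW χ J j z.1) x v).card : ℝ) else 0) else 1)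

lemma gt_nonneg (H : SimpleGraph A) (χ : V → V → Bool) (c : Bool) (J j : ℕ) (v : A)
    (z : Node V J j × (Bool × Fin (kk J j) → V)) (x : A → Option V) :
    0 ≤ gt H χ c J j v z x := by
  unfold gt
  refine Finset.prod_nonneg (fun p _ => ?_)
  split_ifs <;> positivity

lemma gt_sum (H : SimpleGraph A) (χ : V → V → Bool) (c : Bool) (J j : ℕ) (v : A)
    (x : A → Option V) : ∑ z, refP χ J j z * gt H χ c J j v z x ≤ 1 := by
  have h1 : ∑ z, refP χ J j z * gt H χ c J j v z x
      = ∑ τ, PI χ J j τ * ∑ T : Bool × Fin (kk J j) → V,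
        (qq χ J j τ T * gt H χ c J j v (τ, T) x) := by
    rw [Fintype.sum_prod_type]
    refine Finset.sum_congr rfl (fun τ _ => ?_)
    rw [Finset.mul_sum]
    refine Finset.sum_congr rfl (fun T _ => ?_)
    unfold refP
    ring
  rw [h1]
  have h2 : ∀ τ : Node V J j, ∑ T : Bool × Fin (kk J j) → V,
      (qq χ J j τ T * gt H χ c J j v (τ, T) x) ≤ 1 := by
    intro τ
    set W := WW χ J j τ with hW
    set L := listIn H χ c W x v with hL
    have hLW : L ⊆ W := Finset.filter_subset _ _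
    have h3 : ∀ T : Bool × Fin (kk J j) → V, qq χ J j τ T * gt H χ c J j v (τ, T) x
        = ∏ p : Bool × Fin (kk J j), ((if T p ∈ W then ((W.card : ℝ))⁻¹ else 0) *
          (if p.1 = c then (if T p ∈ L then (W.card : ℝ) / (L.card : ℝ) else 0) else 1)) := by
      intro T
      rw [Finset.prod_mul_distrib]
      rfl
    rw [Finset.sum_congr rfl (fun T _ => h3 T)]
    rw [sum_prod_pi (fun (p : Bool × Fin (kk J j)) (y : V) =>
      ((if y ∈ W then ((W.card : ℝ))⁻¹ else 0) *
          (if p.1 = c then (if y ∈ L then (W.card : ℝ) / (L.card : ℝ) else 0) else 1)))]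
    refine Finset.prod_le_one (fun p _ => Finset.sum_nonneg (fun y _ => ?_)) (fun p _ => ?_)
    · split_ifs <;> positivity
    · by_cases hp : p.1 = c
      · simp only [hp, if_true]
        have h4 : ∀ y : V, (if y ∈ W then ((W.card : ℝ))⁻¹ else 0) *
            (if y ∈ L then (W.card : ℝ) / (L.card : ℝ) else 0)
            = if y ∈ L then ((L.card : ℝ))⁻¹ else 0 := by
          intro y
          by_cases hy : y ∈ L
          · rw [if_pos hy, if_pos hy, if_pos (hLW hy)]
            have h5 : (W.card : ℝ) ≠ 0 := by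
              have : 0 < W.card := Finset.card_pos.mpr ⟨y, hLW hy⟩
              exact_mod_cast this.ne'
            field_simp
          · rw [if_neg hy, if_neg hy, mul_zero]
        rw [Finset.sum_congr rfl (fun y _ => h4 y)]
        exact sum_unif_le L
      · simp only [hp, if_false, mul_one]
        exact sum_unif_le W
  calc ∑ τ, PI χ J j τ * ∑ T : Bool × Fin (kk J j) → V,
        (qq χ J j τ T * gt H χ c J j v (τ, T) x)
      ≤ ∑ τ, PI χ J j τ * 1 :=
        Finset.sum_le_sum (fun τ _ => mul_le_mul_of_nonneg_left (h2 τ) (PI_nonneg χ J j τ))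
    _ = ∑ τ, PI χ J j τ := by simp
    _ ≤ 1 := sum_PI_le χ J j

/-- value of the test function when the sample lies in the list -/
lemma gt_log (H : SimpleGraph A) (χ : V → V → Bool) (c : Bool) (J j : ℕ) (v : A)
    (z : Node V J j × (Bool × Fin (kk J j) → V)) (x : A → Option V)
    (hT : ∀ t, z.2 (c, t) ∈ listIn H χ c (WW χ J j z.1) x v) :
    0 < gt H χ c J j v z x ∧ Real.log (gt H χ c J j v z x)
      = (kk J j : ℝ) * Real.log (((WW χ J j z.1).card : ℝ)
        / ((listIn H χ c (WW χ J j z.1) x v).card : ℝ)) := by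
  set W := WW χ J j z.1 with hW
  set L := listIn H χ c W x v with hL
  have hLW : L ⊆ W := Finset.filter_subset _ _
  have hLp : 0 < L.card := Finset.card_pos.mpr ⟨_, hT ⟨0, kk_pos J j⟩⟩
  have hWp : 0 < W.card := lt_of_lt_of_le hLp (Finset.card_le_card hLW)
  have h1 : gt H χ c J j v z x = ((W.card : ℝ) / (L.card : ℝ)) ^ (kk J j) := by
    have h2 : gt H χ c J j v z x = ∏ p : Bool × Fin (kk J j), (if p.1 = c then
        ((W.card : ℝ) / (L.card : ℝ)) else 1) := by
      unfold gt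
      refine Finset.prod_congr rfl (fun p _ => ?_)
      by_cases hp : p.1 = c
      · rw [if_pos hp, if_pos hp, if_pos]
        have h3 := hT p.2
        have h4 : p = (c, p.2) := by rw [← hp]
        rw [h4]; exact h3
      · rw [if_neg hp, if_neg hp]
    rw [h2, Fintype.prod_prod_type]
    have h3 : ∀ b : Bool, ∏ y : Fin (kk J j), (if ((b, y) : Bool × Fin (kk J j)).1 = c then
        ((W.card : ℝ) / (L.card : ℝ)) else 1)
        = if b = c then ((W.card : ℝ) / (L.card : ℝ)) ^ (kk J j) else 1 := by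
      intro b
      by_cases hb : b = c
      · simp [hb, div_pow]
      · simp [hb]
    rw [Finset.prod_congr rfl (fun b _ => h3 b), Finset.prod_ite_eq' univ c]
    simp
  have h4 : 0 < (W.card : ℝ) / (L.card : ℝ) :=
    div_pos (by exact_mod_cast hWp) (by exact_mod_cast hLp)
  rw [h1]
  exact ⟨pow_pos h4 _, Real.log_pow _ _⟩

/-- one level of the descent -/
theorem level_step {H : SimpleGraph A} {χ : V → V → Bool} (hχ : ∀ x y, χ x y = χ y x) {c : Bool}
    {J j : ℕ} (hj : j + 1 ≤ J) (hdeg : ∑ v, degH H v ≤ 4 ^ J) (hA : Fintype.card A ≤ 4 ^ J)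
    (nd : R → Node V J (j + 1)) (cur : R → Finset V) (w0 : R → ℝ) (v0 : V)
    (S : Sys A V R) (hS : WF (JJ H χ c J (j + 1) cur (KK χ J (j + 1) nd cur)) w0 S)
    (ε0 : ℝ) (hε0 : 0 < ε0) (hε1 : ε0 < 1) (b : ℝ) (hb0 : 0 ≤ b)
    (hb : ((aa J (j + 1) + th J (j + 1) : ℕ) : ℝ) * Real.log 2
      + Real.log (Fintype.card A / ε0) ≤ b) :
    ∃ (nd' : R → Node V J j) (cur' : R → Finset V) (S' : Sys A V R) (P D1 : ℝ),
      WF (JJ H χ c J j cur' (KK χ J j nd' cur')) w0 S' ∧
      (Ex S' (fun σ => σ.cost) ≤ Ex S (fun σ => σ.cost)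
          + (((aa J (j + 1) + th J (j + 1) : ℕ) : ℝ) * Real.log 2)
            * ((4 : ℝ) ^ J / 2 ^ (j + 1) + P)) ∧
      (∑ v, DDv S' nd' (PI χ J j) v ≤ D1) ∧
      (P * ((kk J j : ℝ) * ((2 * hh J j : ℕ) : ℝ) * Real.log 2) ≤ D1) ∧ 0 ≤ D1 ∧
      (2 * (D1 + Fintype.card A * (Fintype.card A * Real.log (1 - ε0))
          - b * ((4 : ℝ) ^ J + 2 ^ (j + 1) * P))
        ≤ ∑ v, DDv S nd (PI χ J (j + 1)) v) := by
  -- choice of the child
  have hpos : ∀ ω l, 0 < refP χ J j (nd (S.st ω).r l) := fun ω l =>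
    refP_pos χ J j _ (hS.pt ω).2.2.1 l
  have hsplit : ∀ v, DDv S (fun r => nd r false) (refP χ J j) v
      + DDv S (fun r => nd r true) (refP χ J j) v ≤ DDv S nd (PI χ J (j + 1)) v := by
    intro v
    exact DD_split hS.pos hS.sum_one (fun ω => nd (S.st ω).r) (fun ω => (S.st ω).X v)
      (PI χ J (j + 1))
      (Equiv.boolArrowEquivProd (Node V J j × (Bool × Fin (kk J j) → V)))
      (refP χ J j) (refP χ J j) (fun τ => PI_succ χ J j τ)
      (fun ω => hpos ω false) (fun ω => hpos ω true)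
  have hsplit2 := Finset.sum_le_sum (fun v (_ : v ∈ (univ : Finset A)) => hsplit v)
  rw [Finset.sum_add_distrib] at hsplit2
  have hl : ∃ l : Bool, 2 * ∑ v, DDv S (fun r => nd r l) (refP χ J j) v
      ≤ ∑ v, DDv S nd (PI χ J (j + 1)) v := by
    by_cases h : ∑ v, DDv S (fun r => nd r false) (refP χ J j) v
        ≤ ∑ v, DDv S (fun r => nd r true) (refP χ J j) v
    · exact ⟨false, by linarith⟩
    · exact ⟨true, by linarith⟩
  obtain ⟨l, hl⟩ := hl
  set nd' : R → Node V J j := fun r => (nd r l).1 with hnd'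
  set cur' : R → Finset V := fun r => WW χ J j (nd r l).1 with hcur'
  set t2 : ℕ := 2 * hh J j with ht2
  obtain ⟨S', hW, hel, P, hcost, hP, hinfo⟩ := stage_run hχ hj hdeg hA cur cur' t2
    (KK χ J (j + 1) nd cur) w0 v0 S hS
  have hinfo' := hinfo (fun r => nd r l) (refP χ J j) ε0 hε0 hε1 b hb0 hb
  set D1 : ℝ := ∑ v, DDv S' (fun r => nd r l) (refP χ J j) v with hD1
  have hpos' : ∀ ω, 0 < refP χ J j (nd (S'.st ω).r l) := fun ω =>
    refP_pos χ J j _ (hW.pt ω).2.2.1 l
  -- positions lie in the child host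
  have hposin : ∀ ω u y, (S'.st ω).φ u = some y →
      y ∈ WW χ J j (nd (S'.st ω).r l).1 ∧
        ∀ p : Bool × Fin (kk J j), χ y ((nd (S'.st ω).r l).2 p) = p.1 := by
    intro ω u y hy
    have h1 := (hW.pt ω).2.1.posIn u y hy
    have h2 := (hW.pt ω).2.2.2 h1
    have h3 : y ∈ univ.filter (fun x => ∀ l : Bool, x ∈ bdf χ J j (UU χ J j (nd (S'.st ω).r l).1) ∧
      ∀ p : Bool × Fin (kk J j), χ x ((nd (S'.st ω).r l).2 p) = p.1) := h2
    exact (Finset.mem_filter.mp h3).2 l
  have hWne : ∀ ω, (WW χ J j (nd (S'.st ω).r l).1).Nonempty := by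
    intro ω
    have h1 := (refP_pos' χ J j _ (hpos' ω)).2.2
    exact ⟨_, h1 (true, ⟨0, kk_pos J j⟩)⟩
  suffices hmain : (∀ v, ((kk J j : ℝ) * ((2 * hh J j : ℕ) : ℝ) * Real.log 2)
        * Ex S' (fun σ => if badN H χ c cur' t2 σ v then 1 else 0)
        ≤ DDv S' (fun r => nd r l) (refP χ J j) v) by
    have hlog2 : 0 < Real.log 2 := Real.log_pos (by norm_num)
    have hK2 : 0 ≤ ((kk J j : ℝ) * ((2 * hh J j : ℕ) : ℝ) * Real.log 2) := by positivity
    have hbd : Ex S' (bdF H χ c cur' t2)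
        = ∑ v, Ex S' (fun σ => if badN H χ c cur' t2 σ v then 1 else 0) := by
      rw [← Ex_sum]
      unfold Ex
      refine Finset.sum_congr rfl (fun ω _ => ?_)
      congr 1
      unfold bdF
      rw [Finset.card_filter]
      push_cast
      rfl
    refine ⟨nd', cur', S', P, D1, ?_, hcost, ?_, ?_, ?_, ?_⟩
    · refine ⟨hW.pos, hW.sum_one, ?_, hW.hw, hW.sep⟩
      intro ω
      refine ⟨(hW.pt ω).1, ?_, ?_⟩
      · obtain ⟨hbig, hBD⟩ := bdf_spec χ J j _ (hWne ω)
        have hdeglt : ∀ v, (S'.st ω).φ v = none → degH H v < 2 ^ (j + 1) := by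
          intro v hv
          by_contra h
          exact hel ω v ⟨hv, Or.inl (not_lt.mp h)⟩
        refine ⟨hWne ω, hbig, fun u y hy => (hposin ω u y hy).1, ?_, ?_,
          Or.inr ⟨hBD c, Or.inr hdeglt⟩⟩
        · rintro ⟨v, hv1, hv2⟩
          exfalso
          have h1 := hdeglt v hv1
          have h2 : 2 ^ (j + 1) ≤ 2 ^ J := Nat.pow_le_pow_right (by norm_num) hj
          omega
        · intro v hv
          have h1 : ¬ (listIn H χ c (cur' (S'.st ω).r) (S'.st ω).φ v).card * 2 ^ t2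
              < (cur' (S'.st ω).r).card := fun h => hel ω v ⟨hv, Or.inr h⟩
          refine le_trans (not_lt.mp h1) (Nat.mul_le_mul_left _
            (Nat.pow_le_pow_right (by norm_num) ?_))
          rw [ht2]; omega
      · exact ⟨(refP_pos' χ J j _ (hpos' ω)).1, bdf_sub χ J j _⟩
    · rw [hD1]
      refine Finset.sum_le_sum (fun v _ => ?_)
      exact DD_drop hW.pos hW.sum_one (fun ω => nd (S'.st ω).r l) (fun ω => (S'.st ω).X v)
        (PI χ J j) (fun τ T => qq χ J j τ T) (fun τ T => qq_nonneg χ J j τ T)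
        (fun ω => (refP_pos' χ J j _ (hpos' ω)).1) (fun ω => (refP_pos' χ J j _ (hpos' ω)).2.1)
        (fun τ => sum_qq_le χ J j τ)
    · calc P * ((kk J j : ℝ) * ((2 * hh J j : ℕ) : ℝ) * Real.log 2)
          ≤ Ex S' (bdF H χ c cur' t2) * ((kk J j : ℝ) * ((2 * hh J j : ℕ) : ℝ) * Real.log 2) :=
            mul_le_mul_of_nonneg_right hP hK2
        _ = ∑ v, ((kk J j : ℝ) * ((2 * hh J j : ℕ) : ℝ) * Real.log 2)
            * Ex S' (fun σ => if badN H χ c cur' t2 σ v then 1 else 0) := by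
            rw [hbd, mul_comm, Finset.mul_sum]
        _ ≤ D1 := Finset.sum_le_sum (fun v _ => hmain v)
    · rw [hD1]
      refine Finset.sum_nonneg (fun v _ => le_trans (mul_nonneg hK2 ?_) (hmain v))
      exact Ex_nonneg hW (fun σ _ => by split_ifs <;> norm_num)
    · linarith
  -- information bound for exceptional vertices
  have hlog2 : 0 < Real.log 2 := Real.log_pos (by norm_num)
  have hT : ∀ ω v t, (nd (S'.st ω).r l).2 (c, t)
      ∈ listIn H χ c (WW χ J j (nd (S'.st ω).r l).1) ((S'.st ω).X v) v := by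
    intro ω v t
    refine Finset.mem_filter.mpr ⟨(refP_pos' χ J j _ (hpos' ω)).2.2 (c, t), ?_⟩
    intro u y _ hy
    have h1 := (hW.pt ω).1.xin v u y hy
    exact (hposin ω u y h1.1).2 (c, t)
  intro v
  have h1 := DD_ge hW.pos hW.sum_one (fun ω => nd (S'.st ω).r l) (fun ω => (S'.st ω).X v)
    (refP χ J j) (refP_nonneg χ J j) (fun ω => hpos' ω)
    (fun z x => gt H χ c J j v z x) (fun z x => gt_nonneg H χ c J j v z x)
    (fun ω => (gt_log H χ c J j v _ _ (hT ω v)).1) (gt_sum H χ c J j v)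
  refine le_trans ?_ h1
  rw [← Ex_mul]
  unfold Ex
  refine Finset.sum_le_sum (fun ω _ => mul_le_mul_of_nonneg_left ?_ (hW.pos ω).le)
  rw [(gt_log H χ c J j v _ _ (hT ω v)).2]
  set W := WW χ J j (nd (S'.st ω).r l).1 with hWdef
  set L := listIn H χ c W ((S'.st ω).X v) v with hLdef
  have hLW : L ⊆ W := Finset.filter_subset _ _
  have hLp : 0 < L.card := Finset.card_pos.mpr ⟨_, hT ω v ⟨0, kk_pos J j⟩⟩
  have hWp : 0 < W.card := lt_of_lt_of_le hLp (Finset.card_le_card hLW)
  have hLr : (0 : ℝ) < L.card := by exact_mod_cast hLp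
  have hWr : (0 : ℝ) < W.card := by exact_mod_cast hWp
  have hlw : (L.card : ℝ) ≤ W.card := by exact_mod_cast Finset.card_le_card hLW
  have hlog0 : 0 ≤ Real.log ((W.card : ℝ) / L.card) :=
    Real.log_nonneg ((one_le_div hLr).mpr hlw)
  by_cases hbad : badN H χ c cur' t2 (S'.st ω) v
  · simp only [hbad, if_true, mul_one]
    rw [mul_assoc]
    refine mul_le_mul_of_nonneg_left ?_ (by positivity)
    have h2 : L.card * 2 ^ t2 < W.card := hbad
    have h3 : (L.card : ℝ) * 2 ^ t2 ≤ W.card := by exact_mod_cast h2.le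
    have h4 : (2 : ℝ) ^ t2 ≤ (W.card : ℝ) / L.card := by
      rw [le_div_iff₀ hLr]; linarith
    have h5 := Real.log_le_log (by positivity) h4
    rw [Real.log_pow] at h5
    exact h5
  · simp only [hbad, if_false, mul_zero]
    exact mul_nonneg (by positivity) hlog0

end

end Pool.Agent.Fox
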