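import Mathlib
import Pool.Agent.Fox.Level

set_option autoImplicit false
set_option linter.unusedSectionVars false

open Finset
open scoped BigOperators Classical

namespace Pool.Agent.Fox

noncomputable section

section Num

def bet (J : ℕ) : ℕ := 13 * (4 * qv J) * (J + 5) ^ 3

lemma qv_eq (J : ℕ) : qv J = 66 * (J + 5) ^ 4 := by unfold qv; rfl

lemma kap_le (J t : ℕ) (ht : 3 ≤ t) : kap J t ≤ 8 * t * (J + 5) ^ 2 := by
  have h1 : ∀ t, 3 ≤ t → kap1 J t ≤ 2 * t * (J + 5) := by
    intro t ht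
    unfold kap1
    nlinarith
  unfold kap
  have h2 := h1 t ht
  have h3 := h1 (t + kap1 J t) (by omega)
  have h4 : kap1 J (t + kap1 J t) ≤ 2 * (t + 2 * t * (J + 5)) * (J + 5) :=
    le_trans h3 (Nat.mul_le_mul_right _ (Nat.mul_le_mul_left _ (Nat.add_le_add_left h2 _)))
  have h5 : 2 * (t + 2 * t * (J + 5)) * (J + 5) + 2 * t * (J + 5) ≤ 8 * t * (J + 5) ^ 2 := by
    have h6 : t * (J + 5) * 1 ≤ t * (J + 5) * (J + 5) := Nat.mul_le_mul_left _ (by omega)
    nlinarith
  omega

lemma aa_bound (J : ℕ) : ∀ i, aa J i ≤ 2 ^ i * ((i + 1) * (11 * (4 * qv J) * (J + 5) ^ 2)) := by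
  have hq : 66 ≤ qv J := by
    rw [qv_eq]
    exact Nat.le_mul_of_pos_right _ (by positivity)
  intro i
  induction i with
  | zero =>
    have h1 := kap_le J (th J 0) (by unfold th hh; omega)
    have h2 : th J 0 = 4 * qv J := by unfold th hh; ring
    rw [h2] at h1
    change kap J (th J 0) + 3 ≤ _
    rw [h2]
    have h3 : 1 ≤ (J + 5) ^ 2 := Nat.one_le_pow _ _ (by omega)
    nlinarith
  | succ i ih =>
    have h1 := kap_le J (th J (i + 1)) (by
      unfold th hh
      have : 1 ≤ 2 ^ (i + 1) := Nat.one_le_two_pow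
      nlinarith)
    have h2 : th J (i + 1) = 2 ^ (i + 1) * (4 * qv J) := by unfold th hh; ring
    rw [h2] at h1
    change 2 * (aa J i + 1 + 2 * kk J i * (J + 5)) + kap J (th J (i + 1)) + 3 ≤ _
    rw [h2]
    have h3 : kk J i = 2 ^ i * (4 * qv J) := by unfold kk hh; ring
    rw [h3]
    set Λ := 4 * qv J with hΛ
    set s := J + 5 with hs
    set p := 2 ^ i with hp
    have hp1 : 1 ≤ p := Nat.one_le_two_pow
    have h4 : 2 ^ (i + 1) = 2 * p := by rw [pow_succ]; ring
    rw [h4] at h1 ⊢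
    have h5 : 1 ≤ s ^ 2 := Nat.one_le_pow _ _ (by omega)
    have h6 : Λ * s ≤ Λ * s ^ 2 := by
      refine Nat.mul_le_mul_left _ ?_
      rw [pow_two]; exact Nat.le_mul_of_pos_left _ (by omega)
    have h7 : 5 + 4 * (p * Λ) * s + 8 * (2 * p * Λ) * s ^ 2 ≤ 2 * p * (11 * Λ * s ^ 2) := by
      have h8 : p * (Λ * s) ≤ p * (Λ * s ^ 2) := Nat.mul_le_mul_left _ h6
      have h9 : 5 ≤ p * (Λ * s ^ 2) := by
        have : 5 ≤ Λ := by omega
        calc 5 ≤ Λ := this
          _ = 1 * (Λ * 1) := by ring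
          _ ≤ p * (Λ * s ^ 2) := Nat.mul_le_mul hp1 (Nat.mul_le_mul_left _ h5)
      nlinarith
    have h10 : 2 * p * ((i + 1 + 1) * (11 * Λ * s ^ 2))
        = 2 * (p * ((i + 1) * (11 * Λ * s ^ 2))) + 2 * p * (11 * Λ * s ^ 2) := by ring
    rw [h10]
    have h11 : 2 * (aa J i + 1 + 2 * (p * Λ) * s) + kap J (2 * p * Λ) + 3
        = 2 * aa J i + (5 + 4 * (p * Λ) * s + kap J (2 * p * Λ)) := by ring
    rw [h11]
    omega

lemma total_bound (J j : ℕ) (hj : j ≤ J) : aa J j + th J j + (6 * J + 1) ≤ 2 ^ j * bet J := by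
  have h1 := aa_bound J j
  have h2 : th J j = 2 ^ j * (4 * qv J) := by unfold th hh; ring
  rw [h2]
  unfold bet
  have hq1 : 6 * J + 1 ≤ 4 * qv J := by
    rw [qv_eq]
    have : J + 5 ≤ (J + 5) ^ 4 := Nat.le_self_pow (by norm_num) _
    omega
  set Λ := 4 * qv J with hΛ
  set s := J + 5 with hs
  have hp1 : 1 ≤ 2 ^ j := Nat.one_le_two_pow
  have hs3 : 1 ≤ s ^ 3 := Nat.one_le_pow _ _ (by omega)
  have h3 : (j + 1) * (11 * Λ * s ^ 2) ≤ 11 * Λ * s ^ 3 := by
    calc (j + 1) * (11 * Λ * s ^ 2) ≤ s * (11 * Λ * s ^ 2) := Nat.mul_le_mul_right _ (by omega)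
      _ = 11 * Λ * s ^ 3 := by ring
  have h4 : 2 ^ j * ((j + 1) * (11 * Λ * s ^ 2)) ≤ 2 ^ j * (11 * Λ * s ^ 3) :=
    Nat.mul_le_mul_left _ h3
  have h5 : 2 ^ j * Λ ≤ 2 ^ j * (Λ * s ^ 3) :=
    Nat.mul_le_mul_left _ (Nat.le_mul_of_pos_right _ (by omega))
  have h6 : Λ ≤ 2 ^ j * Λ := Nat.le_mul_of_pos_left _ (by omega)
  have h7 : 2 ^ j * (13 * Λ * s ^ 3) = 2 ^ j * (11 * Λ * s ^ 3) + 2 ^ j * (Λ * s ^ 3)
      + 2 ^ j * (Λ * s ^ 3) := by ring
  omega

lemma bet_q (J : ℕ) : bet J * (J + 5) ≤ qv J ^ 2 := by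
  unfold bet
  have h1 : 52 * (J + 5) ^ 4 ≤ qv J := by rw [qv_eq]; nlinarith [Nat.zero_le ((J+5)^4)]
  calc 13 * (4 * qv J) * (J + 5) ^ 3 * (J + 5) = (52 * (J + 5) ^ 4) * qv J := by ring
    _ ≤ qv J * qv J := Nat.mul_le_mul_right _ h1
    _ = qv J ^ 2 := by ring

lemma bet_pos (J : ℕ) : 0 < bet J := by
  unfold bet
  have := qv_pos J
  positivity

lemma log_one_sub (ε : ℝ) (h0 : 0 < ε) (h1 : ε ≤ 1/2) : - Real.log (1 - ε) ≤ 2 * ε := by
  have h2 : (0 : ℝ) < 1 - ε := by linarith
  have h3 := Real.log_le_sub_one_of_pos (inv_pos.mpr h2)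
  rw [Real.log_inv] at h3
  have h4 : (1 - ε)⁻¹ - 1 ≤ 2 * ε := by
    rw [sub_le_iff_le_add, inv_le_iff_one_le_mul₀ h2]
    nlinarith
  linarith

end Num

variable {V A : Type} [Fintype A] [Fintype V]

/-- the descent through the levels -/
theorem descend {H : SimpleGraph A} {χ : V → V → Bool} (hχ : ∀ x y, χ x y = χ y x) {c : Bool}
    {J : ℕ} (hdeg : ∑ v, degH H v ≤ 4 ^ J) (hA : Fintype.card A ≤ 4 ^ J)
    (hdeg1 : ∀ v, 1 ≤ degH H v) {R : Type} (w0 : R → ℝ) (v0 : V) :
    ∀ (j : ℕ), j ≤ J → ∀ (nd : R → Node V J j) (cur : R → Finset V) (S : Sys A V R),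
      WF (JJ H χ c J j cur (KK χ J j nd cur)) w0 S →
      ∀ μ : ℝ, 0 ≤ μ →
      ∑ v, DDv S nd (PI χ J j) v ≤ 2 ^ j * μ * Real.log 2 →
      (1 + 1 / ((J : ℝ) + 5)) ^ j * (μ + 3 * j * ((bet J : ℝ) * 4 ^ J))
        ≤ 9 * ((bet J : ℝ) * 4 ^ J) * ((J : ℝ) + 1) →
      ∃ (J' : Pt A V R → Prop) (S' : Sys A V R), (∀ σ, J' σ → JB H χ c σ) ∧ WF J' w0 S' ∧
        (∀ ω v, (S'.st ω).φ v ≠ none) ∧
        Ex S' (fun σ => σ.cost) ≤ Ex S (fun σ => σ.cost)
          + (4 * (j : ℝ) + 1) * ((bet J : ℝ) * 4 ^ J) * Real.log 2 := by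
  have hL : 0 < Real.log 2 := Real.log_pos (by norm_num)
  have hβ : (0 : ℝ) < bet J := by exact_mod_cast bet_pos J
  intro j
  induction j with
  | zero =>
    intro hj nd cur S hS μ hμ _ _
    obtain ⟨S', hW, hel, P, hcost, hP, -⟩ := stage_run hχ hj hdeg hA cur (fun _ => ∅) 0
      (KK χ J 0 nd cur) w0 v0 S hS
    refine ⟨_, S', fun σ hσ => hσ.1, hW, ?_, ?_⟩
    · intro ω v hv
      refine hel ω v ⟨hv, Or.inl ?_⟩
      simpa using hdeg1 v
    · have h1 : Ex S' (bdF H χ c (fun _ : R => (∅ : Finset V)) 0) = 0 := by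
        unfold Ex bdF badN
        simp
      rw [h1] at hP
      have h2 := total_bound J 0 (Nat.zero_le _)
      have h3 : ((aa J 0 + th J 0 : ℕ) : ℝ) ≤ bet J := by
        have : aa J 0 + th J 0 ≤ bet J := by omega
        exact_mod_cast this
      have h4 : (((aa J 0 + th J 0 : ℕ) : ℝ) * Real.log 2) * ((4 : ℝ) ^ J / 2 ^ 0 + P)
          ≤ ((bet J : ℝ) * 4 ^ J) * Real.log 2 := by
        have h5 : (4 : ℝ) ^ J / 2 ^ 0 + P ≤ 4 ^ J := by simp; exact hP
        calc (((aa J 0 + th J 0 : ℕ) : ℝ) * Real.log 2) * ((4 : ℝ) ^ J / 2 ^ 0 + P)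
            ≤ (((aa J 0 + th J 0 : ℕ) : ℝ) * Real.log 2) * 4 ^ J :=
              mul_le_mul_of_nonneg_left h5 (by positivity)
          _ ≤ ((bet J : ℝ) * Real.log 2) * 4 ^ J := by
              refine mul_le_mul_of_nonneg_right ?_ (by positivity)
              exact mul_le_mul_of_nonneg_right h3 hL.le
          _ = _ := by ring
      push_cast at hcost h4 ⊢
      linarith
  | succ j ih =>
    intro hj nd cur S hS μ hμ hM hMx
    set Bb : ℝ := (bet J : ℝ) * 4 ^ J with hBb
    have hBbp : 0 < Bb := by rw [hBb]; positivity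
    have h4J : (1 : ℝ) ≤ 4 ^ J := one_le_pow₀ (by norm_num)
    have hβ1 : (1 : ℝ) ≤ bet J := by exact_mod_cast bet_pos J
    -- choice of ε0 and b
    set ε0 : ℝ := 1 / (2 * (4 : ℝ) ^ J * 4 ^ J) with hε0
    have hε0p : 0 < ε0 := by rw [hε0]; positivity
    have hε0h : ε0 ≤ 1 / 2 := by
      rw [hε0, div_le_div_iff₀ (by positivity) (by norm_num)]
      nlinarith
    set b : ℝ := 2 ^ (j + 1) * (bet J : ℝ) * Real.log 2 with hb
    have hb0 : 0 ≤ b := by rw [hb]; positivity
    have htot := total_bound J (j + 1) hj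
    have htotr : ((aa J (j + 1) + th J (j + 1) : ℕ) : ℝ) + (6 * (J : ℝ) + 1)
        ≤ 2 ^ (j + 1) * (bet J : ℝ) := by exact_mod_cast htot
    have hbb : ((aa J (j + 1) + th J (j + 1) : ℕ) : ℝ) * Real.log 2
        + Real.log (Fintype.card A / ε0) ≤ b := by
      have h1 : Real.log (Fintype.card A / ε0) ≤ (6 * (J : ℝ) + 1) * Real.log 2 := by
        rcases Nat.eq_zero_or_pos (Fintype.card A) with h0 | h0
        · rw [h0]; simp; positivity
        · have h2 : (Fintype.card A : ℝ) / ε0 ≤ 2 ^ (6 * J + 1) := by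
            rw [hε0, div_div_eq_mul_div, div_one]
            have h3 : (Fintype.card A : ℝ) ≤ 4 ^ J := by exact_mod_cast hA
            have h4 : (2 : ℝ) ^ (6 * J + 1) = 4 ^ J * (2 * 4 ^ J * 4 ^ J) := by
              have : (4 : ℝ) = 2 ^ 2 := by norm_num
              rw [this, ← pow_mul, pow_succ]
              have : 6 * J = 2 * J + 2 * J + 2 * J := by ring
              rw [this, pow_add, pow_add]; ring
            rw [h4]
            exact mul_le_mul_of_nonneg_right h3 (by positivity)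
          have h3 : (0 : ℝ) < (Fintype.card A : ℝ) / ε0 :=
            div_pos (by exact_mod_cast h0) hε0p
          have h4 := Real.log_le_log h3 h2
          rw [Real.log_pow] at h4
          push_cast at h4
          exact h4
      rw [hb]
      have h2 := mul_le_mul_of_nonneg_right htotr hL.le
      linarith
    obtain ⟨nd', cur', S', P, D1, hW, hcost, hM', hPK, hD0, hD1⟩ :=
      level_step hχ hj hdeg hA nd cur w0 v0 S hS ε0 hε0p (by linarith) b hb0 hbb
    -- K2 lower bound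
    have hkk : (kk J j : ℝ) * ((2 * hh J j : ℕ) : ℝ) * Real.log 2
        = 8 * 4 ^ j * (qv J : ℝ) ^ 2 * Real.log 2 := by
      have h1 : (kk J j : ℝ) = 4 * (2 ^ j * qv J) := by
        unfold kk hh; push_cast; ring
      have h2 : ((2 * hh J j : ℕ) : ℝ) = 2 * (2 ^ j * qv J) := by
        unfold hh; push_cast; ring
      rw [h1, h2]
      have : (4 : ℝ) ^ j = 2 ^ j * 2 ^ j := by rw [← mul_pow]; norm_num
      rw [this]; ring
    rw [hkk] at hPK
    have hs : (0 : ℝ) < (J : ℝ) + 5 := by positivity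
    have hbq : (bet J : ℝ) * ((J : ℝ) + 5) ≤ (qv J : ℝ) ^ 2 := by exact_mod_cast bet_q J
    have hqp : (0 : ℝ) < (qv J : ℝ) := by exact_mod_cast qv_pos J
    -- absorption
    have habs : b * 2 ^ (j + 1) * P ≤ D1 / (2 * ((J : ℝ) + 5)) := by
      rcases le_or_gt P 0 with hP0 | hP0
      · have h1 : b * 2 ^ (j + 1) * P ≤ 0 :=
          mul_nonpos_of_nonneg_of_nonpos (by positivity) hP0
        exact le_trans h1 (by positivity)
      · rw [le_div_iff₀ (by positivity)]
        calc b * 2 ^ (j + 1) * P * (2 * ((J : ℝ) + 5))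
            = P * (8 * 4 ^ j * ((bet J : ℝ) * ((J : ℝ) + 5)) * Real.log 2) := by
              rw [hb]
              have : (4 : ℝ) ^ j = 2 ^ j * 2 ^ j := by rw [← mul_pow]; norm_num
              rw [this, pow_succ]; ring
          _ ≤ P * (8 * 4 ^ j * (qv J : ℝ) ^ 2 * Real.log 2) := by
              refine mul_le_mul_of_nonneg_left ?_ hP0.le
              refine mul_le_mul_of_nonneg_right ?_ hL.le
              exact mul_le_mul_of_nonneg_left hbq (by positivity)
          _ ≤ D1 := hPK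
    -- overhead
    have hover : - ((Fintype.card A : ℝ) * (Fintype.card A * Real.log (1 - ε0))) ≤ 2 * Real.log 2 := by
      have h1 := log_one_sub ε0 hε0p hε0h
      have h2 : (Fintype.card A : ℝ) ≤ 4 ^ J := by exact_mod_cast hA
      have h3 : (0 : ℝ) ≤ Fintype.card A := by positivity
      have h4 : (Fintype.card A : ℝ) * Fintype.card A ≤ 4 ^ J * 4 ^ J := mul_le_mul h2 h2 h3 (by positivity)
      have h5 : - ((Fintype.card A : ℝ) * (Fintype.card A * Real.log (1 - ε0)))
          ≤ (4 ^ J * 4 ^ J) * (2 * ε0) := by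
        calc - ((Fintype.card A : ℝ) * (Fintype.card A * Real.log (1 - ε0)))
            = ((Fintype.card A : ℝ) * Fintype.card A) * (- Real.log (1 - ε0)) := by ring
          _ ≤ ((Fintype.card A : ℝ) * Fintype.card A) * (2 * ε0) :=
              mul_le_mul_of_nonneg_left h1 (by positivity)
          _ ≤ _ := mul_le_mul_of_nonneg_right h4 (by positivity)
      have h6 : ((4 : ℝ) ^ J * 4 ^ J) * (2 * ε0) = 1 := by
        rw [hε0]; field_simp
      have h7 : (1 : ℝ) / 2 ≤ Real.log 2 := by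
        have := Real.log_two_gt_d9; linarith
      linarith
    -- bound on D1
    set μ' : ℝ := (1 + 1 / ((J : ℝ) + 5)) * (μ + 3 * Bb) with hμ'
    have hμ'0 : 0 ≤ μ' := by rw [hμ']; positivity
    have hD1b : D1 ≤ 2 ^ j * μ' * Real.log 2 := by
      have h1 : D1 ≤ 2 ^ j * μ * Real.log 2 + 2 * Real.log 2 + b * 4 ^ J + D1 / (2 * ((J : ℝ) + 5)) := by
        have h2 : b * ((4 : ℝ) ^ J + 2 ^ (j + 1) * P) = b * 4 ^ J + b * 2 ^ (j + 1) * P := by ring
        have h3 : (2 : ℝ) ^ (j + 1) * μ * Real.log 2 = 2 * (2 ^ j * μ * Real.log 2) := by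
          rw [pow_succ]; ring
        rw [h2] at hD1
        rw [h3] at hM
        linarith
      have h2 : b * 4 ^ J = 2 ^ j * (2 * Bb) * Real.log 2 := by
        rw [hb, hBb, pow_succ]; ring
      have h3 : 2 * Real.log 2 ≤ 2 ^ j * (2 * ((1:ℝ)/2 * 2)) * Real.log 2 := by
        have : (1 : ℝ) ≤ 2 ^ j := one_le_pow₀ (by norm_num)
        nlinarith
      -- use Bb ≥ 2
      have hBb2 : (2 : ℝ) ≤ Bb := by
        have h5 : (2 : ℝ) ≤ bet J := by
          have : 2 ≤ bet J := by
            unfold bet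
            have h6 := qv_pos J
            have h7 : 0 < (J + 5) ^ 3 := by positivity
            nlinarith [Nat.mul_le_mul h6 h7]
          exact_mod_cast this
        rw [hBb]; nlinarith
      have h4 : 2 * Real.log 2 ≤ 2 ^ j * Bb * Real.log 2 := by
        have : (1 : ℝ) ≤ 2 ^ j := one_le_pow₀ (by norm_num)
        have h5 : (2 : ℝ) ≤ 2 ^ j * Bb := by nlinarith
        exact mul_le_mul_of_nonneg_right h5 hL.le
      have h5 : D1 * (1 - 1 / (2 * ((J : ℝ) + 5))) ≤ 2 ^ j * (μ + 3 * Bb) * Real.log 2 := by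
        have : D1 * (1 - 1 / (2 * ((J : ℝ) + 5))) = D1 - D1 / (2 * ((J : ℝ) + 5)) := by ring
        rw [this]; linarith
      have h6 : 1 ≤ (1 + 1 / ((J : ℝ) + 5)) * (1 - 1 / (2 * ((J : ℝ) + 5))) := by
        have h7 : 1 / ((J : ℝ) + 5) ≤ 1 / 5 := by
          rw [div_le_div_iff₀ hs (by norm_num)]
          have : (0 : ℝ) ≤ J := by positivity
          linarith
        have h8 : 0 < 1 / ((J : ℝ) + 5) := by positivity
        have h9 : 1 / (2 * ((J : ℝ) + 5)) = (1 / ((J : ℝ) + 5)) / 2 := by field_simp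
        rw [h9]
        nlinarith
      calc D1 = D1 * 1 := (mul_one _).symm
        _ ≤ D1 * ((1 + 1 / ((J : ℝ) + 5)) * (1 - 1 / (2 * ((J : ℝ) + 5)))) :=
            mul_le_mul_of_nonneg_left h6 hD0
        _ = (1 + 1 / ((J : ℝ) + 5)) * (D1 * (1 - 1 / (2 * ((J : ℝ) + 5)))) := by ring
        _ ≤ (1 + 1 / ((J : ℝ) + 5)) * (2 ^ j * (μ + 3 * Bb) * Real.log 2) :=
            mul_le_mul_of_nonneg_left h5 (by positivity)
        _ = 2 ^ j * μ' * Real.log 2 := by rw [hμ']; ring
    have hr1 : (1 : ℝ) ≤ 1 + 1 / ((J : ℝ) + 5) := by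
      have : 0 ≤ 1 / ((J : ℝ) + 5) := by positivity
      linarith
    -- the new bound on μ'
    have hMx' : (1 + 1 / ((J : ℝ) + 5)) ^ j * (μ' + 3 * j * Bb) ≤ 9 * Bb * ((J : ℝ) + 1) := by
      refine le_trans ?_ hMx
      have h1 : μ' + 3 * j * Bb ≤ (1 + 1 / ((J : ℝ) + 5)) * (μ + 3 * ((j + 1 : ℕ) : ℝ) * Bb) := by
        rw [hμ']
        push_cast
        have h2 : 0 ≤ 3 * (j : ℝ) * Bb := by positivity
        nlinarith [mul_le_mul_of_nonneg_right hr1 h2]
      calc (1 + 1 / ((J : ℝ) + 5)) ^ j * (μ' + 3 * j * Bb)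
          ≤ (1 + 1 / ((J : ℝ) + 5)) ^ j
            * ((1 + 1 / ((J : ℝ) + 5)) * (μ + 3 * ((j + 1 : ℕ) : ℝ) * Bb)) :=
            mul_le_mul_of_nonneg_left h1 (by positivity)
        _ = (1 + 1 / ((J : ℝ) + 5)) ^ (j + 1) * (μ + 3 * ((j + 1 : ℕ) : ℝ) * Bb) := by
            rw [pow_succ]; ring
    have hμ'x : μ' ≤ 9 * Bb * ((J : ℝ) + 1) := by
      refine le_trans ?_ hMx'
      have h1 : (1 : ℝ) ≤ (1 + 1 / ((J : ℝ) + 5)) ^ j := one_le_pow₀ hr1
      have h2 : 0 ≤ 3 * (j : ℝ) * Bb := by positivity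
      nlinarith [mul_le_mul_of_nonneg_right h1 (by linarith : (0:ℝ) ≤ μ' + 3 * j * Bb)]
    obtain ⟨J', S'', hJ', hW'', hall, hcost''⟩ := ih (by omega) nd' cur' S' hW μ' hμ'0
      (le_trans hM' hD1b) hMx'
    refine ⟨J', S'', hJ', hW'', hall, ?_⟩
    -- stage cost
    have hstage : (((aa J (j + 1) + th J (j + 1) : ℕ) : ℝ) * Real.log 2)
        * ((4 : ℝ) ^ J / 2 ^ (j + 1) + P) ≤ 4 * Bb * Real.log 2 := by
      have h1 : ((aa J (j + 1) + th J (j + 1) : ℕ) : ℝ) * Real.log 2 ≤ b := by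
        rw [hb]
        refine mul_le_mul_of_nonneg_right ?_ hL.le
        have : (0 : ℝ) ≤ 6 * (J : ℝ) + 1 := by positivity
        linarith
      have h2 : 0 ≤ ((aa J (j + 1) + th J (j + 1) : ℕ) : ℝ) * Real.log 2 := by positivity
      have h3 : (((aa J (j + 1) + th J (j + 1) : ℕ) : ℝ) * Real.log 2)
          * ((4 : ℝ) ^ J / 2 ^ (j + 1)) ≤ Bb * Real.log 2 := by
        calc _ ≤ b * ((4 : ℝ) ^ J / 2 ^ (j + 1)) :=
              mul_le_mul_of_nonneg_right h1 (by positivity)
          _ = Bb * Real.log 2 := by rw [hb, hBb]; field_simp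
      have h4 : (((aa J (j + 1) + th J (j + 1) : ℕ) : ℝ) * Real.log 2) * P
          ≤ 3 * Bb * Real.log 2 := by
        rcases le_or_gt P 0 with hP0 | hP0
        · have h5 := mul_nonpos_of_nonneg_of_nonpos h2 hP0
          exact le_trans h5 (by positivity)
        · have h5 : (((aa J (j + 1) + th J (j + 1) : ℕ) : ℝ) * Real.log 2) * P ≤ b * P :=
            mul_le_mul_of_nonneg_right h1 hP0.le
          refine le_trans h5 ?_
          -- b P * q^2 * 4 ≤ ...
          have h6 : P * (8 * 4 ^ j * (qv J : ℝ) ^ 2 * Real.log 2)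
              ≤ 2 ^ j * (9 * Bb * ((J : ℝ) + 1)) * Real.log 2 :=
            le_trans hPK (le_trans hD1b (mul_le_mul_of_nonneg_right
              (mul_le_mul_of_nonneg_left hμ'x (by positivity)) hL.le))
          have h7 : P * (8 * 2 ^ j * (qv J : ℝ) ^ 2) ≤ 9 * Bb * ((J : ℝ) + 1) := by
            have e1 : (4 : ℝ) ^ j = 2 ^ j * 2 ^ j := by rw [← mul_pow]; norm_num
            rw [e1] at h6
            have e2 : (0 : ℝ) < 2 ^ j * Real.log 2 := by positivity
            have e3 : (P * (8 * 2 ^ j * (qv J : ℝ) ^ 2)) * (2 ^ j * Real.log 2)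
                ≤ (9 * Bb * ((J : ℝ) + 1)) * (2 ^ j * Real.log 2) := by
              calc _ = P * (8 * (2 ^ j * 2 ^ j) * (qv J : ℝ) ^ 2 * Real.log 2) := by ring
                _ ≤ _ := h6
                _ = _ := by ring
            exact le_of_mul_le_mul_right e3 e2
          have h8 : P * (8 * 2 ^ j * ((bet J : ℝ) * ((J : ℝ) + 5))) ≤ 9 * Bb * ((J : ℝ) + 1) :=
            le_trans (mul_le_mul_of_nonneg_left (mul_le_mul_of_nonneg_left hbq (by positivity))
              hP0.le) h7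
          have h9 : (P * (8 * 2 ^ j * (bet J : ℝ))) * ((J : ℝ) + 5) ≤ (9 * Bb) * ((J : ℝ) + 5) := by
            calc _ = P * (8 * 2 ^ j * ((bet J : ℝ) * ((J : ℝ) + 5))) := by ring
              _ ≤ 9 * Bb * ((J : ℝ) + 1) := h8
              _ ≤ _ := mul_le_mul_of_nonneg_left (by linarith) (by positivity)
          have h10 : P * (8 * 2 ^ j * (bet J : ℝ)) ≤ 9 * Bb := le_of_mul_le_mul_right h9 hs
          have h11 : b * P = (P * (8 * 2 ^ j * (bet J : ℝ))) / 4 * Real.log 2 := by
            rw [hb, pow_succ]; ring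
          rw [h11]
          refine mul_le_mul_of_nonneg_right ?_ hL.le
          linarith
      rw [mul_add]; linarith
    push_cast
    push_cast at hcost hcost'' hstage
    linarith

/-- main counting theorem -/
theorem main_count {H : SimpleGraph A} {χ : V → V → Bool} (hχ : ∀ x y, χ x y = χ y x)
    {J : ℕ} (hdeg : ∑ v, degH H v ≤ 4 ^ J) (hA : Fintype.card A ≤ 4 ^ J)
    (hdeg1 : ∀ v, 1 ≤ degH H v) (hN : ∀ i ≤ J, 2 ^ (aa J i) ≤ Fintype.card V) :
    ∃ c, Real.exp (- ((4 * (J : ℝ) + 1) * ((bet J : ℝ) * 4 ^ J) * Real.log 2))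
        * (Fintype.card V : ℝ) ^ (Fintype.card A)
      ≤ ((univ.filter (fun g : A → V => ∀ u v, H.Adj u v → χ (g u) (g v) = c)).card : ℝ) := by
  have hL : 0 < Real.log 2 := Real.log_pos (by norm_num)
  have hβ : (0 : ℝ) < bet J := by exact_mod_cast bet_pos J
  have hVpos : 0 < Fintype.card V := lt_of_lt_of_le (by positivity) (hN 0 (Nat.zero_le _))
  obtain ⟨v0⟩ := Fintype.card_pos_iff.mp hVpos
  obtain ⟨i, hi, c, Wt, hWsub, hWspec, hmass⟩ := exists_top χ J hχ hN
  refine ⟨c, ?_⟩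
  set N : ℝ := (Fintype.card V : ℝ) with hNdef
  have hNp : 0 < N := by rw [hNdef]; exact_mod_cast hVpos
  -- alive roots
  set alive : Node V J i → Prop := fun r => 0 < PI χ J i r ∧ (Wt r).Nonempty with halive
  set Z : ℝ := ∑ r, if alive r then PI χ J i r else 0 with hZ
  have hZge : (1/2 : ℝ) ^ (aa J i) ≤ Z := by
    have h1 : ∑ r, PI χ J i r * ((Wt r).card : ℝ) ≤ Z * N := by
      rw [hZ, Finset.sum_mul]
      refine Finset.sum_le_sum (fun r _ => ?_)
      by_cases hr : alive r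
      · rw [if_pos hr]
        refine mul_le_mul_of_nonneg_left ?_ hr.1.le
        rw [hNdef]; exact_mod_cast Finset.card_le_univ _
      · rw [if_neg hr, zero_mul]
        simp only [halive, not_and_or, not_lt, Finset.not_nonempty_iff_eq_empty] at hr
        rcases hr with hr | hr
        · have := PI_nonneg χ J i r
          have h2 : PI χ J i r = 0 := le_antisymm hr this
          rw [h2]; simp
        · rw [hr]; simp
    exact le_of_mul_le_mul_right (le_trans hmass h1) hNp
  have hZp : 0 < Z := lt_of_lt_of_le (by positivity) hZge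
  set w0 : Node V J i → ℝ := fun r => if alive r then PI χ J i r / Z else 0 with hw0
  have hw0n : ∀ r, 0 ≤ w0 r := by
    intro r
    simp only [hw0]
    split_ifs with h
    · exact div_nonneg h.1.le hZp.le
    · exact le_rfl
  have hw0s : ∑ r, w0 r = 1 := by
    have h1 : ∑ r, w0 r = (∑ r, if alive r then PI χ J i r else 0) / Z := by
      rw [Finset.sum_div]
      refine Finset.sum_congr rfl (fun r _ => ?_)
      simp only [hw0]
      split_ifs <;> simp
    rw [h1, ← hZ, div_self hZp.ne']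
  -- initial system
  let S0 : Sys A V (Node V J i) :=
    { Ω := {r : Node V J i // alive r}
      inst := inferInstance
      w := fun r => PI χ J i r.1 / Z
      st := fun r => { r := r.1, φ := fun _ => none, X := fun _ _ => none, cost := 0 } }
  have hS0 : WF (JJ H χ c J i Wt (KK χ J i (fun r => r) Wt)) w0 S0 := by
    refine ⟨fun r => div_pos r.2.1 hZp, ?_, ?_, ?_, ?_⟩
    · change ∑ r : {r : Node V J i // alive r}, PI χ J i r.1 / Z = 1
      rw [← Finset.sum_div, div_eq_one_iff_eq hZp.ne', hZ, ← Finset.sum_filter]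
      rw [← Finset.sum_subtype_eq_sum_filter]
      simp
    · intro r
      refine ⟨⟨?_, ?_, ?_⟩, ?_, r.2.1, hWsub _⟩
      · intro v u y hy; exact absurd hy (by simp [S0])
      · intro v _ u _; rfl
      · intro u v x y _ hx _; exact absurd hx (by simp [S0])
      · obtain ⟨h1, h2⟩ := hWspec r.1 r.2.2
        refine ⟨r.2.2, h1, ?_, ?_, ?_, ?_⟩
        · intro u y hy; exact absurd hy (by simp [S0])
        · intro _ u hu; exact absurd rfl hu
        · intro v _
          have h3 : listIn H χ c (Wt r.1) (fun _ => (none : Option V)) v = Wt r.1 := by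
            ext x
            unfold listIn compat
            simp only [Finset.mem_filter]
            constructor
            · exact fun h => h.1
            · intro h
              refine ⟨h, ?_⟩
              intro u y _ hy
              simp at hy
          change (Wt r.1).card ≤ (listIn H χ c (Wt r.1) (fun _ => (none : Option V)) v).card * _
          rw [h3]
          exact Nat.le_mul_of_pos_right _ (by positivity)
        · rcases h2 with h2 | ⟨h2, h3⟩
          · exact Or.inl h2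
          · right
            refine ⟨?_, Or.inl h2⟩
            have : th J i = th J J := by rw [h2]
            rw [this]; exact h3
    · intro r
      change PI χ J i r.1 / Z = w0 r.1 * Real.exp 0 / N ^ (plc (fun _ : A => (none : Option V))).card
      have h1 : (plc (fun _ : A => (none : Option V))).card = 0 := by
        unfold plc; simp
      rw [h1, Real.exp_zero, pow_zero, mul_one, div_one]
      simp only [hw0]
      rw [if_pos r.2]
    · intro r r' hne hr
      exact absurd (Subtype.ext hr) hne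
  -- initial information
  have hD : ∀ v, DDv S0 (fun r => r) (PI χ J i) v ≤ (aa J i : ℝ) * Real.log 2 := by
    intro v
    have h1 : ∀ r : {r : Node V J i // alive r},
        pr S0.w (fun ω => ((S0.st ω).r, (S0.st ω).X v)) ((S0.st r).r, (S0.st r).X v)
          = PI χ J i r.1 / Z := by
      intro r
      unfold pr
      rw [Finset.sum_eq_single r]
      · rw [if_pos rfl]
      · intro ω _ hne
        rw [if_neg]
        intro h3
        exact hne (Subtype.ext (Prod.mk.inj h3).1)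
      · intro h; exact absurd (Finset.mem_univ _) h
    have h2 : ∀ r : {r : Node V J i // alive r},
        pr S0.w (fun ω => (S0.st ω).X v) ((S0.st r).X v) = 1 := by
      intro r
      unfold pr
      rw [← hS0.sum_one]
      refine Finset.sum_congr rfl (fun ω _ => ?_)
      rw [if_pos rfl]
    have h3 : DDv S0 (fun r => r) (PI χ J i) v = - Real.log Z := by
      unfold DDv DD
      have h4 : ∀ r : {r : Node V J i // alive r}, S0.w r *
          (Real.log (pr S0.w (fun ω => ((S0.st ω).r, (S0.st ω).X v)) ((S0.st r).r, (S0.st r).X v))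
          - Real.log (pr S0.w (fun ω => (S0.st ω).X v) ((S0.st r).X v))
          - Real.log (PI χ J i (S0.st r).r)) = S0.w r * (- Real.log Z) := by
        intro r
        rw [h1 r, h2 r, Real.log_one, Real.log_div r.2.1.ne' hZp.ne']
        change S0.w r * (Real.log (PI χ J i r.1) - Real.log Z - 0 - Real.log (PI χ J i r.1)) = _
        ring
      calc _ = ∑ r, S0.w r * (- Real.log Z) := Finset.sum_congr rfl (fun r _ => h4 r)
        _ = - Real.log Z := by rw [← Finset.sum_mul, hS0.sum_one, one_mul]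
    rw [h3]
    have h5 := Real.log_le_log (by positivity) hZge
    rw [Real.log_pow, one_div, Real.log_inv] at h5
    linarith
  set Bb : ℝ := (bet J : ℝ) * 4 ^ J with hBb
  have hBbp : 0 < Bb := by rw [hBb]; positivity
  have hsumD : ∑ v, DDv S0 (fun r => r) (PI χ J i) v ≤ 2 ^ i * Bb * Real.log 2 := by
    calc ∑ v, DDv S0 (fun r => r) (PI χ J i) v ≤ ∑ _v : A, (aa J i : ℝ) * Real.log 2 :=
          Finset.sum_le_sum (fun v _ => hD v)
      _ = (Fintype.card A : ℝ) * ((aa J i : ℝ) * Real.log 2) := by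
          rw [Finset.sum_const, Finset.card_univ, nsmul_eq_mul]
      _ ≤ 4 ^ J * ((2 ^ i * (bet J : ℝ)) * Real.log 2) := by
          have h1 : (Fintype.card A : ℝ) ≤ 4 ^ J := by exact_mod_cast hA
          have h2 : (aa J i : ℝ) ≤ 2 ^ i * (bet J : ℝ) := by
            have := total_bound J i hi
            have h3 : aa J i ≤ 2 ^ i * bet J := by omega
            exact_mod_cast h3
          refine mul_le_mul h1 (mul_le_mul_of_nonneg_right h2 hL.le) (by positivity) (by positivity)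
      _ = 2 ^ i * Bb * Real.log 2 := by rw [hBb]; ring
  have hMx : (1 + 1 / ((J : ℝ) + 5)) ^ i * (Bb + 3 * i * Bb) ≤ 9 * Bb * ((J : ℝ) + 1) := by
    have h1 : (1 + 1 / ((J : ℝ) + 5)) ^ i ≤ 3 := by
      have h2 : 1 + 1 / ((J : ℝ) + 5) ≤ Real.exp (1 / ((J : ℝ) + 5)) := by
        have := Real.add_one_le_exp (1 / ((J : ℝ) + 5)); linarith
      calc (1 + 1 / ((J : ℝ) + 5)) ^ i ≤ (Real.exp (1 / ((J : ℝ) + 5))) ^ i :=
            pow_le_pow_left₀ (by positivity) h2 _
        _ = Real.exp (i * (1 / ((J : ℝ) + 5))) := by rw [← Real.exp_nat_mul]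
        _ ≤ Real.exp 1 := by
            rw [Real.exp_le_exp, mul_one_div, div_le_one (by positivity)]
            have : (i : ℝ) ≤ J := by exact_mod_cast hi
            linarith
        _ ≤ 3 := by have := Real.exp_one_lt_d9; linarith
    have h3 : Bb + 3 * i * Bb ≤ 3 * Bb * ((J : ℝ) + 1) := by
      have : (i : ℝ) ≤ J := by exact_mod_cast hi
      nlinarith
    calc (1 + 1 / ((J : ℝ) + 5)) ^ i * (Bb + 3 * i * Bb)
        ≤ 3 * (3 * Bb * ((J : ℝ) + 1)) := mul_le_mul h1 h3 (by positivity) (by norm_num)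
      _ = _ := by ring
  obtain ⟨J', S', hJ', hW', hall, hcost⟩ := descend hχ hdeg hA hdeg1 w0 v0 i hi (fun r => r) Wt S0
    hS0 Bb hBbp.le hsumD hMx
  have hfin := final_count hw0n hw0s.le hJ' v0 hW' hall
  refine le_trans ?_ hfin
  refine mul_le_mul_of_nonneg_right ?_ (by positivity)
  rw [Real.exp_le_exp, neg_le_neg_iff]
  have hc0 : Ex S0 (fun σ => σ.cost) = 0 := by
    unfold Ex
    refine Finset.sum_eq_zero (fun r _ => ?_)
    change S0.w r * 0 = 0
    ring
  rw [hc0] at hcost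
  refine le_trans hcost ?_
  have : (i : ℝ) ≤ J := by exact_mod_cast hi
  have h1 : 0 ≤ Bb * Real.log 2 := by positivity
  nlinarith

end

end Pool.Agent.Fox
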