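import Mathlib
import Pool.Agent.Fox.Final

set_option autoImplicit false
set_option linter.unusedSectionVars false

open Finset
open scoped BigOperators Classical

namespace Pool.Agent.Fox

noncomputable section

/-! ### From `H` on `Fin k` to its non-isolated part -/

section Iso
variable {k : ℕ} (H : SimpleGraph (Fin k))

/-- the non-isolated vertices -/
abbrev NI : Type := {v : Fin k // ∃ u, H.Adj v u}

/-- the graph induced on the non-isolated vertices -/
def HI : SimpleGraph (NI H) := H.comap Subtype.val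

lemma HI_adj (u v : NI H) : (HI H).Adj u v ↔ H.Adj u.1 v.1 := Iff.rfl

lemma degH_HI (v : NI H) : degH (HI H) v ≤ degH H v.1 := by
  unfold degH
  refine Finset.card_le_card_of_injOn Subtype.val ?_ (fun a _ b _ h => Subtype.ext h)
  intro u hu
  have := (Finset.mem_filter.mp hu).2
  exact Finset.mem_filter.mpr ⟨Finset.mem_univ _, this⟩

lemma one_le_degH_HI (v : NI H) : 1 ≤ degH (HI H) v := by
  obtain ⟨u, hu⟩ := v.2
  unfold degH
  refine Finset.card_pos.mpr ⟨⟨u, v.1, hu.symm⟩, ?_⟩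
  exact Finset.mem_filter.mpr ⟨Finset.mem_univ _, hu⟩

lemma sum_degH : ∑ v, degH H v = 2 * H.edgeSet.ncard := by
  have h1 : ∀ v, degH H v = H.degree v := by
    intro v
    unfold degH
    rw [← SimpleGraph.card_neighborFinset_eq_degree]
    congr 1
    ext u
    simp
  rw [Finset.sum_congr rfl (fun v _ => h1 v), SimpleGraph.sum_degrees_eq_twice_card_edges]
  congr 1
  rw [← SimpleGraph.coe_edgeFinset, Set.ncard_coe_finset]

lemma sum_degH_HI : ∑ v, degH (HI H) v ≤ 2 * H.edgeSet.ncard := by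
  rw [← sum_degH H]
  calc ∑ v : NI H, degH (HI H) v ≤ ∑ v : NI H, degH H v.1 :=
        Finset.sum_le_sum (fun v _ => degH_HI H v)
    _ = ∑ v ∈ univ.filter (fun v => ∃ u, H.Adj v u), degH H v := by
        rw [Finset.sum_subtype (univ.filter (fun v => ∃ u, H.Adj v u))
          (p := fun v => ∃ u, H.Adj v u) (fun x => by simp)]
    _ ≤ ∑ v, degH H v := Finset.sum_le_sum_of_subset (Finset.filter_subset _ _)

lemma card_NI : Fintype.card (NI H) ≤ 2 * H.edgeSet.ncard := by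
  refine le_trans ?_ (sum_degH_HI H)
  calc Fintype.card (NI H) = ∑ _v : NI H, 1 := by simp
    _ ≤ _ := Finset.sum_le_sum (fun v _ => one_le_degH_HI H v)

/-- homomorphisms of `H` in colour `c` versus those of its non-isolated part -/
lemma hom_ext {n : ℕ} (χ : Fin n → Fin n → Bool) (c : Bool) :
    (univ.filter (fun g : NI H → Fin n => ∀ u v, (HI H).Adj u v → χ (g u) (g v) = c)).card
      * n ^ (k - Fintype.card (NI H))
    ≤ (univ.filter (fun g : Fin k → Fin n => ∀ u v, H.Adj u v → χ (g u) (g v) = c)).card := by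
  have hcard : Fintype.card ({v : Fin k // ¬ ∃ u, H.Adj v u} → Fin n)
      = n ^ (k - Fintype.card (NI H)) := by
    rw [Fintype.card_fun, Fintype.card_fin, Fintype.card_subtype_compl, Fintype.card_fin]
  rw [← hcard, ← Finset.card_univ, ← Finset.card_product]
  refine Finset.card_le_card_of_injOn
    (fun q => (Equiv.piEquivPiSubtypeProd (fun v => ∃ u, H.Adj v u) (fun _ => Fin n)).symm q) ?_
    (fun a _ b _ h => (Equiv.injective _) h)
  intro q hq
  obtain ⟨h1, -⟩ := Finset.mem_product.mp hq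
  have h2 := (Finset.mem_filter.mp h1).2
  refine Finset.mem_filter.mpr ⟨Finset.mem_univ _, ?_⟩
  intro u v huv
  have hu : ∃ w, H.Adj u w := ⟨v, huv⟩
  have hv : ∃ w, H.Adj v w := ⟨u, huv.symm⟩
  have h3 := h2 ⟨u, hu⟩ ⟨v, hv⟩ huv
  simp only [Equiv.piEquivPiSubtypeProd_symm_apply, hu, hv, dite_true]
  exact h3

/-- removing non-injective maps -/
lemma hom_inj {n : ℕ} (P : (Fin k → Fin n) → Prop) :
    (univ.filter P).card ≤ (univ.filter (fun f : Fin k ↪ Fin n => P f)).card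
      + (n ^ k - n.descFactorial k) := by
  have h1 : (univ.filter P).card ≤ (univ.filter (fun g : Fin k → Fin n => P g ∧ Function.Injective g)).card
      + (univ.filter (fun g : Fin k → Fin n => ¬ Function.Injective g)).card := by
    refine le_trans (Finset.card_le_card ?_) (Finset.card_union_le _ _)
    intro g hg
    rw [Finset.mem_union, Finset.mem_filter, Finset.mem_filter]
    by_cases hi : Function.Injective g
    · exact Or.inl ⟨Finset.mem_univ _, (Finset.mem_filter.mp hg).2, hi⟩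
    · exact Or.inr ⟨Finset.mem_univ _, hi⟩
  have h2 : (univ.filter (fun g : Fin k → Fin n => ¬ Function.Injective g)).card
      = n ^ k - n.descFactorial k := by
    have h3 := Finset.card_filter_add_card_filter_not (s := (univ : Finset (Fin k → Fin n)))
      (fun g => Function.Injective g)
    have h4 : (univ.filter (fun g : Fin k → Fin n => Function.Injective g)).card = n.descFactorial k := by
      have h5 : Fintype.card (Fin k ↪ Fin n) = n.descFactorial k := by
        rw [Fintype.card_embedding_eq, Fintype.card_fin, Fintype.card_fin]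
      rw [← h5, ← Finset.card_univ]
      refine (Finset.card_bij (s := (univ : Finset (Fin k ↪ Fin n)))
        (fun (f : Fin k ↪ Fin n) _ => (⇑f : Fin k → Fin n)) ?_ ?_ ?_).symm
      · intro f _; exact Finset.mem_filter.mpr ⟨Finset.mem_univ _, f.injective⟩
      · intro f _ f' _ h; exact DFunLike.coe_injective h
      · intro g hg
        exact ⟨⟨g, (Finset.mem_filter.mp hg).2⟩, Finset.mem_univ _, rfl⟩
    have h6 : (univ : Finset (Fin k → Fin n)).card = n ^ k := by
      rw [Finset.card_univ, Fintype.card_fun, Fintype.card_fin, Fintype.card_fin]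
    omega
  have h3 : (univ.filter (fun g : Fin k → Fin n => P g ∧ Function.Injective g)).card
      ≤ (univ.filter (fun f : Fin k ↪ Fin n => P f)).card := by
    have h4 : (univ.filter (fun g : Fin k → Fin n => P g ∧ Function.Injective g))
        ⊆ (univ.filter (fun f : Fin k ↪ Fin n => P f)).image
          (fun f : Fin k ↪ Fin n => (⇑f : Fin k → Fin n)) := by
      intro g hg
      obtain ⟨-, h5, h6⟩ := Finset.mem_filter.mp hg
      exact Finset.mem_image.mpr ⟨⟨g, h6⟩, Finset.mem_filter.mpr ⟨Finset.mem_univ _, h5⟩, rfl⟩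
    exact le_trans (Finset.card_le_card h4) Finset.card_image_le
  omega

end Iso

/-! ### Numbers -/

/-- parameter asymptotics -/
lemma asym (ε : ℝ) (hε : 0 < ε) : ∃ J₀ : ℕ, ∀ J : ℕ, J₀ ≤ J →
    (4 * (J : ℝ) + 1) * (bet J : ℝ) * 8 + 1 ≤ ((4 : ℝ) ^ J / 8) ^ ε := by
  have hr : (1 : ℝ) < (4 : ℝ) ^ ε := Real.one_lt_rpow (by norm_num) hε
  have ht := tendsto_pow_const_div_const_pow_of_one_lt 8 hr
  set C : ℝ := 5 * (3432 * 6 ^ 7) * 8 + 1 with hC
  have hCp : 0 < C := by rw [hC]; positivity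
  have h8 : (0 : ℝ) < (8 : ℝ) ^ ε := Real.rpow_pos_of_pos (by norm_num) _
  have hev := (ht.eventually (gt_mem_nhds (show (0 : ℝ) < 1 / (C * (8 : ℝ) ^ ε) by positivity)))
  obtain ⟨J₁, hJ₁⟩ := Filter.eventually_atTop.mp hev
  refine ⟨max J₁ 1, fun J hJ => ?_⟩
  have hJ1 : 1 ≤ J := le_trans (le_max_right _ _) hJ
  have h1 := hJ₁ J (le_trans (le_max_left _ _) hJ)
  have hJr : (1 : ℝ) ≤ J := by exact_mod_cast hJ1
  have hpow : (0 : ℝ) < ((4 : ℝ) ^ ε) ^ J := by positivity
  rw [div_lt_div_iff₀ hpow (by positivity), one_mul] at h1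
  have h2 : ((4 : ℝ) ^ J / 8) ^ ε = ((4 : ℝ) ^ ε) ^ J / (8 : ℝ) ^ ε := by
    rw [Real.div_rpow (by positivity) (by norm_num)]
    congr 1
    rw [← Real.rpow_natCast, ← Real.rpow_natCast, ← Real.rpow_mul (by norm_num),
      ← Real.rpow_mul (by norm_num), mul_comm]
  rw [h2, le_div_iff₀ h8]
  have hbet : (bet J : ℝ) = 3432 * ((J : ℝ) + 5) ^ 7 := by
    unfold bet
    rw [qv_eq]
    push_cast
    ring
  have h3 : (4 * (J : ℝ) + 1) * (bet J : ℝ) * 8 + 1 ≤ C * (J : ℝ) ^ 8 := by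
    rw [hbet]
    have h4 : ((J : ℝ) + 5) ^ 7 ≤ (6 * (J : ℝ)) ^ 7 :=
      pow_le_pow_left₀ (by positivity) (by linarith) _
    have h5 : 4 * (J : ℝ) + 1 ≤ 5 * J := by linarith
    have h6 : (1 : ℝ) ≤ (J : ℝ) ^ 8 := one_le_pow₀ hJr
    calc (4 * (J : ℝ) + 1) * (3432 * ((J : ℝ) + 5) ^ 7) * 8 + 1
        ≤ (5 * (J : ℝ)) * (3432 * (6 * (J : ℝ)) ^ 7) * 8 + (J : ℝ) ^ 8 := by
          refine add_le_add ?_ h6
          refine mul_le_mul_of_nonneg_right ?_ (by norm_num)
          refine mul_le_mul h5 (mul_le_mul_of_nonneg_left h4 (by norm_num)) (by positivity)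
            (by positivity)
      _ = C * (J : ℝ) ^ 8 := by rw [hC]; ring
  calc ((4 * (J : ℝ) + 1) * (bet J : ℝ) * 8 + 1) * (8 : ℝ) ^ ε
      ≤ (C * (J : ℝ) ^ 8) * (8 : ℝ) ^ ε := mul_le_mul_of_nonneg_right h3 h8.le
    _ = (J : ℝ) ^ 8 * (C * (8 : ℝ) ^ ε) := by ring
    _ ≤ ((4 : ℝ) ^ ε) ^ J := h1.le

/-- the descending factorial is close to the power -/
lemma desc_close (k : ℕ) (γ : ℝ) (hγ : 0 < γ) : ∃ N : ℕ, ∀ n : ℕ, N ≤ n →
    ((n ^ k - n.descFactorial k : ℕ) : ℝ) ≤ γ * (n : ℝ) ^ k := by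
  obtain ⟨N₀, hN₀⟩ := exists_nat_gt ((k : ℝ) ^ 2 / γ)
  refine ⟨max N₀ (k + 1), fun n hn => ?_⟩
  have hn1 : N₀ ≤ n := le_trans (le_max_left _ _) hn
  have hn2 : k + 1 ≤ n := le_trans (le_max_right _ _) hn
  have hnp : (0 : ℝ) < n := by exact_mod_cast (by omega : 0 < n)
  have h1 : (n + 1 - k) ^ k ≤ n.descFactorial k := Nat.pow_sub_le_descFactorial n k
  have h2 : ((n : ℝ) - k) ^ k ≤ (n.descFactorial k : ℝ) := by
    have h3 : ((n : ℝ) - k) ≤ ((n + 1 - k : ℕ) : ℝ) := by
      rw [Nat.cast_sub (by omega)]; push_cast; linarith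
    have h4 : (0 : ℝ) ≤ (n : ℝ) - k := by
      have : (k : ℝ) ≤ n := by exact_mod_cast (by omega : k ≤ n)
      linarith
    calc ((n : ℝ) - k) ^ k ≤ ((n + 1 - k : ℕ) : ℝ) ^ k := pow_le_pow_left₀ h4 h3 _
      _ ≤ _ := by exact_mod_cast h1
  have h5 : (1 : ℝ) + (k : ℝ) * (-(k : ℝ) / n) ≤ (1 + (-(k : ℝ) / n)) ^ k := by
    refine one_add_mul_le_pow ?_ k
    rw [neg_div]
    have : (k : ℝ) / n ≤ 1 := by
      rw [div_le_one hnp]; exact_mod_cast (by omega : k ≤ n)
    linarith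
  have h6 : ((n : ℝ) - k) ^ k = (n : ℝ) ^ k * (1 + (-(k : ℝ) / n)) ^ k := by
    rw [← mul_pow]
    congr 1
    field_simp
    ring
  have h7 : (n.descFactorial k : ℕ) ≤ n ^ k := Nat.descFactorial_le_pow n k
  rw [Nat.cast_sub h7]
  push_cast
  have h8 : (n : ℝ) ^ k * (1 + (k : ℝ) * (-(k : ℝ) / n)) ≤ (n.descFactorial k : ℝ) := by
    refine le_trans (mul_le_mul_of_nonneg_left h5 (by positivity)) ?_
    rw [← h6]; exact h2
  have h9 : (k : ℝ) ^ 2 / n ≤ γ := by
    rw [div_le_iff₀ hnp]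
    have : (N₀ : ℝ) ≤ n := by exact_mod_cast hn1
    have h10 := (div_lt_iff₀ hγ).mp hN₀
    nlinarith
  have h11 : (n : ℝ) ^ k * (1 + (k : ℝ) * (-(k : ℝ) / n))
      = (n : ℝ) ^ k - ((k : ℝ) ^ 2 / n) * (n : ℝ) ^ k := by
    field_simp
    ring
  have h12 : ((k : ℝ) ^ 2 / n) * (n : ℝ) ^ k ≤ γ * (n : ℝ) ^ k :=
    mul_le_mul_of_nonneg_right h9 (by positivity)
  linarith

end

end Pool.Agent.Fox
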