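import Mathlib
import Pool.Agent.Fox.Red

/-!
The lower bound for one fixed graph, with an explicit constant (used by the own theorem on
two-colour Ramsey multiplicity constants).
-/

set_option autoImplicit false

namespace Pool.Agent.Fox.Fixed

theorem cardN {α : Type} (i : Fintype α) (p : α → Prop) (d : DecidablePred p) :
    (@Finset.filter α p d (@Finset.univ α i)).card = Nat.card {a // p a} := by
  rw [Nat.card_eq_fintype_card, Fintype.card_subtype]

open Pool.Agent.Fox in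
open scoped Classical in
theorem fixed_graph {k : ℕ} (H : SimpleGraph (Fin k)) {J : ℕ}
    (hJ : 2 * H.edgeSet.ncard ≤ 4 ^ J) {δ : ℝ}
    (hδ : δ ≤ Real.exp (- ((4 * (J : ℝ) + 1) * ((bet J : ℝ) * 4 ^ J) * Real.log 2)) / 2) :
    ∃ N : ℕ, ∀ n : ℕ, N ≤ n → ∀ G : SimpleGraph (Fin n),
      δ * (n.descFactorial k : ℝ) ≤
        (Nat.card {f : Fin k ↪ Fin n //
          (∀ i j, H.Adj i j → G.Adj (f i) (f j)) ∨
          (∀ i j, H.Adj i j → Gᶜ.Adj (f i) (f j))} : ℝ) := by
  set c₀ : ℝ := Real.exp (- ((4 * (J : ℝ) + 1) * ((bet J : ℝ) * 4 ^ J) * Real.log 2)) with hc₀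
  have hc₀p : 0 < c₀ := Real.exp_pos _
  obtain ⟨N₁, hN₁⟩ := desc_close k (c₀ / 2) (by positivity)
  refine ⟨max N₁ (∑ i ∈ Finset.range (J + 1), 2 ^ (aa J i)), fun n hn G => ?_⟩
  have hn1 : N₁ ≤ n := le_trans (le_max_left _ _) hn
  have hn2 : ∀ i ≤ J, 2 ^ (aa J i) ≤ n := by
    intro i hi
    refine le_trans ?_ (le_trans (le_max_right _ _) hn)
    exact Finset.single_le_sum (f := fun i => 2 ^ (aa J i)) (fun _ _ => Nat.zero_le _)
      (Finset.mem_range.mpr (by omega))
  have hgap := hN₁ n hn1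
  set χ : Fin n → Fin n → Bool := fun x y => decide (G.Adj x y) with hχd
  have hχ : ∀ x y, χ x y = χ y x := by
    intro x y
    simp only [hχd, SimpleGraph.adj_comm]
  obtain ⟨c, hc⟩ := main_count (A := NI H) (V := Fin n) (H := HI H) (χ := χ) hχ (J := J)
    (le_trans (sum_degH_HI H) hJ) (le_trans (card_NI H) hJ) (one_le_degH_HI H)
    (by rw [Fintype.card_fin]; exact hn2)
  rw [Fintype.card_fin] at hc
  have h1 := hom_ext H χ c
  have h2 := hom_inj (k := k) (n := n) (fun g => ∀ u v, H.Adj u v → χ (g u) (g v) = c)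
  rw [cardN _ _ _] at hc
  rw [cardN _ _ _, cardN _ _ _] at h1 h2
  have hk : Fintype.card (NI H) ≤ k := by
    have := Fintype.card_subtype_le (fun v : Fin k => ∃ u, H.Adj v u)
    rwa [Fintype.card_fin] at this
  have h3 : c₀ * (n : ℝ) ^ k ≤
      (Nat.card {g : Fin k → Fin n // ∀ u v, H.Adj u v → χ (g u) (g v) = c} : ℝ) := by
    have h4 : ((n : ℝ)) ^ k = (n : ℝ) ^ (Fintype.card (NI H)) * (n : ℝ) ^ (k - Fintype.card (NI H)) := by
      rw [← pow_add]; congr 1; omega
    rw [h4, ← mul_assoc]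
    refine le_trans (mul_le_mul_of_nonneg_right hc (by positivity)) ?_
    exact_mod_cast h1
  have h5 : c₀ / 2 * (n : ℝ) ^ k ≤
      (Nat.card {f : Fin k ↪ Fin n // ∀ u v, H.Adj u v → χ (f u) (f v) = c} : ℝ) := by
    have h6 : (Nat.card {g : Fin k → Fin n // ∀ u v, H.Adj u v → χ (g u) (g v) = c} : ℝ) ≤
        (Nat.card {f : Fin k ↪ Fin n // ∀ u v, H.Adj u v → χ (f u) (f v) = c} : ℝ)
          + ((n ^ k - n.descFactorial k : ℕ) : ℝ) := by
      exact_mod_cast h2
    linarith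
  have h7 : Nat.card {f : Fin k ↪ Fin n // ∀ u v, H.Adj u v → χ (f u) (f v) = c} ≤
      Nat.card {f : Fin k ↪ Fin n //
          (∀ i j, H.Adj i j → G.Adj (f i) (f j)) ∨
          (∀ i j, H.Adj i j → Gᶜ.Adj (f i) (f j))} := by
    refine Nat.card_mono (Set.toFinite _) ?_
    intro f hf2
    change (∀ i j, H.Adj i j → G.Adj (f i) (f j)) ∨ (∀ i j, H.Adj i j → Gᶜ.Adj (f i) (f j))
    change ∀ u v, H.Adj u v → χ (f u) (f v) = c at hf2
    cases c with
    | true =>
      left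
      intro i j hij
      have := hf2 i j hij
      simpa [hχd] using this
    | false =>
      right
      intro i j hij
      have h8 := hf2 i j hij
      have h9 : ¬ G.Adj (f i) (f j) := by simpa [hχd] using h8
      rw [SimpleGraph.compl_adj]
      exact ⟨fun h => hij.ne (f.injective h), h9⟩
  have h8 : δ * (n.descFactorial k : ℝ) ≤ c₀ / 2 * (n : ℝ) ^ k := by
    have h9 : (n.descFactorial k : ℝ) ≤ (n : ℝ) ^ k := by
      exact_mod_cast Nat.descFactorial_le_pow n k
    calc δ * (n.descFactorial k : ℝ) ≤ c₀ / 2 * (n.descFactorial k : ℝ) :=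
          mul_le_mul_of_nonneg_right hδ (by positivity)
      _ ≤ c₀ / 2 * (n : ℝ) ^ k := mul_le_mul_of_nonneg_left h9 (by positivity)
  calc δ * (n.descFactorial k : ℝ) ≤ c₀ / 2 * (n : ℝ) ^ k := h8
    _ ≤ _ := h5
    _ ≤ _ := by exact_mod_cast h7


end Pool.Agent.Fox.Fixed
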