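import Mathlib
import Pool.Agent.Fox.Fixed

/-!
Two-colour Ramsey multiplicity constants: the ratio is nondecreasing and converges, and the limit
is at least `2 ^ (- 10 ^ 11 * m * (1 + log_2 m) ^ 8)` for a graph with `m` edges.
-/

set_option autoImplicit false

open Filter Topology

namespace Pool.Agent.Fox.Rate

/-- The number of labelled copies of `H` in `G`: injective maps of the vertices of `H` to the
vertices of `G` which take every edge of `H` to an edge of `G`. -/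
noncomputable def copies {k n : ℕ} (H : SimpleGraph (Fin k)) (G : SimpleGraph (Fin n)) : ℕ :=
  Nat.card {f : Fin k ↪ Fin n // ∀ i j, H.Adj i j → G.Adj (f i) (f j)}

/-- The minimum over all graphs `G` on `n` vertices of the number of labelled copies of `H` in `G`
plus the number of labelled copies of `H` in the complement of `G`. -/
noncomputable def minMono {k : ℕ} (H : SimpleGraph (Fin k)) (n : ℕ) : ℕ :=
  ⨅ G : SimpleGraph (Fin n), (copies H G + copies H Gᶜ)

/-- The ratio whose limit is the Ramsey multiplicity constant. -/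
noncomputable def ratio {k : ℕ} (H : SimpleGraph (Fin k)) (n : ℕ) : ℝ :=
  (minMono H n : ℝ) / (copies H (⊤ : SimpleGraph (Fin n)) : ℝ)

theorem copies_top {k : ℕ} (H : SimpleGraph (Fin k)) (n : ℕ) :
    copies H (⊤ : SimpleGraph (Fin n)) = n.descFactorial k := by
  unfold copies
  have h1 : Nat.card {f : Fin k ↪ Fin n //
      ∀ i j, H.Adj i j → (⊤ : SimpleGraph (Fin n)).Adj (f i) (f j)} = Nat.card (Fin k ↪ Fin n) := by
    refine Nat.card_congr (Equiv.subtypeUnivEquiv ?_)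
    intro f i j hij
    rw [SimpleGraph.top_adj]
    exact fun h => hij.ne (f.injective h)
  rw [h1, Nat.card_eq_fintype_card, Fintype.card_embedding_eq, Fintype.card_fin, Fintype.card_fin]

theorem copies_le {k n : ℕ} (H : SimpleGraph (Fin k)) (G : SimpleGraph (Fin n)) :
    copies H G ≤ n.descFactorial k := by
  unfold copies
  have h := Nat.card_le_card_of_injective
    (fun f : {f : Fin k ↪ Fin n // ∀ i j, H.Adj i j → G.Adj (f i) (f j)} => f.1)
    Subtype.val_injective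
  rwa [Nat.card_eq_fintype_card (α := Fin k ↪ Fin n), Fintype.card_embedding_eq, Fintype.card_fin,
    Fintype.card_fin] at h

theorem minMono_le {k n : ℕ} (H : SimpleGraph (Fin k)) (G : SimpleGraph (Fin n)) :
    minMono H n ≤ copies H G + copies H Gᶜ :=
  ciInf_le (OrderBot.bddBelow _) G

theorem exists_minMono {k : ℕ} (H : SimpleGraph (Fin k)) (n : ℕ) :
    ∃ G : SimpleGraph (Fin n), minMono H n = copies H G + copies H Gᶜ := by
  obtain ⟨G, hG⟩ := Nat.sInf_mem (s := Set.range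
    (fun G : SimpleGraph (Fin n) => copies H G + copies H Gᶜ)) (Set.range_nonempty _)
  exact ⟨G, hG.symm⟩

/-- averaging over the deleted vertex -/
theorem sum_copies {k n : ℕ} (H : SimpleGraph (Fin k)) (G : SimpleGraph (Fin (n + 1))) :
    ∑ v : Fin (n + 1), copies H (G.comap (Fin.succAboveEmb v)) = (n + 1 - k) * copies H G := by
  classical
  unfold copies
  have h1 : ∀ v : Fin (n + 1),
      Nat.card {f : Fin k ↪ Fin n // ∀ i j, H.Adj i j →
        (G.comap (Fin.succAboveEmb v)).Adj (f i) (f j)} =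
      (Finset.univ.filter (fun f : Fin k ↪ Fin (n + 1) =>
        (∀ i j, H.Adj i j → G.Adj (f i) (f j)) ∧ v ∉ Set.range f)).card := by
    intro v
    rw [← Fintype.card_subtype, ← Nat.card_eq_fintype_card]
    refine Nat.card_congr (Equiv.ofBijective
      (fun f => ⟨f.1.trans (Fin.succAboveEmb v), ?_, ?_⟩) ⟨?_, ?_⟩)
    · intro i j hij
      exact f.2 i j hij
    · rintro ⟨i, hi⟩
      exact Fin.succAbove_ne v (f.1 i) hi
    · intro f g hfg
      apply Subtype.ext
      ext i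
      have h2 := congrArg (fun t => t.1 i) hfg
      have h3 : (Fin.succAboveEmb v) (f.1 i) = (Fin.succAboveEmb v) (g.1 i) := h2
      exact congrArg Fin.val ((Fin.succAboveEmb v).injective h3)
    · rintro ⟨g, hg1, hg2⟩
      have h4 : ∀ i, ∃ t : Fin n, Fin.succAbove v t = g i := by
        intro i
        refine Fin.exists_succAbove_eq ?_
        intro h
        exact hg2 ⟨i, h⟩
      choose t ht using h4
      refine ⟨⟨⟨t, ?_⟩, ?_⟩, ?_⟩
      · intro i j hij
        apply g.injective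
        rw [← ht i, ← ht j, hij]
      · intro i j hij
        change G.Adj (Fin.succAbove v (t i)) (Fin.succAbove v (t j))
        rw [ht, ht]
        exact hg1 i j hij
      · apply Subtype.ext
        ext i
        change ((Fin.succAbove v (t i) : Fin (n + 1)) : ℕ) = _
        rw [ht]
  rw [Finset.sum_congr rfl (fun v _ => h1 v)]
  simp only [Finset.card_filter]
  rw [Finset.sum_comm]
  have h5 : ∀ f : Fin k ↪ Fin (n + 1),
      (∑ v : Fin (n + 1), if (∀ i j, H.Adj i j → G.Adj (f i) (f j)) ∧ v ∉ Set.range f then 1 else 0)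
      = (n + 1 - k) * (if (∀ i j, H.Adj i j → G.Adj (f i) (f j)) then 1 else 0) := by
    intro f
    by_cases hf : ∀ i j, H.Adj i j → G.Adj (f i) (f j)
    · rw [if_pos hf, mul_one]
      rw [← Finset.card_filter]
      have h6 : (Finset.univ.filter (fun v : Fin (n + 1) =>
          (∀ i j, H.Adj i j → G.Adj (f i) (f j)) ∧ v ∉ Set.range f))
          = (Finset.univ.map f)ᶜ := by
        ext v
        rw [Finset.mem_filter, Finset.mem_compl, Finset.mem_map]
        constructor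
        · rintro ⟨_, _, h⟩ ⟨x, _, hx⟩
          exact h ⟨x, hx⟩
        · intro h
          exact ⟨Finset.mem_univ _, hf, fun ⟨x, hx⟩ => h ⟨x, Finset.mem_univ _, hx⟩⟩
      rw [h6, Finset.card_compl, Finset.card_map, Finset.card_univ, Fintype.card_fin,
        Fintype.card_fin]
    · rw [if_neg hf, mul_zero]
      refine Finset.sum_eq_zero (fun v _ => ?_)
      rw [if_neg (fun h => hf h.1)]
  rw [Finset.sum_congr rfl (fun f _ => h5 f), ← Finset.mul_sum]
  congr 1
  rw [Nat.card_eq_fintype_card, Fintype.card_subtype, Finset.card_filter]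

theorem compl_comap {n : ℕ} (G : SimpleGraph (Fin (n + 1))) (v : Fin (n + 1)) :
    (G.comap (Fin.succAboveEmb v))ᶜ = Gᶜ.comap (Fin.succAboveEmb v) := by
  ext a b
  simp only [SimpleGraph.compl_adj, SimpleGraph.comap_adj]
  constructor
  · rintro ⟨h1, h2⟩
    exact ⟨fun h => h1 ((Fin.succAboveEmb v).injective h), h2⟩
  · rintro ⟨h1, h2⟩
    exact ⟨fun h => h1 (by rw [h]), h2⟩

theorem step {k : ℕ} (H : SimpleGraph (Fin k)) (n : ℕ) :
    (n + 1) * minMono H n ≤ (n + 1 - k) * minMono H (n + 1) := by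
  obtain ⟨G, hG⟩ := exists_minMono H (n + 1)
  rw [hG, mul_add, ← sum_copies, ← sum_copies, ← Finset.sum_add_distrib]
  calc (n + 1) * minMono H n = ∑ _v : Fin (n + 1), minMono H n := by
        rw [Finset.sum_const, Finset.card_univ, Fintype.card_fin, smul_eq_mul]
    _ ≤ _ := by
        refine Finset.sum_le_sum (fun v _ => ?_)
        rw [← compl_comap]
        exact minMono_le H _

theorem ratio_nonneg {k : ℕ} (H : SimpleGraph (Fin k)) (n : ℕ) : 0 ≤ ratio H n := by
  unfold ratio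
  positivity

theorem ratio_mono {k : ℕ} (H : SimpleGraph (Fin k)) : Monotone (ratio H) := by
  refine monotone_nat_of_le_succ (fun n => ?_)
  by_cases hk : k ≤ n
  · unfold ratio
    rw [copies_top, copies_top]
    have h1 : 0 < n.descFactorial k := Nat.descFactorial_pos.mpr hk
    have h2 : 0 < (n + 1).descFactorial k := Nat.descFactorial_pos.mpr (by omega)
    rw [div_le_div_iff₀ (by exact_mod_cast h1) (by exact_mod_cast h2)]
    have h3 := step H n
    have h4 : (n + 1 - k) * (n + 1).descFactorial k = (n + 1) * n.descFactorial k :=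
      Nat.succ_descFactorial n k
    have h5 : minMono H n * (n + 1).descFactorial k * (n + 1 - k)
        ≤ minMono H (n + 1) * n.descFactorial k * (n + 1 - k) := by
      calc minMono H n * (n + 1).descFactorial k * (n + 1 - k)
          = minMono H n * ((n + 1 - k) * (n + 1).descFactorial k) := by ring
        _ = ((n + 1) * minMono H n) * n.descFactorial k := by rw [h4]; ring
        _ ≤ ((n + 1 - k) * minMono H (n + 1)) * n.descFactorial k := Nat.mul_le_mul_right _ h3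
        _ = _ := by ring
    have h6 := Nat.le_of_mul_le_mul_right h5 (by omega)
    exact_mod_cast h6
  · have h0 : ratio H n = 0 := by
      unfold ratio
      rw [copies_top, Nat.descFactorial_of_lt (by omega)]
      simp
    rw [h0]
    exact ratio_nonneg H _

theorem ratio_le {k : ℕ} (H : SimpleGraph (Fin k)) (n : ℕ) : ratio H n ≤ 2 := by
  unfold ratio
  rw [copies_top]
  have h1 : minMono H n ≤ 2 * n.descFactorial k := by
    refine le_trans (minMono_le H ⊥) ?_
    have h2 := copies_le H (⊥ : SimpleGraph (Fin n))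
    have h3 := copies_le H (⊥ : SimpleGraph (Fin n))ᶜ
    omega
  refine div_le_of_le_mul₀ (by positivity) (by norm_num) ?_
  exact_mod_cast h1

theorem ratio_tendsto {k : ℕ} (H : SimpleGraph (Fin k)) :
    Tendsto (ratio H) atTop (𝓝 (⨆ n, ratio H n)) :=
  tendsto_atTop_ciSup (ratio_mono H) ⟨2, by rintro _ ⟨n, rfl⟩; exact ratio_le H n⟩

theorem union_le {k n : ℕ} (H : SimpleGraph (Fin k)) (G : SimpleGraph (Fin n)) :
    Nat.card {f : Fin k ↪ Fin n //
      (∀ i j, H.Adj i j → G.Adj (f i) (f j)) ∨ (∀ i j, H.Adj i j → Gᶜ.Adj (f i) (f j))}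
      ≤ copies H G + copies H Gᶜ := by
  classical
  unfold copies
  rw [Nat.card_eq_fintype_card, Nat.card_eq_fintype_card, Nat.card_eq_fintype_card,
    Fintype.card_subtype, Fintype.card_subtype, Fintype.card_subtype, Finset.filter_or]
  exact Finset.card_union_le _ _

theorem limit_ge {k : ℕ} (H : SimpleGraph (Fin k)) {δ : ℝ}
    (hδ : ∃ N : ℕ, ∀ n : ℕ, N ≤ n → ∀ G : SimpleGraph (Fin n),
      δ * (n.descFactorial k : ℝ) ≤
        (Nat.card {f : Fin k ↪ Fin n //
          (∀ i j, H.Adj i j → G.Adj (f i) (f j)) ∨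
          (∀ i j, H.Adj i j → Gᶜ.Adj (f i) (f j))} : ℝ)) :
    δ ≤ ⨆ n, ratio H n := by
  obtain ⟨N, hN⟩ := hδ
  have h1 : δ ≤ ratio H (max N k) := by
    obtain ⟨G, hG⟩ := exists_minMono H (max N k)
    have h2 := hN (max N k) (le_max_left _ _) G
    unfold ratio
    rw [copies_top]
    have h3 : 0 < (max N k).descFactorial k := Nat.descFactorial_pos.mpr (le_max_right _ _)
    rw [le_div_iff₀ (by exact_mod_cast h3), hG]
    refine le_trans h2 ?_
    exact_mod_cast union_le H G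
  exact le_trans h1 (le_ciSup (f := ratio H) ⟨2, by rintro _ ⟨n, rfl⟩; exact ratio_le H n⟩ _)

theorem bet_eq (J : ℕ) : (bet J : ℝ) = 3432 * ((J : ℝ) + 5) ^ 7 := by
  unfold bet
  rw [qv_eq]
  push_cast
  ring

theorem expo_le {m J : ℕ} (hm : 1 ≤ m) (hJ : J = Nat.clog 4 (2 * m)) :
    (4 * (J : ℝ) + 1) * ((bet J : ℝ) * 4 ^ J) + 1 ≤ 10 ^ 11 * m * (1 + Real.logb 2 m) ^ 8 := by
  have hm0 : (1 : ℝ) ≤ m := by exact_mod_cast hm
  have h2 : 1 ≤ J := by rw [hJ]; exact Nat.clog_pos (by norm_num) (by omega)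
  obtain ⟨J', hJ'⟩ : ∃ J', J = J' + 1 := ⟨J - 1, by omega⟩
  have h1 : 4 ^ J' < 2 * m := by
    have h := Nat.pow_pred_clog_lt_self (b := 4) (x := 2 * m) (by norm_num) (by omega)
    rw [← hJ, hJ'] at h
    simpa using h
  set L : ℝ := Real.logb 2 m with hL
  have hL0 : 0 ≤ L := Real.logb_nonneg (by norm_num) hm0
  have h3 : (J' : ℝ) * 2 ≤ 1 + L := by
    have h4 : (4 : ℝ) ^ J' ≤ 2 * m := by exact_mod_cast h1.le
    have h5 : Real.logb 2 ((4 : ℝ) ^ J') ≤ Real.logb 2 (2 * m) :=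
      Real.logb_le_logb_of_le (by norm_num) (by positivity) h4
    have h6 : Real.logb 2 ((4 : ℝ) ^ J') = J' * 2 := by
      rw [Real.logb_pow]
      have : Real.logb 2 (4 : ℝ) = 2 := by
        rw [show (4 : ℝ) = 2 ^ (2 : ℕ) by norm_num, Real.logb_pow, Real.logb_self_eq_one (by norm_num)]
        norm_num
      rw [this]
    have h7 : Real.logb 2 (2 * m) = 1 + L := by
      rw [Real.logb_mul (by norm_num) (by positivity), Real.logb_self_eq_one (by norm_num)]
    rw [h6, h7] at h5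
    exact h5
  have h8 : (J : ℝ) = J' + 1 := by rw [hJ']; push_cast; ring
  have h9 : (4 : ℝ) ^ J ≤ 8 * m := by
    have : (4 : ℝ) ^ J' ≤ 2 * m := by exact_mod_cast h1.le
    rw [hJ', pow_succ]
    linarith
  have h10 : 4 * (J : ℝ) + 1 ≤ 7 * (1 + L) := by rw [h8]; linarith
  have h11 : (J : ℝ) + 5 ≤ 6.5 * (1 + L) := by rw [h8]; linarith
  have h12 : ((J : ℝ) + 5) ^ 7 ≤ (6.5 * (1 + L)) ^ 7 :=
    pow_le_pow_left₀ (by positivity) h11 7
  rw [bet_eq]
  have h13 : 3432 * ((J : ℝ) + 5) ^ 7 * 4 ^ J ≤ 3432 * (6.5 * (1 + L)) ^ 7 * (8 * m) := by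
    refine mul_le_mul ?_ h9 (by positivity) (by positivity)
    exact mul_le_mul_of_nonneg_left h12 (by norm_num)
  have h14 : (4 * (J : ℝ) + 1) * (3432 * ((J : ℝ) + 5) ^ 7 * 4 ^ J)
      ≤ 7 * (1 + L) * (3432 * (6.5 * (1 + L)) ^ 7 * (8 * m)) :=
    mul_le_mul h10 h13 (by positivity) (by positivity)
  have h15 : 7 * (1 + L) * (3432 * (6.5 * (1 + L)) ^ 7 * (8 * m))
      = (7 * 3432 * 6.5 ^ 7 * 8) * (m * (1 + L) ^ 8) := by ring
  have h16 : (1 : ℝ) ≤ m * (1 + L) ^ 8 := by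
    have h17 : (1 : ℝ) ≤ (1 + L) ^ 8 := one_le_pow₀ (by linarith)
    nlinarith
  have h18 : (7 * 3432 * 6.5 ^ 7 * 8 : ℝ) + 1 ≤ 10 ^ 11 := by norm_num
  calc (4 * (J : ℝ) + 1) * (3432 * ((J : ℝ) + 5) ^ 7 * 4 ^ J) + 1
      ≤ (7 * 3432 * 6.5 ^ 7 * 8) * (m * (1 + L) ^ 8) + 1 * (m * (1 + L) ^ 8) := by
        rw [← h15, one_mul]; exact add_le_add h14 h16
    _ = (7 * 3432 * 6.5 ^ 7 * 8 + 1) * (m * (1 + L) ^ 8) := by ring
    _ ≤ 10 ^ 11 * (m * (1 + L) ^ 8) := mul_le_mul_of_nonneg_right h18 (by positivity)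
    _ = _ := by ring

theorem eps_form (ε : ℝ) (hε : 0 < ε) : ∃ m₀ : ℕ, ∀ (k : ℕ) (H : SimpleGraph (Fin k)),
    m₀ ≤ H.edgeSet.ncard →
      (2 : ℝ) ^ (-((H.edgeSet.ncard : ℝ) ^ (1 + ε))) ≤ ⨆ n, ratio H n := by
  obtain ⟨J₀, hJ₀⟩ := Pool.Agent.Fox.asym ε hε
  refine ⟨4 ^ J₀, fun k H hm => ?_⟩
  set m := H.edgeSet.ncard with hmdef
  have hm1 : 1 ≤ m := le_trans (Nat.one_le_pow _ _ (by norm_num)) hm
  set J := Nat.clog 4 (2 * m) with hJdef
  have hJ : 2 * m ≤ 4 ^ J := Nat.le_pow_clog (by norm_num) _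
  have hJ2 : 4 ^ J ≤ 8 * m := by
    have h1 := Nat.pow_pred_clog_lt_self (b := 4) (x := 2 * m) (by norm_num) (by omega)
    rw [← hJdef] at h1
    have h2 : 1 ≤ J := Nat.clog_pos (by norm_num) (by omega)
    obtain ⟨J', hJ'⟩ : ∃ J', J = J' + 1 := ⟨J - 1, by omega⟩
    rw [hJ'] at h1 ⊢
    simp only [Nat.pred_succ] at h1
    rw [pow_succ]; omega
  have hJJ : J₀ ≤ J := by
    have : 4 ^ J₀ ≤ 4 ^ J := by omega
    exact (Nat.pow_le_pow_iff_right (by norm_num)).mp this
  refine limit_ge H (Pool.Agent.Fox.Fixed.fixed_graph H hJ ?_)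
  have hmr : (1 : ℝ) ≤ m := by exact_mod_cast hm1
  have hJ2r : (4 : ℝ) ^ J ≤ 8 * m := by exact_mod_cast hJ2
  have h1 := hJ₀ J hJJ
  have h2 : ((4 : ℝ) ^ J / 8) ^ ε ≤ (m : ℝ) ^ ε :=
    Real.rpow_le_rpow (by positivity) (by linarith) hε.le
  have h3 : (m : ℝ) ^ (1 + ε) = m * (m : ℝ) ^ ε := by
    rw [Real.rpow_add (by linarith), Real.rpow_one]
  have h4 : (4 * (J : ℝ) + 1) * ((Pool.Agent.Fox.bet J : ℝ) * 4 ^ J) + 1 ≤ (m : ℝ) ^ (1 + ε) := by
    rw [h3]
    have h5 : (m : ℝ) * ((4 * (J : ℝ) + 1) * (Pool.Agent.Fox.bet J : ℝ) * 8 + 1) ≤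
        m * (m : ℝ) ^ ε := mul_le_mul_of_nonneg_left (le_trans h1 h2) (by linarith)
    refine le_trans ?_ h5
    have h6 : (4 * (J : ℝ) + 1) * ((Pool.Agent.Fox.bet J : ℝ) * 4 ^ J)
        ≤ (4 * (J : ℝ) + 1) * ((Pool.Agent.Fox.bet J : ℝ) * (8 * m)) := by
      refine mul_le_mul_of_nonneg_left ?_ (by positivity)
      exact mul_le_mul_of_nonneg_left hJ2r (by positivity)
    nlinarith
  have hexp : ∀ x : ℝ, (2 : ℝ) ^ (-x) = Real.exp (-(x * Real.log 2)) := by
    intro x
    rw [Real.rpow_def_of_pos (by norm_num)]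
    congr 1; ring
  rw [← hexp]
  calc (2 : ℝ) ^ (-((m : ℝ) ^ (1 + ε)))
      ≤ (2 : ℝ) ^ (-((4 * (J : ℝ) + 1) * ((Pool.Agent.Fox.bet J : ℝ) * 4 ^ J) + 1)) :=
        Real.rpow_le_rpow_of_exponent_le (by norm_num) (by linarith)
    _ = (2 : ℝ) ^ (-((4 * (J : ℝ) + 1) * ((Pool.Agent.Fox.bet J : ℝ) * 4 ^ J))) / 2 := by
        rw [neg_add, ← sub_eq_add_neg, Real.rpow_sub (by norm_num), Real.rpow_one]

theorem rate {k : ℕ} (H : SimpleGraph (Fin k)) (hm : 1 ≤ H.edgeSet.ncard) :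
    (2 : ℝ) ^ (-(10 ^ 11 * (H.edgeSet.ncard : ℝ) * (1 + Real.logb 2 (H.edgeSet.ncard : ℝ)) ^ 8))
      ≤ ⨆ n, ratio H n := by
  set m := H.edgeSet.ncard with hmdef
  set J := Nat.clog 4 (2 * m) with hJdef
  have hJ : 2 * m ≤ 4 ^ J := Nat.le_pow_clog (by norm_num) _
  refine limit_ge H (Pool.Agent.Fox.Fixed.fixed_graph H hJ ?_)
  have hexp : ∀ x : ℝ, (2 : ℝ) ^ (-x) = Real.exp (-(x * Real.log 2)) := by
    intro x
    rw [Real.rpow_def_of_pos (by norm_num)]
    congr 1; ring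
  rw [← hexp]
  have h4 := expo_le hm hJdef
  calc (2 : ℝ) ^ (-(10 ^ 11 * (m : ℝ) * (1 + Real.logb 2 m) ^ 8))
      ≤ (2 : ℝ) ^ (-((4 * (J : ℝ) + 1) * ((Pool.Agent.Fox.bet J : ℝ) * 4 ^ J) + 1)) :=
        Real.rpow_le_rpow_of_exponent_le (by norm_num) (by linarith)
    _ = (2 : ℝ) ^ (-((4 * (J : ℝ) + 1) * ((Pool.Agent.Fox.bet J : ℝ) * 4 ^ J))) / 2 := by
        rw [neg_add, ← sub_eq_add_neg, Real.rpow_sub (by norm_num), Real.rpow_one]

end Pool.Agent.Fox.Rate
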