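import Pool.Agent.Fox.Words

open LaurentPolynomial

namespace Pool.Agent.Fox

/-- Windows for the fence polynomials of all words of length `n`. -/
def WP (n : ℕ) : Prop := ∀ w : List Bool, w.length = n → Inc (n : ℤ) (P w)

theorem WP.dec {n : ℕ} (h : WP n) {w : List Bool} (hw : w.length = n) : Dec ((n : ℤ) + 2) (P w) := by
  have h1 : Inc (n : ℤ) (P (bar w)) := h (bar w) (by simp [hw])
  have h2 := h1.refl ((n : ℤ) + 1)
  rw [P_bar, hw, refl_refl] at h2
  exact h2.mono (by omega)

theorem dec_one {s : ℤ} (h : 0 ≤ s) : Dec s (1 : LP) := by
  intro i j hij hsum
  rw [coeff_one', coeff_one', if_neg (show ¬ j = 0 by omega)]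
  split_ifs <;> norm_num

theorem list_snoc_cases (w : List Bool) (h : w ≠ []) : ∃ v x, w = v ++ [x] :=
  ⟨w.dropLast, w.getLast h, (List.dropLast_append_getLast h).symm⟩

theorem dec_M11 (w : List Bool) (h : ∀ k < w.length, WP k) : Dec (w.length : ℤ) (M w true true) := by
  induction hn : w.length using Nat.strong_induction_on generalizing w with
  | _ n ih =>
    cases w with
    | nil =>
      simp only [M]
      exact dec_one (by simp at hn; omega)
    | cons x v =>
      cases x with
      | true =>
        have hv : v.length < n := by simp at hn; omega
        have := ih v.length hv v (fun k hk => h k (by simp; omega)) rfl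
        rw [M11_cons_A]
        exact this.mono (by omega)
      | false =>
        by_cases hv : v = []
        · subst hv
          simp only [M]
          simp only [Bool.false_eq_true, if_false, if_true, mul_zero, zero_add]
          exact dec_one (by omega)
        · obtain ⟨u, y, rfl⟩ := list_snoc_cases v hv
          cases y with
          | false =>
            have h1 : (false :: (u ++ [false])) = (false :: u) ++ [false] := rfl
            rw [h1, M_snocB_true]
            have hl : (false :: u).length < n := by simp at hn ⊢; omega
            have := ih (false :: u).length hl (false :: u)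
              (fun k hk => h k (by simp at hk ⊢; omega)) rfl
            exact this.mono (by omega)
          | true =>
            rw [M11_BA]
            have hl : u.length < (false :: (u ++ [true])).length := by simp
            have := (h u.length hl).dec (w := u) rfl
            refine this.mono ?_
            simp at hn
            omega

theorem inc_c1 (w : List Bool) (h : ∀ k < w.length, WP k) : Inc ((w.length : ℤ) + 1) (c1 w) := by
  induction hn : w.length using Nat.strong_induction_on generalizing w with
  | _ n ih =>
    by_cases hw : w = []
    · subst hw
      rw [c1_nil]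
      simp at hn
      exact inc_T (by omega)
    · obtain ⟨u, y, rfl⟩ := list_snoc_cases w hw
      have hu : u.length < n := by simp at hn; omega
      cases y with
      | true =>
        rw [c1_snocA]
        have := (ih u.length hu u (fun k hk => h k (by simp; omega)) rfl).T_mul 1
        refine this.mono ?_
        simp at hn
        omega
      | false =>
        rw [c1_snocB]
        have := (h u.length (by simp) u rfl).T_mul 1
        refine this.mono ?_
        simp at hn
        omega

/-- the comparison with sum exactly `|w|` -/
theorem P_exact (w : List Bool) (h : ∀ k < w.length, WP k) (i j : ℤ) (hij : i < j)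
    (hs : i + j = w.length) : (P w).coeff i ≤ (P w).coeff j := by
  have h1 := refl_Tr (w ++ [false, true])
  rw [Tr_BA] at h1
  have h2 := congrArg (fun f : LP => f.coeff (j + 1)) h1
  simp only [coeff_refl] at h2
  simp only [AddMonoidAlgebra.coeff_add, Finsupp.add_apply, coeff_T_mul, List.length_append,
    List.length_cons, List.length_nil] at h2
  push_cast at h2
  have e1 : (w.length : ℤ) + 2 - (j + 1) - 1 = i := by omega
  have e2 : (w.length : ℤ) + 2 - (j + 1) = i + 1 := by omega
  have e3 : j + 1 - 1 = j := by omega
  rw [e1, e2, e3] at h2
  have h3 := dec_M11 w h (i + 1) (j + 1) (by omega) (by omega)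
  omega

theorem WP_all (n : ℕ) : WP n := by
  induction n using Nat.strong_induction_on with
  | _ n ih =>
    intro w hw
    apply Inc.of_exact
    · rcases word_cases w with ⟨m, rfl⟩ | ⟨v, m, rfl⟩
      · -- B^m
        rw [P_replicate]
        simp at hw
        subst hw
        have : Inc (-1 : ℤ) (1 : LP) := inc_one_neg (by norm_num)
        have h2 := this.qn_mul (m + 1)
        rw [mul_one] at h2
        refine h2.mono ?_
        push_cast
        omega
      · rw [P_AB]
        simp at hw
        have hv : v.length < n := by omega
        apply Inc.add
        · have := (ih v.length hv v rfl).qn_mul m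
          refine this.mono ?_
          omega
        · have := (inc_c1 v (fun k hk => ih k (by omega))).T_mul ((m : ℤ) + 1)
          refine this.mono ?_
          omega
    · intro i j hij hs
      exact P_exact w (fun k hk => ih k (by omega)) i j hij (by omega)

/-- Lemma F. -/
theorem inc_M00 (w : List Bool) : Inc (w.length : ℤ) (M w false false) := by
  have h1 : Dec ((bar w).length : ℤ) (M (bar w) true true) := dec_M11 (bar w) (fun k _ => WP_all k)
  rw [M_bar] at h1
  simp only [Bool.not_true, bar_length] at h1
  have h2 := h1.refl (w.length : ℤ)
  rw [refl_refl] at h2
  exact h2.mono (by omega)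

/-- the difference polynomial `D(w) = Q(Aw) - Q(w)` -/
noncomputable def D : List Bool → LP
  | [] => 0
  | true :: w => t * D w
  | false :: w => M w false false + D w

/-- The polynomial `Q(w)`, equal to the Alexander polynomial of the closure of the alternating
3-braid `w`, evaluated at `-t`. -/
noncomputable def Q : List Bool → LP
  | [] => 0
  | true :: w => Q w + D w
  | false :: w => Q w + D (bar w)

theorem kap_D (w : List Bool) :
    kap * D w + T (w.count true : ℤ) * (t - 1) = (t - 1) * M w false false + M w true false := by
  induction w with
  | nil => simp [D, M]
  | cons x w ih =>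
    cases x with
    | true =>
      simp only [D, M, List.count_cons_self, Nat.cast_add, Nat.cast_one, T_add]
      linear_combination t * ih
    | false =>
      have : List.count true (false :: w) = List.count true w := by simp
      simp only [D, M, this]
      unfold kap at *
      linear_combination ih

theorem Tr_cons_A (w : List Bool) :
    Tr (true :: w) = t * M w false false + M w true false + M w true true := by
  unfold Tr; simp only [M]

theorem kap_D' (w : List Bool) :
    kap * D w = Tr (true :: w) - Tr w - T ((w.count true : ℤ) + 1) + T (w.count true : ℤ) := by
  rw [Tr_cons_A, T_add]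
  unfold Tr
  linear_combination kap_D w

theorem kap_Q (w : List Bool) :
    kap * Q w = Tr w - T (w.count true : ℤ) - T (w.count false : ℤ) := by
  induction w with
  | nil => simp [Q, Tr, M]
  | cons x w ih =>
    cases x with
    | true =>
      have h1 : List.count false (true :: w) = List.count false w := by simp
      have h2 : List.count true (true :: w) = List.count true w + 1 := by simp
      simp only [Q, mul_add, ih, kap_D', h1, h2]
      push_cast
      ring
    | false =>
      have h1 : List.count true (false :: w) = List.count true w := by simp
      have h2 : List.count false (false :: w) = List.count false w + 1 := by simp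
      have h3 : List.count true (bar w) = List.count false w := by
        unfold bar
        rw [show (true : Bool) = !false from rfl]
        exact List.count_map_of_injective w not Bool.not_injective false
      have h4 : true :: bar w = bar (false :: w) := by simp
      simp only [Q, mul_add, ih, kap_D', h1, h2, h3]
      rw [h4, Tr_bar, Tr_bar]
      push_cast
      ring

theorem refl_kap : refl 2 kap = kap := by
  unfold kap
  have h1 : refl 2 (t * t) = 1 := by
    rw [show (2 : ℤ) = 1 + 1 by norm_num, refl_mul, refl_T]; simp
  have h2 : refl 2 (1 - t) = t * t - t := by
    unfold refl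
    rw [map_sub, map_one, invert_T, mul_sub, ← T_add, ← T_add]
    norm_num
  rw [refl_add, h1, h2]; ring

theorem count_true_add_false (w : List Bool) : w.count true + w.count false = w.length := by
  induction w with
  | nil => rfl
  | cons x w ih => cases x <;> simp <;> omega

/-- `Q(w)` is palindromic. -/
theorem refl_Q (w : List Bool) : refl ((w.length : ℤ) - 2) (Q w) = Q w := by
  have h := congrArg (refl (w.length : ℤ)) (kap_Q w)
  have e : (w.length : ℤ) = 2 + ((w.length : ℤ) - 2) := by omega
  have h1 : refl (w.length : ℤ) (kap * Q w) = kap * refl ((w.length : ℤ) - 2) (Q w) := by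
    conv_lhs => rw [e]
    rw [refl_mul, refl_kap]
  have hc := count_true_add_false w
  have h2 : refl (w.length : ℤ) (Tr w - T (w.count true : ℤ) - T (w.count false : ℤ))
      = Tr w - T (w.count true : ℤ) - T (w.count false : ℤ) := by
    rw [sub_sub, sub_eq_add_neg, refl_add, refl_Tr]
    have h3 : ∀ f : LP, refl (w.length : ℤ) (-f) = - refl (w.length : ℤ) f := by
      intro f; unfold refl; rw [map_neg, mul_neg]
    rw [h3, refl_add, refl_T, refl_T]
    have e1 : (w.length : ℤ) - (w.count true : ℤ) = (w.count false : ℤ) := by omega
    have e2 : (w.length : ℤ) - (w.count false : ℤ) = (w.count true : ℤ) := by omega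
    rw [e1, e2]; ring
  rw [h1, h2, ← kap_Q] at h
  exact mul_left_cancel₀ kap_ne_zero h

theorem Q_pal (w : List Bool) : Pal ((w.length : ℤ) - 2) (Q w) := pal_iff_refl.mpr (refl_Q w)

/-- `D - ρ D = (t-1) Q` -/
theorem D_refl (w : List Bool) : D w - refl ((w.length : ℤ) - 1) (D w) = (t - 1) * Q w := by
  have h1 : D w = Q (true :: w) - Q w := by simp only [Q]; ring
  have h2 := refl_Q (true :: w)
  have h3 := refl_Q w
  have e : ((true :: w).length : ℤ) - 2 = (w.length : ℤ) - 1 := by simp; ring
  rw [e] at h2
  have h4 : refl ((w.length : ℤ) - 1) (Q w) = t * Q w := by
    conv_rhs => rw [← h3]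
    unfold refl
    rw [← mul_assoc, ← T_add]
    congr 2; ring
  have h5 : refl ((w.length : ℤ) - 1) (D w)
      = refl ((w.length : ℤ) - 1) (Q (true :: w)) - refl ((w.length : ℤ) - 1) (Q w) := by
    rw [h1]; unfold refl; rw [map_sub, mul_sub]
  rw [h5, h2, h4, h1]; ring

/-- exact comparison for `D` -/
theorem D_exact (w : List Bool) (hQ : Inc ((w.length : ℤ) - 2) (Q w)) (i j : ℤ) (hij : i < j)
    (hs : i + j = (w.length : ℤ) - 1) : (D w).coeff i ≤ (D w).coeff j := by
  have h1 := congrArg (fun f : LP => f.coeff j) (D_refl w)
  have h0 : (t - 1) * Q w = t * Q w - Q w := by ring
  rw [h0] at h1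
  simp only [AddMonoidAlgebra.coeff_sub, Finsupp.sub_apply, coeff_refl, coeff_T_mul] at h1
  have e : (w.length : ℤ) - 1 - j = i := by omega
  rw [e] at h1
  have h2 : (Q w).coeff (j - 1) ≥ (Q w).coeff j := by
    rw [Q_pal w (j - 1), Q_pal w j]
    have e1 : (w.length : ℤ) - 2 - (j - 1) = i := by omega
    have e2 : (w.length : ℤ) - 2 - j = i - 1 := by omega
    rw [e1, e2]
    exact hQ _ _ (by omega) (by omega)
  omega

theorem windows (n : ℕ) : ∀ w : List Bool, w.length = n →
    Inc ((n : ℤ) - 1) (D w) ∧ Inc ((n : ℤ) - 2) (Q w) := by
  induction n with
  | zero =>
    intro w hw
    have : w = [] := List.length_eq_zero_iff.mp hw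
    subst this
    simp only [D, Q]
    exact ⟨inc_zero _, inc_zero _⟩
  | succ n ih =>
    intro w hw
    cases w with
    | nil => simp at hw
    | cons x w =>
      have hw' : w.length = n := by simpa using hw
      obtain ⟨hD, hQ⟩ := ih w hw'
      have hDb := (ih (bar w) (by simp [hw'])).1
      have hQ' : Inc (((n + 1 : ℕ) : ℤ) - 2) (Q (x :: w)) := by
        apply Inc.of_exact
        · cases x
          · simp only [Q]
            apply Inc.add
            · exact hQ.mono (by push_cast; omega)
            · exact hDb.mono (by push_cast; omega)
          · simp only [Q]
            apply Inc.add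
            · exact hQ.mono (by push_cast; omega)
            · exact hD.mono (by push_cast; omega)
        · intro i j hij hs
          have := Q_pal (x :: w) i
          rw [this]
          apply le_of_eq
          congr 1
          simp only [List.length_cons, hw']
          omega
      refine ⟨?_, hQ'⟩
      cases x with
      | true =>
        simp only [D]
        have := hD.T_mul 1
        exact this.mono (by push_cast; omega)
      | false =>
        apply Inc.of_exact
        · simp only [D]
          apply Inc.add
          · have := inc_M00 w
            rw [hw'] at this
            exact this.mono (by push_cast; omega)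
          · exact hD.mono (by push_cast; omega)
        · intro i j hij hs
          apply D_exact
          · simp only [List.length_cons, hw']
            exact hQ'
          · exact hij
          · simp only [List.length_cons, hw']
            exact hs

/-- **Unimodality.** -/
theorem inc_Q (w : List Bool) : Inc ((w.length : ℤ) - 2) (Q w) := (windows w.length w rfl).2

end Pool.Agent.Fox
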