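import Mathlib

open LaurentPolynomial

namespace Pool.Agent.Fox

/-- Integer Laurent polynomials. -/
abbrev LP : Type := LaurentPolynomial ℤ

/-- `Inc s f`: for all `i < j` with `i + j ≤ s` the coefficients satisfy `f_i ≤ f_j`. -/
def Inc (s : ℤ) (f : LP) : Prop := ∀ i j : ℤ, i < j → i + j ≤ s → f.coeff i ≤ f.coeff j

/-- `Dec s f`: for all `i < j` with `s ≤ i + j` the coefficients satisfy `f_j ≤ f_i`. -/
def Dec (s : ℤ) (f : LP) : Prop := ∀ i j : ℤ, i < j → s ≤ i + j → f.coeff j ≤ f.coeff i

/-- `Pal m f`: the coefficients of `f` are symmetric, `f_i = f_{m-i}`. -/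
def Pal (m : ℤ) (f : LP) : Prop := ∀ i : ℤ, f.coeff i = f.coeff (m - i)

theorem coeff_T_mul (k : ℤ) (f : LP) (i : ℤ) : (T k * f).coeff i = f.coeff (i - k) := by
  rw [show (T k : LP) = .single k 1 from rfl]
  rw [AddMonoidAlgebra.coeff_single_mul_eq_mul_coeff (m₂ := i - k)]
  · simp
  · intro a _
    constructor <;> intro h <;> omega

theorem coeff_one' (i : ℤ) : (1 : LP).coeff i = if i = 0 then 1 else 0 := by
  have := T_apply (R := ℤ) i 0
  rw [T_zero] at this
  rw [this]
  by_cases h : i = 0
  · subst h; simp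
  · rw [if_neg h, if_neg (fun h' => h h'.symm)]

theorem coeff_T' (k i : ℤ) : (T k : LP).coeff i = if i = k then 1 else 0 := by
  rw [T_apply]
  by_cases h : i = k
  · subst h; simp
  · rw [if_neg h, if_neg (fun h' => h h'.symm)]

theorem Inc.mono {s s' : ℤ} {f : LP} (h : Inc s f) (hs : s' ≤ s) : Inc s' f :=
  fun i j hij hsum => h i j hij (by omega)

theorem Dec.mono {s s' : ℤ} {f : LP} (h : Dec s f) (hs : s ≤ s') : Dec s' f :=
  fun i j hij hsum => h i j hij (by omega)

theorem Inc.add {s : ℤ} {f g : LP} (hf : Inc s f) (hg : Inc s g) : Inc s (f + g) := by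
  intro i j hij hsum
  have h1 := hf i j hij hsum
  have h2 := hg i j hij hsum
  simp only [AddMonoidAlgebra.coeff_add, Finsupp.add_apply]
  omega

theorem Inc.T_mul {s : ℤ} {f : LP} (hf : Inc s f) (k : ℤ) : Inc (s + 2 * k) (T k * f) := by
  intro i j hij hsum
  rw [coeff_T_mul, coeff_T_mul]
  exact hf _ _ (by omega) (by omega)

theorem inc_zero (s : ℤ) : Inc s (0 : LP) := by
  intro i j _ _
  simp

/-- To check `Inc s` it suffices to have `Inc (s-1)` and the comparisons with sum exactly `s`. -/
theorem Inc.of_exact {s : ℤ} {f : LP} (h : Inc (s - 1) f)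
    (he : ∀ i j : ℤ, i < j → i + j = s → f.coeff i ≤ f.coeff j) : Inc s f := by
  intro i j hij hsum
  rcases lt_or_eq_of_le hsum with h1 | h1
  · exact h i j hij (by omega)
  · exact he i j hij h1

theorem coeff_invert (f : LP) (n : ℤ) : (invert f).coeff n = f.coeff (-n) := invert_apply f n

/-- the reflected polynomial `t^m f(1/t)` -/
noncomputable def refl (m : ℤ) (f : LP) : LP := T m * invert f

theorem coeff_refl (m : ℤ) (f : LP) (i : ℤ) : (refl m f).coeff i = f.coeff (m - i) := by
  unfold refl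
  rw [coeff_T_mul, coeff_invert]
  congr 1
  omega

theorem Inc.refl {s : ℤ} {f : LP} (hf : Inc s f) (m : ℤ) : Dec (2 * m - s) (refl m f) := by
  intro i j hij hsum
  rw [coeff_refl, coeff_refl]
  exact hf _ _ (by omega) (by omega)

theorem Dec.refl {s : ℤ} {f : LP} (hf : Dec s f) (m : ℤ) : Inc (2 * m - s) (Fox.refl m f) := by
  intro i j hij hsum
  rw [coeff_refl, coeff_refl]
  exact hf _ _ (by omega) (by omega)

theorem pal_iff_refl {m : ℤ} {f : LP} : Pal m f ↔ refl m f = f := by
  constructor
  · intro h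
    apply LaurentPolynomial.ext
    intro i
    rw [coeff_refl]
    exact (h i).symm
  · intro h i
    rw [← coeff_refl, h]

/-- the quantum integer `1 + t + ... + t^(k-1)` -/
noncomputable def qn (k : ℕ) : LP := ∑ d ∈ Finset.range k, T (d : ℤ)

theorem coeff_sum' {ι : Type*} (s : Finset ι) (f : ι → LP) (i : ℤ) :
    (∑ a ∈ s, f a).coeff i = ∑ a ∈ s, (f a).coeff i := by
  classical
  induction s using Finset.induction_on with
  | empty => simp
  | insert a s ha ih =>
    rw [Finset.sum_insert ha, Finset.sum_insert ha, ← ih]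
    simp

theorem coeff_qn_mul (k : ℕ) (f : LP) (i : ℤ) :
    (qn k * f).coeff i = ∑ d ∈ Finset.range k, f.coeff (i - d) := by
  unfold qn
  rw [Finset.sum_mul, coeff_sum']
  apply Finset.sum_congr rfl
  intro d _
  rw [coeff_T_mul]

theorem qn_succ (k : ℕ) : qn (k + 1) = qn k + T (k : ℤ) := by
  unfold qn
  rw [Finset.sum_range_succ]

/-- Multiplication by a quantum integer shifts the window. -/
theorem Inc.qn_mul {s : ℤ} {f : LP} (hf : Inc s f) (k : ℕ) : Inc (s + k) (qn (k + 1) * f) := by
  intro i j hij hsum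
  rw [coeff_qn_mul, coeff_qn_mul]
  -- let m = j - i
  obtain ⟨m, hm⟩ : ∃ m : ℕ, j = i + m := ⟨(j - i).toNat, by omega⟩
  by_cases hcase : k + 1 ≤ m
  · -- disjoint case, reverse the order of the first sum
    rw [← Finset.sum_range_reflect]
    apply Finset.sum_le_sum
    intro d hd
    rw [Finset.mem_range] at hd
    apply hf
    · push_cast [Nat.cast_sub (show d ≤ k + 1 - 1 by omega), Nat.cast_sub (show 1 ≤ k + 1 by omega)]
      omega
    · push_cast [Nat.cast_sub (show d ≤ k + 1 - 1 by omega), Nat.cast_sub (show 1 ≤ k + 1 by omega)]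
      omega
  · -- overlapping case : m ≤ k
    have hmk : m ≤ k := by omega
    -- sum over d < k+1 of f(i-d) = sum_{d < k+1-m} f(i-d) + sum_{d<m} f(i - (k+1-m) - d)
    have e1 : ∑ d ∈ Finset.range (k + 1), f.coeff (i - d)
        = ∑ d ∈ Finset.range (k + 1 - m), f.coeff (i - d)
          + ∑ d ∈ Finset.range m, f.coeff (i - ((k + 1 - m : ℕ) + d : ℤ)) := by
      have : k + 1 = (k + 1 - m) + m := by omega
      conv_lhs => rw [this]
      rw [Finset.sum_range_add]
      push_cast
      rfl
    have e2 : ∑ d ∈ Finset.range (k + 1), f.coeff (j - d)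
        = ∑ d ∈ Finset.range m, f.coeff (j - d)
          + ∑ d ∈ Finset.range (k + 1 - m), f.coeff (i - d) := by
      have : k + 1 = m + (k + 1 - m) := by omega
      conv_lhs => rw [this]
      rw [Finset.sum_range_add]
      congr 1
      apply Finset.sum_congr rfl
      intro d _
      congr 1
      push_cast
      omega
    rw [e1, e2]
    have e3 : ∑ d ∈ Finset.range m, f.coeff (i - ((k + 1 - m : ℕ) + d : ℤ))
        ≤ ∑ d ∈ Finset.range m, f.coeff (j - d) := by
      rw [← Finset.sum_range_reflect]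
      apply Finset.sum_le_sum
      intro d hd
      rw [Finset.mem_range] at hd
      have h1 : ((m - 1 - d : ℕ) : ℤ) = m - 1 - d := by omega
      have h2 : ((k + 1 - m : ℕ) : ℤ) = k + 1 - m := by omega
      rw [h1, h2]
      apply hf
      · omega
      · omega
    omega

end Pool.Agent.Fox
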