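import Pool.Agent.Fox.Window

open LaurentPolynomial

namespace Pool.Agent.Fox

/-- shorthand for the variable -/
noncomputable abbrev t : LP := T 1

/-- The entries of the `2 × 2` matrix product attached to a word (letters `true = A`,
`false = B`), `A = [[t,1],[0,1]]`, `B = [[t,0],[t,1]]`. -/
noncomputable def M : List Bool → Bool → Bool → LP
  | [], i, j => if i = j then 1 else 0
  | true :: w, false, j => t * M w false j + M w true j
  | true :: w, true, j => M w true j
  | false :: w, false, j => t * M w false j
  | false :: w, true, j => t * M w false j + M w true j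

/-- swap the two letters -/
def bar (w : List Bool) : List Bool := w.map not

@[simp] theorem bar_nil : bar [] = [] := rfl
@[simp] theorem bar_cons (x : Bool) (w : List Bool) : bar (x :: w) = (!x) :: bar w := rfl
@[simp] theorem bar_bar (w : List Bool) : bar (bar w) = w := by
  unfold bar; simp [List.map_map, Function.comp_def]
@[simp] theorem bar_length (w : List Bool) : (bar w).length = w.length := by unfold bar; simp
theorem bar_append (v w : List Bool) : bar (v ++ w) = bar v ++ bar w := by unfold bar; simp

theorem M_append (v w : List Bool) (i j : Bool) :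
    M (v ++ w) i j = M v i false * M w false j + M v i true * M w true j := by
  induction v generalizing i with
  | nil => cases i <;> simp [M]
  | cons x v ih =>
    cases x <;> cases i <;> simp [M, ih] <;> ring

theorem M_snocA_false (w : List Bool) (i : Bool) : M (w ++ [true]) i false = t * M w i false := by
  rw [M_append]; simp [M]

theorem M_snocA_true (w : List Bool) (i : Bool) :
    M (w ++ [true]) i true = M w i false + M w i true := by
  rw [M_append]; simp [M]

theorem M_snocB_false (w : List Bool) (i : Bool) :
    M (w ++ [false]) i false = t * M w i false + t * M w i true := by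
  rw [M_append]; simp [M]

theorem M_snocB_true (w : List Bool) (i : Bool) : M (w ++ [false]) i true = M w i true := by
  rw [M_append]; simp [M]

theorem refl_add (m : ℤ) (f g : LP) : refl m (f + g) = refl m f + refl m g := by
  unfold refl; rw [map_add, mul_add]

theorem refl_mul (m n : ℤ) (f g : LP) : refl (m + n) (f * g) = refl m f * refl n g := by
  unfold refl; rw [map_mul, T_add]; ring

theorem refl_T (m n : ℤ) : refl m (T n : LP) = T (m - n) := by
  unfold refl; rw [invert_T, ← T_add]; rfl

theorem refl_one (m : ℤ) : refl m (1 : LP) = T m := by
  unfold refl; simp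

theorem refl_refl (m : ℤ) (f : LP) : refl m (refl m f) = f := by
  apply LaurentPolynomial.ext
  intro i
  rw [coeff_refl, coeff_refl]
  congr 1; omega

/-- Swapping the letters reflects the matrix. -/
theorem M_bar (w : List Bool) (i j : Bool) : M (bar w) i j = refl w.length (M w (!i) (!j)) := by
  induction w generalizing i with
  | nil =>
    cases i <;> cases j <;> simp [M, refl]
  | cons x w ih =>
    have h1 : refl ((w.length : ℤ) + 1) (t * M w false (!j))
        = refl (w.length : ℤ) (M w false (!j)) := by
      rw [add_comm, refl_mul, refl_T]; simp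
    have h2 : refl ((w.length : ℤ) + 1) (M w true (!j))
        = t * refl (w.length : ℤ) (M w true (!j)) := by
      unfold refl; rw [add_comm, T_add]; ring
    cases x <;> cases i <;>
      simp only [bar_cons, M, ih, List.length_cons, Nat.cast_add, Nat.cast_one, Bool.not_false,
        Bool.not_true, refl_add, h1, h2] <;> ring

/-- trace -/
noncomputable def Tr (w : List Bool) : LP := M w false false + M w true true

/-- `κ = 1 - t + t²` -/
noncomputable def kap : LP := 1 - t + t * t

theorem kap_ne_zero : kap ≠ 0 := by
  intro h
  have := congrArg (fun f : LP => f.coeff 0) h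
  have h2 : (kap : LP) = 1 - T 1 + T 2 := by
    unfold kap t
    rw [← T_add]; norm_num
  rw [h2] at this
  simp only [AddMonoidAlgebra.coeff_add, AddMonoidAlgebra.coeff_sub, Finsupp.add_apply,
    Finsupp.sub_apply, coeff_one', coeff_T', AddMonoidAlgebra.coeff_zero, Finsupp.zero_apply] at this
  norm_num at this

/-- The reflected matrix `t^{|w|} M(w)(1/t)`. -/
noncomputable def Ms (w : List Bool) (i j : Bool) : LP := refl w.length (M w i j)

theorem Ms_cons_A_false (w : List Bool) (j : Bool) :
    Ms (true :: w) false j = Ms w false j + t * Ms w true j := by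
  unfold Ms
  have h1 : refl ((w.length : ℤ) + 1) (t * M w false j) = refl (w.length : ℤ) (M w false j) := by
    rw [add_comm, refl_mul, refl_T]; simp
  have h2 : refl ((w.length : ℤ) + 1) (M w true j) = t * refl (w.length : ℤ) (M w true j) := by
    unfold refl; rw [add_comm, T_add]; ring
  simp only [M, List.length_cons, Nat.cast_add, Nat.cast_one, refl_add, h1, h2]

theorem Ms_cons_A_true (w : List Bool) (j : Bool) : Ms (true :: w) true j = t * Ms w true j := by
  unfold Ms
  have h2 : refl ((w.length : ℤ) + 1) (M w true j) = t * refl (w.length : ℤ) (M w true j) := by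
    unfold refl; rw [add_comm, T_add]; ring
  simp only [M, List.length_cons, Nat.cast_add, Nat.cast_one, h2]

theorem Ms_cons_B_false (w : List Bool) (j : Bool) : Ms (false :: w) false j = Ms w false j := by
  unfold Ms
  have h1 : refl ((w.length : ℤ) + 1) (t * M w false j) = refl (w.length : ℤ) (M w false j) := by
    rw [add_comm, refl_mul, refl_T]; simp
  simp only [M, List.length_cons, Nat.cast_add, Nat.cast_one, h1]

theorem Ms_cons_B_true (w : List Bool) (j : Bool) :
    Ms (false :: w) true j = Ms w false j + t * Ms w true j := by
  unfold Ms
  have h1 : refl ((w.length : ℤ) + 1) (t * M w false j) = refl (w.length : ℤ) (M w false j) := by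
    rw [add_comm, refl_mul, refl_T]; simp
  have h2 : refl ((w.length : ℤ) + 1) (M w true j) = t * refl (w.length : ℤ) (M w true j) := by
    unfold refl; rw [add_comm, T_add]; ring
  simp only [M, List.length_cons, Nat.cast_add, Nat.cast_one, refl_add, h1, h2]

/-- `Ms w * H = H * M w` with `H = [[t, 1-t],[t-1, 1]]`. -/
theorem Ms_intertwine (w : List Bool) :
    (Ms w false false * t + Ms w false true * (t - 1)
        = t * M w false false + (1 - t) * M w true false) ∧
    (Ms w false false * (1 - t) + Ms w false true
        = t * M w false true + (1 - t) * M w true true) ∧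
    (Ms w true false * t + Ms w true true * (t - 1)
        = (t - 1) * M w false false + M w true false) ∧
    (Ms w true false * (1 - t) + Ms w true true
        = (t - 1) * M w false true + M w true true) := by
  induction w with
  | nil =>
    simp only [Ms, M, List.length_nil, Nat.cast_zero]
    have h0 : refl 0 (0 : LP) = 0 := by unfold refl; simp
    have h1 : refl 0 (1 : LP) = 1 := by unfold refl; simp
    simp [h0, h1]
  | cons x w ih =>
    obtain ⟨h1, h2, h3, h4⟩ := ih
    cases x
    · -- B
      rw [Ms_cons_B_false, Ms_cons_B_false, Ms_cons_B_true, Ms_cons_B_true]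
      simp only [M]
      refine ⟨?_, ?_, ?_, ?_⟩
      · linear_combination h1
      · linear_combination h2
      · linear_combination h1 + t * h3
      · linear_combination h2 + t * h4
    · rw [Ms_cons_A_false, Ms_cons_A_false, Ms_cons_A_true, Ms_cons_A_true]
      simp only [M]
      refine ⟨?_, ?_, ?_, ?_⟩
      · linear_combination h1 + t * h3
      · linear_combination h2 + t * h4
      · linear_combination t * h3
      · linear_combination t * h4

/-- The trace is palindromic. -/
theorem refl_Tr (w : List Bool) : refl w.length (Tr w) = Tr w := by
  have h : kap * (Ms w false false + Ms w true true) = kap * Tr w := by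
    obtain ⟨h1, h2, h3, h4⟩ := Ms_intertwine w
    unfold kap Tr
    linear_combination h1 - (t - 1) * h2 + t * h4 - (1 - t) * h3
  have h' := mul_left_cancel₀ kap_ne_zero h
  calc refl w.length (Tr w) = Ms w false false + Ms w true true := by
        unfold Tr Ms; rw [refl_add]
    _ = Tr w := h' 

theorem Tr_bar (w : List Bool) : Tr (bar w) = Tr w := by
  unfold Tr
  rw [M_bar, M_bar, ← refl_add]
  have := refl_Tr w
  unfold Tr at this
  simp only [Bool.not_false, Bool.not_true]
  rw [add_comm (M w true true)]
  exact this

/-- The fence polynomial of a word. -/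
noncomputable def P (w : List Bool) : LP :=
  t * M w false false + t * M w false true + M w true false + M w true true

noncomputable def c1 (w : List Bool) : LP := t * M w false false + M w true false
noncomputable def c2 (w : List Bool) : LP := t * M w false true + M w true true

theorem P_eq (w : List Bool) : P w = c1 w + c2 w := by unfold P c1 c2; ring

theorem P_nil : P [] = t + 1 := by unfold P; simp [M]

theorem c1_nil : c1 [] = t := by unfold c1; simp [M]
theorem c2_nil : c2 [] = 1 := by unfold c2; simp [M]
theorem c1_snocA (w : List Bool) : c1 (w ++ [true]) = t * c1 w := by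
  unfold c1; rw [M_snocA_false, M_snocA_false]; ring
theorem c2_snocA (w : List Bool) : c2 (w ++ [true]) = P w := by
  unfold c2 P; rw [M_snocA_true, M_snocA_true]; ring
theorem c1_snocB (w : List Bool) : c1 (w ++ [false]) = t * P w := by
  unfold c1 P; rw [M_snocB_false, M_snocB_false]; ring
theorem c2_snocB (w : List Bool) : c2 (w ++ [false]) = c2 w := by
  unfold c2; rw [M_snocB_true, M_snocB_true]

theorem P_snocA (w : List Bool) : P (w ++ [true]) = P w + t * c1 w := by
  rw [P_eq, c1_snocA, c2_snocA]; ring
theorem P_snocB (w : List Bool) : P (w ++ [false]) = t * P w + c2 w := by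
  rw [P_eq, c1_snocB, c2_snocB]

theorem P_bar (w : List Bool) : P (bar w) = refl (w.length + 1) (P w) := by
  unfold P
  rw [M_bar, M_bar, M_bar, M_bar]
  have h1 : ∀ f : LP, refl ((w.length : ℤ) + 1) (t * f) = refl (w.length : ℤ) f := by
    intro f; rw [add_comm, refl_mul, refl_T]; simp
  have h2 : ∀ f : LP, refl ((w.length : ℤ) + 1) f = t * refl (w.length : ℤ) f := by
    intro f; unfold refl; rw [add_comm, T_add]; ring
  rw [refl_add, refl_add, refl_add, h1, h1, h2 (M w true false), h2 (M w true true)]
  simp only [Bool.not_false, Bool.not_true]
  ring

/-- block formula -/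
theorem c2_replicate (w : List Bool) (m : ℕ) : c2 (w ++ List.replicate m false) = c2 w := by
  induction m with
  | zero => simp
  | succ m ih =>
    rw [List.replicate_succ', ← List.append_assoc, c2_snocB, ih]

theorem P_block (w : List Bool) (m : ℕ) :
    P (w ++ List.replicate m false) = T (m : ℤ) * P w + qn m * c2 w := by
  induction m with
  | zero => simp [qn]
  | succ m ih =>
    rw [List.replicate_succ', ← List.append_assoc, P_snocB, ih, c2_replicate]
    have : qn (m + 1) = t * qn m + 1 := by
      unfold qn
      rw [Finset.sum_range_succ', Finset.mul_sum]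
      simp only [Nat.cast_add, Nat.cast_one, Nat.cast_zero, T_zero]
      congr 1
      apply Finset.sum_congr rfl
      intro d _
      rw [← T_add]; congr 1; ring
    rw [this]
    have h2 : (T ((m + 1 : ℕ) : ℤ) : LP) = t * T (m : ℤ) := by
      rw [← T_add]; congr 1; push_cast; ring
    rw [h2]; ring

theorem P_replicate (m : ℕ) : P (List.replicate m false) = qn (m + 2) := by
  have := P_block [] m
  simp only [List.nil_append] at this
  rw [this, P_nil, c2_nil, qn_succ, qn_succ]
  have h2 : (T ((m + 1 : ℕ) : ℤ) : LP) = t * T (m : ℤ) := by
    rw [← T_add]; congr 1; push_cast; ring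
  rw [h2]; ring

theorem P_AB (w : List Bool) (m : ℕ) :
    P (w ++ true :: List.replicate m false) = qn (m + 1) * P w + T ((m : ℤ) + 1) * c1 w := by
  have h : w ++ true :: List.replicate m false = (w ++ [true]) ++ List.replicate m false := by simp
  rw [h, P_block, P_snocA, c2_snocA, qn_succ, T_add]
  ring

/-- every word is `B^m` or `w' A B^m` -/
theorem word_cases (w : List Bool) :
    (∃ m, w = List.replicate m false) ∨ ∃ v m, w = v ++ true :: List.replicate m false := by
  induction w with
  | nil => left; exact ⟨0, rfl⟩
  | cons x w ih =>
    rcases ih with ⟨m, rfl⟩ | ⟨v, m, rfl⟩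
    · cases x
      · left; exact ⟨m + 1, rfl⟩
      · right; exact ⟨[], m, rfl⟩
    · right; exact ⟨x :: v, m, rfl⟩

/-- coefficients of `T` powers and windows -/
theorem inc_T {s k : ℤ} (h : s < 2 * k) : Inc s (T k : LP) := by
  intro i j hij hsum
  rw [coeff_T', coeff_T', if_neg (show ¬ i = k by omega)]
  split_ifs <;> norm_num

theorem inc_one_neg {s : ℤ} (h : s ≤ 0) : Inc s (1 : LP) := by
  intro i j hij hsum
  rw [coeff_one', coeff_one', if_neg (show ¬ i = 0 by omega)]
  split_ifs <;> norm_num

/-- trace relation used for the exact sum. -/
theorem Tr_BA (w : List Bool) : Tr (w ++ [false, true]) = t * P w + M w true true := by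
  unfold Tr P
  have h : w ++ [false, true] = (w ++ [false]) ++ [true] := by simp
  rw [h, M_snocA_false, M_snocA_true, M_snocB_false, M_snocB_false, M_snocB_true]
  ring

theorem M11_cons_A (w : List Bool) : M (true :: w) true true = M w true true := rfl

theorem M11_BA (w : List Bool) : M (false :: (w ++ [true])) true true = P w := by
  simp only [M]
  rw [M_snocA_true, M_snocA_true]
  unfold P; ring

end Pool.Agent.Fox
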